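import Pool.Agent.Lib.MP_c9a594_an.PW.MainF

/-! Linear forms with an algebraic coefficient along an ultrafilter. -/

open Filter Topology Real Finset Pool.Agent.Subspace

namespace Pool.Agent.Lib.MP_c9a594_an.PW

open AI AR

variable {U : Ultrafilter ℕ} {q : ℕ → ℝ} {hq : Tendsto q U atTop} {θ : ℝ}

/-- The difference `x - θ y` has growth rate at most `r`. -/
def sm2 (hq : Tendsto q U atTop) (θ r : ℝ) (x y : UP U) : Prop :=
  ∀ f g, x = germ U f → y = germ U g → cR f - (fun _ => θ) * cR g ∈ (smR hq).F 0 r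

lemma sm2_iff {r : ℝ} {f g : ℕ → ℚ} :
    sm2 hq θ r (germ U f) (germ U g) ↔ cR f - (fun _ => θ) * cR g ∈ (smR hq).F 0 r :=
  ⟨fun h => h f g rfl rfl, fun h f' g' hf hg ε hε => by
    filter_upwards [h ε hε, germ_eq.mp hf, germ_eq.mp hg] with k h1 h2 h3
    simpa [cR, ← h2, ← h3] using h1⟩

lemma sm2.mul {r s : ℝ} {x y z : UP U} (h : sm2 hq θ r x y) (hz : z ∈ small hq s) :
    sm2 hq θ (s + r) (z * x) (z * y) := by
  obtain ⟨f, rfl⟩ := germ_surj x
  obtain ⟨g, rfl⟩ := germ_surj y
  obtain ⟨w, rfl⟩ := germ_surj z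
  rw [← map_mul, ← map_mul, sm2_iff, map_mul, map_mul, mul_left_comm, ← mul_sub]
  exact (smR hq).mul (m := 0) (m' := 0) (germ_small.mp hz) (sm2_iff.mp h)

variable {S : Finset ℕ} {hS : ∀ p ∈ S, p.Prime} {ω : ℕ}

lemma sub_alg (hω : ω ≠ 0) (hωS : ∀ p, p.Prime → p ∣ ω → p ∈ S) (hθ : IsAlgebraic ℚ θ) {N : ℕ}
    (x : Fin N → UP U) (hx : ∀ i, x i ∈ tameO U q ω) (ix : LinearIndependent ℚ x)
    (a b : Fin N → Fin N → ℚ)
    (hdet : ∀ v : Fin N → ℝ, (∀ i, ∑ j, (a i j - θ * b i j) * v j = 0) → v = 0) (ρ : Fin N → ℝ)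
    (hρ : ∀ i, sm2 hq θ (ρ i) (∑ j, a i j • x j) (∑ j, b i j • x j)) :
    0 ≤ ∑ i, (ρ i + ∑ p : S, ordU U hS q (some p) (x i)) := by
  by_contra! hneg
  choose f m C hf hC using id hx
  let o : Option S → Fin N → ℝ := fun v i => v.elim (ρ i) fun p => ordU U hS q (some p) (x i)
  set δ := -∑ v, ∑ i, o v i with hδ
  have hδ0 : 0 < δ := neg_pos.mpr (by
    rw [sum_comm]
    simpa only [Fintype.sum_option, o, Option.elim] using hneg)
  set n : ℝ := Fintype.card (Option S) * N with hn
  have hn0 : 0 ≤ n := by positivity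
  set ε := δ / (2 * (n + 1)) with hε
  have hε0 : 0 < ε := by positivity
  have hω' : (ω : ℚ) ≠ 0 := by exact_mod_cast hω
  have hX : ∀ k j, ((f j k * ω ^ (∑ j, m j k - m j k) : ℤ) : ℚ) =
      f j k / ω ^ m j k * ω ^ (∑ j, m j k) := fun k j => by
    push_cast
    rw [pow_sub₀ _ hω' (single_le_sum (f := fun j => m j k) (fun _ _ => Nat.zero_le _)
      (mem_univ j))]
    ring
  simp only [hf, germ_smul, germ_sum, sm2_iff] at hρ
  obtain ⟨ζ, hζ, h0⟩ := Shared.SubspaceAlg.subspace_alg S hS N (Matrix.of fun i j => a i j - θ * b i j)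
    (fun i j => (isAlgebraic_algebraMap (a i j)).sub (hθ.mul (isAlgebraic_algebraMap (b i j))))
    (fun h => by
      obtain ⟨v, h1, h2⟩ := Matrix.exists_mulVec_eq_zero_iff.mpr h
      exact h1 (hdet v (congrFun h2))) (fun _ => 1) (fun _ => by simp) U q hq
    (∑ v, ∑ i, |o v i| + ε + (∑ j, C j) * log ω) (δ / 2) (by positivity)
    (fun k j => f j k * ω ^ (∑ j, m j k - m j k))
    (fun k v i => (o v i + ε) * q k + (∑ j, m j k : ℕ) * log (plAbs S hS v ω)) (by
      filter_upwards [eventually_all.mpr hC, hq.eventually_ge_atTop 0,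
        eventually_all.mpr fun p : S => eventually_all.mpr fun i => le_exp_of_ordU (hS := hS) hq hω
          (hf i ▸ hx i) (some p) (lt_add_of_pos_right _ hε0),
        eventually_all.mpr fun i => hρ i ε hε0] with k h1 h2 h3 h4
      have hp : ∀ v, exp ((∑ j, m j k : ℕ) * log (plAbs S hS v ω)) =
          plAbs S hS v (ω ^ ∑ j, m j k) := fun v => by
        rw [exp_nat_mul, exp_log ((plAbs S hS v).pos hω'), map_pow]
      refine ⟨fun v i => ?_, ?_, fun i => ?_, fun p i => ?_⟩
      · have a1 : |o v i| ≤ ∑ v, ∑ i, |o v i| :=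
          (single_le_sum (f := fun i => |o v i|) (fun _ _ => abs_nonneg _)
            (mem_univ i)).trans (single_le_sum (f := fun v => ∑ i, |o v i|)
            (fun _ _ => by positivity) (mem_univ v))
        have a2 := abs_log_plAbs_le (hS := hS) v (z := ω) (by exact_mod_cast hω)
        simp only [Int.cast_natCast, Nat.abs_cast] at a2
        have a3 : ((∑ j, m j k : ℕ) : ℝ) ≤ (∑ j, C j) * q k := by
          push_cast; rw [sum_mul]; exact sum_le_sum fun j _ => (h1 j).2.2
        have a4 := mul_le_mul a3 a2 (abs_nonneg _) ((Nat.cast_nonneg _).trans a3)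
        have a5 := mul_le_mul_of_nonneg_right ((abs_add_le _ ε).trans
          (add_le_add a1 (abs_of_pos hε0).le)) h2
        refine (abs_add_le _ _).trans ?_
        rw [abs_mul, abs_mul, Nat.abs_cast, abs_of_nonneg h2]
        linarith
      · simp only [sum_add_distrib, add_mul, ← sum_mul, sum_const, card_univ, nsmul_eq_mul,
          Fintype.card_fin, ← mul_sum, sum_log_plAbs hω hωS]
        have a1 : n * ε ≤ δ / 2 := by
          rw [hε, mul_div_assoc', div_le_div_iff₀ (by positivity) (by positivity)]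
          nlinarith
        have a2 := mul_le_mul_of_nonneg_right a1 h2
        rw [hn] at a2
        nlinarith
      · rw [exp_add, hp, plAbs_none]
        refine le_trans (le_of_eq ?_) (mul_le_mul_of_nonneg_right (h4 i) (abs_nonneg _))
        rw [← abs_mul]
        simp only [Matrix.mulVec, dotProduct, Matrix.of_apply, ← Rat.cast_intCast (α := ℝ), hX]
        simp only [cR, Pi.sub_apply, Pi.mul_apply, RingHom.compLeft_apply, Function.comp_apply,
          Rat.coe_castHom, Rat.cast_sum, Rat.cast_mul, mul_sum, ← sum_sub_distrib, sum_mul]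
        exact congrArg _ (sum_congr rfl fun j _ => by ring)
      · rw [Matrix.one_mulVec, hX, map_mul, exp_add, hp]
        refine mul_le_mul_of_nonneg_right ?_ ((plAbs S hS _).nonneg _)
        simpa only [o, Option.elim, hf i] using h3 p i)
  refine hζ (funext (Fintype.linearIndependent_iff.mp ix ζ ?_))
  simp only [hf, germ_smul, germ_sum]
  refine germ_eq_zero.mpr (h0.mono fun k hk => ?_)
  refine mul_right_cancel₀ (pow_ne_zero (∑ j, m j k) hω') ?_
  rw [zero_mul, ← hk, sum_mul]
  exact sum_congr rfl fun j _ => by simp only [hX, mul_assoc]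

lemma sub_alg' (hω : ω ≠ 0) (hωS : ∀ p, p.Prime → p ∣ ω → p ∈ S) (hθ : IsAlgebraic ℚ θ) {T : Type}
    [Fintype T] (x : T → UP U) (hx : ∀ i, x i ∈ tameO U q ω) (ix : LinearIndependent ℚ x)
    (a b : T → T → ℚ)
    (hdet : ∀ v : T → ℝ, (∀ i, ∑ j, (a i j - θ * b i j) * v j = 0) → v = 0) (ρ : T → ℝ)
    (hρ : ∀ i, sm2 hq θ (ρ i) (∑ j, a i j • x j) (∑ j, b i j • x j)) :
    0 ≤ ∑ i, (ρ i + ∑ p : S, ordU U hS q (some p) (x i)) := by
  let e := (Fintype.equivFin T).symm
  rw [← e.sum_comp]
  refine sub_alg (hq := hq) hω hωS hθ (fun i => x (e i)) (fun i => hx _) (ix.comp e e.injective)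
    (fun i j => a (e i) (e j)) (fun i j => b (e i) (e j)) (fun v hv => funext fun i => ?_) _
    fun i => ?_
  · simpa using congrFun (hdet (fun j => v (e.symm j)) fun i => by
      rw [← e.sum_comp]
      simpa using hv (e.symm i)) (e i)
  · rw [e.sum_comp fun j => a (e i) j • x j, e.sum_comp fun j => b (e i) j • x j]
    exact hρ _

open MvPolynomial in
/-- Every monomial of a small form with an irrational algebraic coefficient is small. -/
lemma alg_lead (hω : ω ≠ 0) (hωS : ∀ p, p.Prime → p ∣ ω → p ∈ S) (hθ : IsAlgebraic ℚ θ)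
    (hi : Irrational θ) {r : ℕ} {g : Fin r → UP U} (hg : ∀ i, g i ∈ tameO U q ω)
    (hg0 : ∀ i, ∑ v, ordU U hS q v (g i) = 0) {L : Type} [Fintype L] {Z : L → UP U}
    (hZ : ∀ l, Z l ∈ tameO U q ω)
    (hE : ∀ Ψ : L → MvPolynomial (Fin r) ℚ, ∑ j, aeval g (Ψ j) * Z j = 0 → ∀ j, Ψ j = 0)
    (A B : L → MvPolynomial (Fin r) ℚ) {R : ℝ}
    (h : sm2 hq θ R (∑ l, aeval g (A l) * Z l) (∑ l, aeval g (B l) * Z l)) {l0 : L}
    {e : Fin r →₀ ℕ} (he : e ∈ (B l0).support) :
    ordU U hS q none (Z l0) + (ctxU hS hq hω hωS).wt g none e ≤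
      R + ∑ l, ∑ v, ordU U hS q v (Z l) := by
  classical
  set X := ctxU hS hq hω hωS
  have hXo : X.ord = ordU U hS q := rfl
  obtain ⟨e0, he0, hm⟩ := exists_max_image ((A l0).support ∪ (B l0).support)
    (MP_c9a594_an.key fun i => X.ord none (g i)) ⟨e, mem_union_right _ he⟩
  have h1 : X.wt g none e ≤ X.wt g none e0 := weight_le_of_key _ (hm e (mem_union_right _ he))
  let δ : Fin r → ℕ := fun i => univ.sup fun l => (A l).degreeOf i + (B l).degreeOf i
  have hδ : ∀ l, ∀ a ∈ (A l).support ∪ (B l).support, ∀ i, a i ≤ δ i := fun l a ha i =>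
    le_trans ((mem_union.mp ha).elim (fun h => (monomial_le_degreeOf i h).trans (by omega))
      fun h => (monomial_le_degreeOf i h).trans (by omega))
      (le_sup (f := fun l => (A l).degreeOf i + (B l).degreeOf i) (mem_univ l))
  suffices ordU U hS q none (Z l0) + X.wt g none e0 - R ≤ ∑ l, ∑ v, ordU U hS q v (Z l) by linarith
  refine le_of_box δ fun n hn => ?_
  let F : Finset (L × (Fin r →₀ ℕ)) := univ ×ˢ box fun i => n + δ i
  let P : Finset (L × (Fin r →₀ ℕ)) := (box fun _ => n).image fun t => (l0, t + e0)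
  have hbox : ∀ t ∈ box fun _ : Fin r => n, ∀ l, ∀ a ∈ (A l).support ∪ (B l).support,
      t + a ∈ box fun i => n + δ i := fun t ht l a ha => mem_box.mpr fun i =>
    add_lt_add_of_lt_of_le (mem_box.mp ht i) (hδ l a ha i)
  have hsup : ∀ {t a : Fin r →₀ ℕ} {Φ : MvPolynomial (Fin r) ℚ},
      a ∈ (monomial t (1 : ℚ) * Φ).support → ∃ c ∈ Φ.support, a = t + c := fun h => by
    obtain ⟨c, h1, d, h2, rfl⟩ := mem_add.mp (support_mul _ _ h)
    exact ⟨d, h2, by rw [mem_singleton.mp (support_monomial_subset h1)]⟩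
  let x : L × (Fin r →₀ ℕ) → UP U := fun y => Z y.1 * mon g y.2
  have hxO : ∀ y, x y ∈ X.O := fun y => X.O.mul_mem (hZ _) (X.mon_mem hg _)
  have hord : ∀ v y, X.ord v (x y) = X.ord v (Z y.1) + X.wt g v y.2 := fun v y => by
    rw [X.ord_mul v _ (hZ _) _ (X.mon_mem hg _), X.ord_mon hg]
  have ix : LinearIndependent ℚ x := linearIndependent_iff'.mpr fun s c hc y hy => by
    have := congrArg (coeff y.2) (hE (fun j => ∑ z ∈ s, if z.1 = j then monomial z.2 (c z) else 0)
      (by
        rw [← hc]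
        simp only [map_sum, sum_mul]
        rw [sum_comm]
        refine sum_congr rfl fun z _ => ?_
        rw [sum_eq_single z.1 (fun j _ hj => by simp [hj.symm]) (by simp), if_pos rfl,
          aeval_monomial_eq, smul_mul_assoc, mul_comm]) y.1)
    rwa [coeff_sum, sum_eq_single y (fun z _ hz => by
      by_cases h1 : z.1 = y.1 <;> by_cases h2 : z.2 = y.2 <;> simp_all [Prod.ext_iff])
      (fun h => absurd hy h), if_pos rfl, coeff_monomial, if_pos rfl] at this
  let row : (L → MvPolynomial (Fin r) ℚ) → ℚ → F → F → ℚ := fun Φ d i j =>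
    if i.1 ∈ P then coeff j.1.2 (monomial (i.1.2 - e0) 1 * Φ j.1.1) else if i = j then d else 0
  have hrow : ∀ Φ : L → MvPolynomial (Fin r) ℚ,
      (∀ l, (Φ l).support ⊆ (A l).support ∪ (B l).support) → ∀ t ∈ box fun _ : Fin r => n,
      ∑ j : F, coeff j.1.2 (monomial t 1 * Φ j.1.1) • x j = mon g t * ∑ l, aeval g (Φ l) * Z l :=
    fun Φ hΦ t ht => by
      rw [sum_coe_sort F fun j => coeff j.2 (monomial t 1 * Φ j.1) • x j, sum_product, mul_sum]
      refine sum_congr rfl fun l _ => ?_
      rw [← mul_assoc, ← one_smul ℚ (mon g t), ← aeval_monomial_eq, ← map_mul, aeval_eq_sum, sum_mul]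
      refine (sum_subset (fun a ha => ?_) fun a _ ha => by
        simp [notMem_support_iff.mp ha]).symm.trans (sum_congr rfl fun a _ => by
          rw [smul_mul_assoc, mul_comm (mon g a)])
      obtain ⟨c, h1, rfl⟩ := hsup ha
      exact hbox t ht l c (hΦ l h1)
  have h2 := sub_alg' (hS := hS) (hq := hq) hω hωS hθ (fun j : F => x j) (fun j => hxO j)
    (ix.comp _ Subtype.val_injective) (row A 1) (row B 0) (fun v hv => by
      have h3 : ∀ j, v j ≠ 0 → j.1 ∈ P := fun j hj => by
        by_contra h4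
        exact hj (by simpa [row, h4, apply_ite (Rat.cast : ℚ → ℝ)] using hv j)
      by_contra h4
      obtain ⟨j, h5, h6⟩ := exists_min_image (univ.filter fun j => v j ≠ 0)
        (fun j => MP_c9a594_an.key (fun i => X.ord none (g i)) j.1.2)
        (Function.ne_iff.mp h4 |>.imp fun j hj => mem_filter.mpr ⟨mem_univ _, hj⟩)
      have h7 := (mem_filter.mp h5).2
      obtain ⟨t, -, h8⟩ := mem_image.mp (h3 j h7)
      have h9 := hv j
      simp only [row, if_pos (h3 j h7)] at h9
      rw [sum_eq_single j (fun j' _ hj' => ?_) (by simp), ← h8] at h9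
      · simp only [add_tsub_cancel_right, coeff_monomial_mul, one_mul, mul_eq_zero, h7,
          or_false] at h9
        have b1 := eq_zero_of_irrational hi (u := -coeff e0 (B l0)) (v := coeff e0 (A l0))
          (by push_cast; linarith)
        rw [neg_eq_zero] at b1
        rw [b1] at h9
        simp [b1, show coeff e0 (A l0) = 0 by simpa using h9] at he0
      · by_contra b1
        have b2 := right_ne_zero_of_mul b1
        obtain ⟨t', -, b3⟩ := mem_image.mp (h3 j' b2)
        have b4 : j'.1.1 = l0 := by rw [← b3]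
        obtain ⟨c, b5, b6⟩ : ∃ c ∈ (A l0).support ∪ (B l0).support, j'.1.2 = t + c := by
          have b5 := left_ne_zero_of_mul b1
          rw [← h8, b4, add_tsub_cancel_right] at b5
          by_cases b6 : j'.1.2 ∈ (monomial t (1 : ℚ) * A l0).support
          · exact (hsup b6).imp fun c h => ⟨mem_union_left _ h.1, h.2⟩
          · refine (hsup (mem_support_iff.mpr fun b7 => b5 ?_)).imp fun c h =>
              ⟨mem_union_right _ h.1, h.2⟩
            simp [notMem_support_iff.mp b6, b7]
        have b7 := h6 j' (mem_filter.mpr ⟨mem_univ _, b2⟩)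
        refine hj' (Subtype.ext (Prod.ext (by rw [b4, ← h8]) (key_inj _ (le_antisymm ?_ b7))))
        rw [b6, ← h8, key_add, key_add]
        exact add_le_add le_rfl (hm c b5))
    (fun i => if i.1 ∈ P then X.wt g none (i.1.2 - e0) + R else X.ord none (x i)) fun i => by
      simp only [row]
      split_ifs with h3
      · obtain ⟨t, ht, h4⟩ := mem_image.mp h3
        rw [← h4, add_tsub_cancel_right, hrow A (fun _ => subset_union_left) t ht,
          hrow B (fun _ => subset_union_right) t ht]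
        exact h.mul (mem_small (hS := hS) hq hω (X.mon_mem hg t) (X.ord_mon hg none t).le)
      · obtain ⟨f, hf⟩ := germ_surj (x i)
        have h4 := mem_small (hS := hS) hq hω (hxO i) le_rfl
        simp only [ite_smul, one_smul, zero_smul, sum_ite_eq, mem_univ, if_true, ite_self,
          sum_const_zero]
        rw [← hf] at h4 ⊢
        rw [← map_zero (germ U), sm2_iff]
        simpa [hXo] using germ_small.mp h4
  have h3 : ∀ y, (if y ∈ P then X.wt g none (y.2 - e0) + R else X.ord none (x y)) +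
      ∑ p : S, X.ord (some p) (x y) = ∑ v, X.ord v (Z y.1) -
        if y ∈ P then X.ord none (Z l0) + X.wt g none e0 - R else 0 := fun y => by
    have b1 : ∑ v, X.ord v (x y) = ∑ v, X.ord v (Z y.1) := by
      simp only [hord, sum_add_distrib, X.sum_wt hg0, add_zero]
    rw [← b1, Fintype.sum_option]
    split_ifs with b2
    · obtain ⟨t, -, rfl⟩ := mem_image.mp b2
      rw [hord none, add_tsub_cancel_right, map_add]
      ring
    · ring
  rw [← hXo] at h2 ⊢
  simp only [h3] at h2
  rw [sum_coe_sort F fun y => ∑ v, X.ord v (Z y.1) -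
    if y ∈ P then X.ord none (Z l0) + X.wt g none e0 - R else 0, sum_sub_distrib, sum_ite_mem,
    inter_eq_right.mpr (image_subset_iff.mpr fun t ht =>
      mem_product.mpr ⟨mem_univ _, hbox t ht l0 e0 he0⟩), sum_product, sum_const,
    card_image_of_injective _ fun a b hab => add_right_cancel (Prod.mk.inj hab).2] at h2
  simpa only [card_box, sum_const, nsmul_eq_mul, ← mul_sum, prod_const, card_univ, Fintype.card_fin,
    Nat.cast_pow, Nat.cast_prod, sub_nonneg] using h2

end Pool.Agent.Lib.MP_c9a594_an.PW
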