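import Pool.Agent.Lib.MP_c9a594_an.PW.Alg

/-! The field generated by the numbers of low complexity contains no irrational algebraic number. -/

open Filter Topology Real Finset Pool.Agent.Subspace

namespace Pool.Agent.Lib.MP_c9a594_an.PW

open AI AR

open MvPolynomial in
theorem alg_ultra {S : Finset ℕ} (hS : ∀ p ∈ S, p.Prime) (J : Type) [Fintype J] (c : ℝ) :
    ∃ κ : ℝ, ∀ (U : Ultrafilter ℕ) (q : ℕ → ℝ) (hq : Tendsto q U atTop) (V : J → ℕ → ℤ),
      (∀ j, ∀ᶠ k in U, |(V j k : ℝ)| ≤ exp (c * q k)) → ∀ (θ K : ℝ) (x y : UP U) (Cn : Set _),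
      IsAlgebraic ℚ θ → Irrational θ → x ∈ uwS hS U q Cn (fun j => germ U fun k => V j k) →
      y ∈ uwS hS U q Cn (fun j => germ U fun k => V j k) → sm2 hq θ (-K) x y →
      y ∈ small hq (κ - K) := by
  have hb := pr_ne hS
  have hω := om_ne hS
  obtain ⟨c1, hc1⟩ : ∃ c1 : ℝ, c1 = Fintype.card J *
    ((2 + (Fintype.card J + 2) * Fintype.card (Option S)) * |c|) := ⟨_, rfl⟩
  have hc0 : 0 ≤ c1 := by rw [hc1]; positivity
  refine ⟨(2 * c1 + 2) * log (∏ p : S, (p : ℕ) : ℕ) +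
    (c1 + Fintype.card J * (Fintype.card (Option S) * |c|)),
    fun U q hq V hV θ K x y Cn hθ hi hx hy h => ?_⟩
  let Vb : J → UP U := fun j => germ U fun k => V j k
  obtain ⟨r, γ, u, P, hγ, hgi, hP, -⟩ := present hS hq (I := Bool) (fun _ => Cn)
    (fun _ => Vb) (fun i => cond i x y) (by rintro (_ | _); exacts [hy, hx])
  set X := ctxU hS hq hω (om_mem hS)
  set g : Fin r → UP U := fun l => gmr U (fun p : S => (p : ℕ)) (γ l)
  have hg : ∀ i, g i ∈ X.O := fun j => gmr_mem hq hb (hγ j)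
  have hg' : ∀ i, (g i)⁻¹ ∈ X.O := fun j =>
    gmr_neg (b := fun p : S => (p : ℕ)) (γ j) ▸ gmr_mem hq hb (Submodule.neg_mem _ (hγ j))
  have hg0 : ∀ i, ∑ v, X.ord v (g i) = 0 := fun j => sum_ordU_gmr hb (om_mem hS) (hγ j)
  have hinj := aeval_gmr_injective hb (pr_ind hS) hgi
  have hne : ∀ i, g i ≠ 0 := fun i => gmr_ne_zero hb _
  have hmon : ∀ a, mon g a ≠ 0 := fun a => prod_ne_zero_iff.mpr fun i _ => pow_ne_zero _ (hne i)
  obtain ⟨L, _, Z, Δ, M, ρ, hn, hE, hZ, hΔ0, hΔn, -, hΔV⟩ := X.cramer hg hg0 hinj Vb (abs_nonneg c)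
    fun j => (int_mem_or hq (hV j)).imp_right fun h =>
      ⟨int_mem hq h, fun v => (abs_ordU_int hq h v).trans (le_abs_self c)⟩
  rw [← hc1] at hΔn
  have hsm : ∀ {ρ : ℝ} {Z : Set (UP U)}, (∀ z ∈ Z, z ∈ X.O ∧ X.ord none z ≤ ρ) →
      ∀ {z}, z ∈ Submodule.span ℚ Z → z ∈ small hq ρ := fun h z hz =>
    Submodule.span_le.mpr (fun z hz => mem_small (hS := hS) hq hω (h z hz).1 (h z hz).2) hz
  obtain ⟨Q, hQe⟩ : ∃ Q, Q = aeval g Δ * 1 * (mon g ρ)⁻¹ := ⟨_, rfl⟩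
  have hQ0 : Q ≠ 0 := hQe ▸
    mul_ne_zero (mul_ne_zero (fun h => hΔ0 (hinj _ h)) one_ne_zero) (inv_ne_zero (hmon _))
  have hQ : Q ∈ Submodule.span ℚ {z | z ∈ X.O ∧ ∀ w, |X.ord w z| ≤ c1} :=
    hQe ▸ mem_span_of_support fun e he => by
      obtain ⟨h1, h2⟩ := X.ord_frac hg hg' hne X.O.one_mem e ρ
      refine ⟨h1, fun w => ?_⟩
      rw [h2, X.ord_one, zero_add]
      exact hΔn e he w
  have hθν : ∀ i, mon g (u + ρ) * Q * cond i x y = ∑ l, aeval g (∑ j, P i j * M j l) * Z l :=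
    fun i => by
      rw [show mon g (u + ρ) * Q * cond i x y = aeval g Δ * (mon g u * cond i x y) by
        rw [hQe, mon_add]; field_simp [hmon], hP]
      simp only [map_sum, map_mul, mul_sum, sum_mul]
      rw [sum_comm]
      exact sum_congr rfl fun j _ => by
        rw [mul_left_comm, hΔV, mul_sum]; exact sum_congr rfl fun l _ => (mul_assoc _ _ _).symm
  have h1 := h.mul (sm_mul (mem_small (hS := hS) hq hω (X.mon_mem hg (u + ρ))
    (X.ord_mon hg none _).le) (hsm (fun z hz => ⟨hz.1, (abs_le.mp (hz.2 none)).2⟩) hQ) le_rfl)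
  rw [show _ * x = _ from hθν true, show _ * y = _ from hθν false] at h1
  have h9 : ∑ j, ∑ v, X.ord v (Z j) ≤ Fintype.card J * (Fintype.card (Option S) * |c|) := by
    have := sum_le_sum (s := univ) fun (j : L) _ =>
      sum_le_sum (s := univ) fun v _ => (abs_le.mp ((hZ j).2 v)).2
    simp only [sum_const, card_univ, nsmul_eq_mul] at this
    refine this.trans (mul_le_mul_of_nonneg_right ?_ (by positivity))
    exact_mod_cast hn
  have h2 : Q * y ∈ small hq (c1 + Fintype.card J * (Fintype.card (Option S) * |c|) - K) := by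
    rw [show Q * y = ∑ l, aeval g (∑ j, P false j * M j l) * Z l * (mon g (u + ρ))⁻¹ by
      rw [← sum_mul, ← hθν]; field_simp [hmon]; rfl]
    refine Submodule.sum_mem _ fun l _ => hsm (fun z hz => hz) (mem_span_of_support fun e he => ?_)
    obtain ⟨h2, h3⟩ := X.ord_frac hg hg' hne (hZ l).1 e (u + ρ)
    have h4 : X.ord none (Z l) + X.wt g none e ≤ _ + ∑ j, ∑ v, X.ord v (Z j) :=
      alg_lead hω (om_mem hS) hθ hi hg hg0 (fun l => (hZ l).1) hE _ _ h1 he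
    exact ⟨h2, by rw [h3]; linarith⟩
  obtain ⟨W1, hW1, a1, a2⟩ := integ hS hq hc0
  obtain ⟨d1, f1, hd1, hf1⟩ := exists_int_of_span (a2 Q hQ)
  have hd1' : (d1 : ℚ) ≠ 0 := by exact_mod_cast hd1
  have h3 := Submodule.smul_mem _ (d1 : ℚ) (sm_mul a1 (inv_int (hq := hq) (f := f1)
    (hf1 ▸ smul_ne_zero hd1' (mul_ne_zero hW1 hQ0))) (add_zero _).le)
  rw [← hf1, smul_inv₀, mul_smul_comm, smul_inv_smul₀ hd1', mul_inv,
    mul_inv_cancel_left₀ hW1] at h3
  have h4 := sm_mul h3 h2 (add_sub_assoc _ _ _).ge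
  rwa [inv_mul_cancel_left₀ hQ0] at h4

theorem keyA {σ : Type} [Fintype σ] (b : σ → ℕ) (hb : ∀ i, 2 ≤ b i) (J : Type) [Fintype J]
    (c0 : ℝ) (m : ℕ) : ∃ c : ℝ,
    ∀ (U : Ultrafilter ℕ) (q : ℕ → ℝ) (hq : Tendsto q U atTop) (W : J → ℕ → ℤ),
      (∀ j, ∀ᶠ k in U, |(W j k : ℝ)| ≤ exp (c0 * q k)) → ∀ x : σ → UP U,
      (∀ i, AR.Rep U q (b i) W (x i)) → ∀ (u v : MvPolynomial σ ℤ) (θ K : ℝ), u.totalDegree ≤ m →
      v.totalDegree ≤ m → IsAlgebraic ℚ θ → Irrational θ → sm2 hq θ (-K) (evZ x u) (evZ x v) →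
      evZ x v ∈ small hq (c - K) := by
  have hb0 : ∀ i, b i ≠ 0 := fun i => by have := hb i; omega
  have hS : ∀ p ∈ (∏ i, b i).primeFactors, p.Prime := fun p => Nat.prime_of_mem_primeFactors
  have hbS : ∀ i p, p.Prime → p ∣ b i → p ∈ (∏ i, b i).primeFactors := fun i p hp h =>
    Nat.mem_primeFactors.mpr ⟨hp, h.trans (dvd_prod_of_mem _ (mem_univ i)),
      prod_ne_zero_iff.mpr fun i _ => hb0 i⟩
  classical
  obtain ⟨m1, hm1⟩ : ∃ m1, m1 = Fintype.card σ * m := ⟨_, rfl⟩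
  obtain ⟨κ, hT⟩ := alg_ultra hS (J → Fin (m1 + 1)) (Fintype.card J * m1 * |c0|)
  refine ⟨κ + m1 * |c0|, fun U q hq W hW x hx u v θ K hu hv hθ hi hK => ?_⟩
  choose g j0 h0 hx hg using fun i => unpack hS (hq := hq) (hb0 _) (hbS _) (hx i)
  set Wb : J → UP U := fun j => germ U fun k => W j k
  have hW' : ∀ j, ∀ᶠ k in U, |(W j k : ℝ)| ≤ exp (|c0| * q k) := fun j => by
    filter_upwards [hW j, hq.eventually_ge_atTop 0] with k h1 h2
    exact h1.trans (exp_le_exp.mpr (mul_le_mul_of_nonneg_right (le_abs_self _) h2))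
  have hδ : ∀ i, Wb (j0 i) ≠ 0 := fun i => germ_ne (h0 i)
  obtain ⟨Δ, hΔ⟩ : ∃ Δ, Δ = ∏ i, Wb (j0 i) ^ m := ⟨_, rfl⟩
  have hΔ0 : Δ ≠ 0 := hΔ ▸ prod_ne_zero_iff.mpr fun i _ => pow_ne_zero _ (hδ i)
  have hhom : ∀ p : MvPolynomial σ ℤ, p.totalDegree ≤ m →
      Δ * evZ x p ∈ (cls hS hq ⊤ Wb).F m1 0 := fun p h1 => by
    have := mvFil_homog (cls hS hq ⊤ Wb) (s := Set.univ) (x := x) (X := fun i => ∑ j, Wb j * g i j)
      hδ (fun i _ => hx i) (m := 1) (m0 := 0) (c := m) (r := 0) (r0 := 0)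
      (fun i => AddSubgroup.sum_mem _ fun j _ => by
        simpa using Fil.mul _ (word_mem hS _ Wb j) (hg i ⊤ (fun _ _ => trivial) j))
      (fun i => word_mem hS _ Wb _) (p := p.map (Int.castRingHom _)) fun μ hμ =>
        ⟨fun i => ((MvPolynomial.monomial_le_degreeOf i (MvPolynomial.support_map_subset _ _ hμ)).trans
          (MvPolynomial.degreeOf_le_totalDegree _ _)).trans h1, fun i hi => absurd trivial hi,
          by rw [MvPolynomial.coeff_map]; exact Fil.int _ _⟩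
    rw [MvPolynomial.eval_map] at this
    simpa [hΔ, hm1, evZ] using this
  have hΔs : Δ ∈ (smK hq).F 0 (m1 * |c0|) := by
    simpa [mul_assoc, hΔ, hm1] using (smK hq).prod univ (m := m * 0) (r := fun _ => m * |c0|)
      fun i _ => (smK hq).pow (word_small hq (hW' (j0 i))) m
  have hinv : Δ⁻¹ ∈ (smK hq).F 0 0 := by
    simpa [hΔ] using (smK hq).prod univ (m := m * 0) (r := fun _ => m * 0)
      fun i _ => (smK hq).pow (inv_small (hq := hq) (h0 i)) m
  have h1 := hT U q hq (fun μ k => ∏ j, W j k ^ (μ j : ℕ)) (fun μ => by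
      filter_upwards [eventually_all.mpr hW', hq.eventually_ge_atTop 0] with k h1 h2
      rw [Int.cast_prod, abs_prod]
      refine (prod_le_prod (fun _ _ => abs_nonneg _)
        (g := fun _ => exp (m1 * (|c0| * q k))) fun j _ => ?_).trans_eq ?_
      · rw [Int.cast_pow, abs_pow, exp_nat_mul]
        exact (pow_le_pow_left₀ (abs_nonneg _) (h1 j) _).trans
          (pow_le_pow_right₀ (one_le_exp (by positivity)) (Nat.lt_succ_iff.mp (μ j).2))
      · rw [prod_const, card_univ, ← exp_nat_mul]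
        ring_nf) θ (K - m1 * |c0|) _ _ _ hθ hi (cls_le hS (hq := hq) (hhom u hu))
    (cls_le hS (hq := hq) (hhom v hv)) (by
      rw [neg_sub, sub_eq_add_neg]
      exact hK.mul hΔs)
  have := sm_mul (hq := hq) hinv h1 (s := κ + m1 * |c0| - K) (by linarith)
  rwa [inv_mul_cancel_left₀ hΔ0] at this

theorem uniformA {σ : Type} [Fintype σ] (b : σ → ℕ) (hb : ∀ i, 2 ≤ b i) (u v : MvPolynomial σ ℤ)
    {θ : ℝ} (hθ : IsAlgebraic ℚ θ) (hi : Irrational θ) (C : ℝ) : ∃ n0 : ℕ, ∀ n ≥ n0, ∀ x : σ → ℝ,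
      (∀ i, (cx (b i) (x i) n : ℝ) ≤ C * n) →
      evZ (fun i => Int.fract (x i)) u = θ * evZ (fun i => Int.fract (x i)) v →
      |evZ (fun i => Int.fract (x i)) v| ≤ exp (-(1 / 2) * n) := by
  classical
  choose D c hw using fun i => words (b i) (hb _) C
  have hc1 : ∀ i, c i ≤ ∑ i, |c i| := fun i => (le_abs_self _).trans
    (single_le_sum (f := fun i => |c i|) (fun _ _ => abs_nonneg _) (mem_univ i))
  obtain ⟨m, hm⟩ := keyA b hb (Σ i, Option (Fin (D i))) (∑ i, |c i|) (u.totalDegree + v.totalDegree)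
  set K2 := |m| + 1 with hK2
  choose M n0 B hw using fun i => hw i K2
  by_contra hbad
  simp only [not_exists, not_forall] at hbad
  choose n hn x hx hF hno using fun k => hbad (k + ∑ i, n0 i)
  choose d V s e0 e h1 h2 h3 h4 h5 h6 using fun i k => hw i (n k) ((single_le_sum
    (fun _ _ => Nat.zero_le _) (mem_univ i)).trans (le_of_add_le_right (hn k))) (x k i) (hx k i)
  let U := Ultrafilter.of (atTop : Filter ℕ)
  have hq : Tendsto (fun k => (n k : ℝ)) U atTop := (tendsto_natCast_atTop_atTop.comp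
    (tendsto_atTop_mono (fun k => le_of_add_le_left (hn k)) tendsto_id)).mono_left
      (Ultrafilter.of_le _)
  choose s0 hs0 using fun i => exists_const U (s i)
    (Set.Finite.pi' fun _ => Set.finite_Icc (-1) 1) fun k t => abs_le.mp (h4 i k t)
  choose e1 he1 using fun i => exists_const U (e i) Set.finite_univ fun _ => trivial
  let W : (Σ i, Option (Fin (D i))) → ℕ → ℤ := fun j k => j.2.elim (d j.1 k) (V j.1 k)
  let xs : σ → ℕ → ℚ := fun i =>
    (fun k => ∑ t, (s0 i t * W ⟨i, some (e1 i t)⟩ k : ℚ) / b i ^ e0 i k t) /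
      fun k => (W ⟨i, none⟩ k : ℚ)
  let y : σ → ℕ → ℝ := fun i k => Int.fract (x k i)
  have hnear : ∀ i, (cR (xs i), y i) ∈ near hq (-K2) := fun i =>
    near_div' (by positivity) (h1 i) (fun k => by
      rw [abs_of_nonneg (Int.fract_nonneg _)]; exact (Int.fract_lt_one _).le) (by
      filter_upwards [hs0 i, he1 i] with k a1 a2
      simpa [W, ← a1, ← a2] using h6 i k)
  have hy : ∀ F k, evZ y F k = evZ (fun i => Int.fract (x k i)) F := fun F k =>
    hom_evZ (Pi.evalRingHom (fun _ : ℕ => ℝ) k) y F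
  have a1 := hm U _ hq W (by
      rintro ⟨i, _ | j⟩ <;> refine Eventually.of_forall fun k => ?_
      exacts [(h2 i k).trans (exp_le_exp.mpr (mul_le_mul_of_nonneg_right (hc1 i) (Nat.cast_nonneg _))),
        (h3 i k j).trans (exp_le_exp.mpr (mul_le_mul_of_nonneg_right (hc1 i) (Nat.cast_nonneg _)))])
    (fun i => germ U (xs i)) (fun i => ⟨Fin (M i), inferInstance, s0 i, fun t => ⟨i, some (e1 i t)⟩,
      ⟨i, none⟩, fun t k => e0 i k t, B i, Eventually.of_forall (h1 i),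
      fun t => Eventually.of_forall fun k => h5 i k t, rfl⟩) u v θ K2 (by omega) (by omega) hθ hi (by
      have a1 := sub_mem (near_evZ hnear u).2.2 (zero_add (-K2) ▸
        (smR hq).mul (smR_const θ) (near_evZ hnear v).2.2)
      rw [show evZ y u = (fun _ => θ) * evZ y v from funext fun k => by
        rw [Pi.mul_apply, hy, hy, hF], mul_sub, sub_sub_sub_cancel_right] at a1
      rwa [← hom_evZ, ← hom_evZ (germ U), sm2_iff, hom_evZ, hom_evZ])
  rw [← hom_evZ, germ_small, hom_evZ] at a1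
  obtain ⟨k, hk⟩ := ((sub_mem ((smR hq).mono (r' := -1) le_rfl (by linarith [le_abs_self m]) a1)
    ((smR hq).mono le_rfl (by linarith [abs_nonneg m]) (near_evZ hnear v).2.2)) (1 / 2)
      one_half_pos).exists
  rw [sub_sub_cancel] at hk
  refine hno k ?_
  rw [← hy]
  convert hk using 3
  norm_num

theorem mainA : ∃ ω : ℕ → ℕ, Tendsto ω atTop atTop ∧ ∀ x ∈ Subfield.closure
    {y | ∃ b, 2 ≤ b ∧ ∀ᶠ n : ℕ in atTop, cx b y n ≤ n * ω n}, Irrational x → Transcendental ℚ x := by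
  have h0 : ∀ (τ : Σ m : ℕ, (Fin m → ℕ) × MvPolynomial (Fin m) ℤ × MvPolynomial (Fin m) ℤ ×
      {y : ℝ // IsAlgebraic ℚ y}) (j : ℕ), ∃ n0 : ℕ, (∀ i, 2 ≤ τ.2.1 i) → Irrational τ.2.2.2.2 →
      ∀ n ≥ n0, ∀ x : Fin τ.1 → ℝ, (∀ i, (cx (τ.2.1 i) (x i) n : ℝ) ≤ j * n) →
      evZ (fun i => Int.fract (x i)) τ.2.2.1 =
        τ.2.2.2.2 * evZ (fun i => Int.fract (x i)) τ.2.2.2.1 →
      |evZ (fun i => Int.fract (x i)) τ.2.2.2.1| ≤ exp (-(1 / 2) * n) := fun τ j => by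
    by_cases H : (∀ i, 2 ≤ τ.2.1 i) ∧ Irrational τ.2.2.2.2
    · exact (uniformA _ H.1 _ _ τ.2.2.2.2.2 H.2 j).imp fun _ h _ _ => h
    · exact ⟨0, fun h1 h2 => absurd ⟨h1, h2⟩ H⟩
  choose n1 h1 using h0
  have : ∀ (σ : Type) [Countable σ], Countable (MvPolynomial σ ℤ) := fun σ _ =>
    (AddMonoidAlgebra.coeff_injective (M := σ →₀ ℕ) (R := ℤ)).countable
  have : Countable {y : ℝ // IsAlgebraic ℚ y} := (Algebraic.countable ℚ ℝ).to_subtype
  have : Nonempty {y : ℝ // IsAlgebraic ℚ y} := ⟨⟨0, isAlgebraic_zero⟩⟩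
  obtain ⟨ω, w1, -, -, w4⟩ := diagonal n1
  refine ⟨ω, w1, fun x hx hi ha => ?_⟩
  obtain ⟨m, z, u, v, hz, hxe⟩ := exists_frac hx
  choose b hb hz using hz
  have hv : evZ (fun j => Int.fract (z j)) v ≠ 0 := fun h => hi.ne_zero (by rw [hxe, h, div_zero])
  obtain ⟨n, a1, a2, a3⟩ := ((w4 ⟨m, b, u, v, x, ha⟩).and ((eventually_all.mpr hz).and
    ((tendsto_exp_atBot.comp ((tendsto_natCast_atTop_atTop (R := ℝ)).const_mul_atTop_of_neg
      (show -(1 / 2) < 0 by norm_num))).eventually_lt_const (abs_pos.mpr hv)))).exists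
  exact (h1 _ _ hb hi n a1 z (fun i => by rw [mul_comm]; exact_mod_cast a2 i)
    ((div_eq_iff hv).mp hxe.symm)).not_gt a3

end Pool.Agent.Lib.MP_c9a594_an.PW
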