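import Pool.Agent.Lib.MP_c9a594_an.AI.AB
import Pool.Agent.Lib.MP_c9a594_an.AI.Gelfond

/-! The criteria of Adamczewski-Bugeaud and of Gelfond, and a diagonal choice. -/

open Filter Topology Real Polynomial

namespace Pool.Agent.Lib.MP_c9a594_an.PW

open AI

theorem transcendental_of_often (b : ℕ) (hb : 2 ≤ b) (y : ℝ) (hy : Irrational y) (C : ℝ)
    (h : ∃ᶠ n : ℕ in atTop, (cx b y n : ℝ) ≤ C * n) : Transcendental ℤ y := by
  intro ha
  have ha' : IsAlgebraic ℚ y := ha.extendScalars (algebraMap ℤ ℚ).injective_int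
  have hb1 : (1 : ℝ) < b := by exact_mod_cast hb
  choose r s p hs hrs hp using exists_repeat b hb y
  have := frequently_iff_neBot.mp h
  obtain ⟨U, hU'⟩ := Ultrafilter.exists_le (atTop ⊓ 𝓟 {n : ℕ | (cx b y n : ℝ) ≤ C * n})
  have hU : (U : Filter ℕ) ≤ atTop := hU'.trans inf_le_left
  have h' : ∀ᶠ n : ℕ in U, (cx b y n : ℝ) ≤ C * n := le_principal_iff.mp (hU'.trans inf_le_right)
  have hrs' : ∀ᶠ n : ℕ in U, ((r n + s n : ℕ) : ℝ) ≤ C * n ∧ (r n : ℝ) ≤ C * n :=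
    h'.mono fun n hn => ⟨le_trans (by exact_mod_cast hrs n) hn,
      le_trans (by exact_mod_cast (Nat.le_add_right _ _).trans (hrs n)) hn⟩
  obtain ⟨z0, z, hz, hrel⟩ := exists_rel b hb ![y, -y] (by simp [Fin.forall_fin_two, ha', ha'.neg])
    U hU C (fun n => ![r n + s n, r n]) p (hrs'.mono fun n hn =>
      ⟨by simpa [Fin.forall_fin_two] using hn, by simpa [sub_eq_add_neg] using hp n⟩)
  simp only [Fin.sum_univ_two, Matrix.cons_val_zero, Matrix.cons_val_one] at hrel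
  have h1 : (z0 : ℝ) * y + z 0 ≠ 0 := fun h0 => by
    have h2 := eq_zero_of_irrational hy h0
    obtain ⟨n, hn⟩ := hrel.exists
    have h3 : z 0 = 0 := by simpa [h2] using h0
    have h4 : z 1 = 0 := by
      have hb0 : b ≠ 0 := by omega
      simpa [h2, h3, hb0] using hn
    exact hz h2 (funext fun i => by fin_cases i <;> simpa)
  obtain ⟨M, hM⟩ := exists_nat_ge ((|(z0 : ℝ)| + |z0 * y - z 1|) / |z0 * y + z 0|)
  have hsM : ∀ᶠ n : ℕ in U, ∃ t ∈ Set.Iic M, s n = t := hrel.mono fun n hn => by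
    refine ⟨s n, ?_, rfl⟩
    have e1 : (1 : ℝ) ≤ (b : ℝ) ^ r n := one_le_pow₀ hb1.le
    have e2 : (b : ℝ) ^ r n * ((b : ℝ) ^ s n * (z0 * y + z 0) - (z0 * y - z 1)) =
        z0 * (y * (b : ℝ) ^ (r n + s n) - y * (b : ℝ) ^ r n - p n) := by
      rw [pow_add] at hn ⊢
      linear_combination hn
    have e3 : |(b : ℝ) ^ s n * (z0 * y + z 0) - (z0 * y - z 1)| ≤ |(z0 : ℝ)| := by
      refine (le_mul_of_one_le_left (abs_nonneg _) e1).trans ?_
      rw [← abs_of_nonneg (zero_le_one.trans e1), ← abs_mul, e2, abs_mul]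
      exact mul_le_of_le_one_right (abs_nonneg _)
        ((hp n).trans (inv_le_one_of_one_le₀ (one_le_pow₀ hb1.le)))
    have e4 := abs_sub_abs_le_abs_sub ((b : ℝ) ^ s n * (z0 * y + z 0)) (z0 * y - z 1)
    rw [abs_mul, abs_of_pos (by positivity)] at e4
    have e5 : (b : ℝ) ^ s n ≤ M :=
      le_trans ((le_div_iff₀ (abs_pos.2 h1)).2 (by linarith)) hM
    have e6 : b ^ s n ≤ M := by exact_mod_cast e5
    exact (Nat.lt_pow_self (by omega)).le.trans e6
  obtain ⟨t, -, ht⟩ := (Ultrafilter.eventually_exists_mem_iff (Set.finite_Iic M)).1 hsM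
  have ht0 : 0 < t := by
    obtain ⟨n, hn⟩ := ht.exists
    exact hn ▸ hs n
  have hq : ((b : ℚ) ^ t - 1 : ℚ) ≠ 0 :=
    sub_ne_zero.2 (one_lt_pow₀ (by exact_mod_cast hb) ht0.ne').ne'
  set y' : ℝ := ((b : ℚ) ^ t - 1 : ℚ) * y with hy'
  have hp' : ∀ᶠ n : ℕ in U, |y' * (b : ℝ) ^ r n - p n| ≤ ((b : ℝ) ^ n)⁻¹ := ht.mono fun n hn => by
    convert hp n using 2
    rw [hy', pow_add, hn]
    push_cast
    ring
  obtain ⟨w0, w, hw, hrel'⟩ := exists_rel b hb ![y']
    (by simpa [hy'] using (isAlgebraic_algebraMap ((b : ℚ) ^ t - 1)).mul ha') U hU C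
    (fun n => ![r n]) p ((hrs'.and hp').mono fun n hn => ⟨by simpa using hn.1.2, by simpa using hn.2⟩)
  simp only [Fin.sum_univ_one, Matrix.cons_val_zero] at hrel'
  have h2 : (w0 : ℝ) * y' + w 0 = 0 := by
    have h3 : Tendsto (fun n : ℕ => |(w0 : ℝ)| * ((b : ℝ) ^ n)⁻¹) U (nhds (|(w0 : ℝ)| * 0)) :=
      ((tendsto_pow_atTop_atTop_of_one_lt hb1).inv_tendsto_atTop.const_mul _).mono_left hU
    rw [mul_zero] at h3
    refine abs_nonpos_iff.1 (ge_of_tendsto h3 ((hrel'.and hp').mono fun n hn => ?_))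
    have e1 : (1 : ℝ) ≤ (b : ℝ) ^ r n := one_le_pow₀ hb1.le
    have e2 : (b : ℝ) ^ r n * (w0 * y' + w 0) = w0 * (y' * (b : ℝ) ^ r n - p n) := by
      linear_combination hn.1
    refine (le_mul_of_one_le_left (abs_nonneg _) e1).trans ?_
    rw [← abs_of_nonneg (zero_le_one.trans e1), ← abs_mul, e2, abs_mul]
    exact mul_le_mul_of_nonneg_left hn.2 (abs_nonneg _)
  have h3 := eq_zero_of_irrational (hy.ratCast_mul hq) h2
  exact hw h3 (funext fun i => by fin_cases i; simpa [h3] using h2)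

theorem gelfond' (y : ℝ) (m : ℕ) : ∃ A : ℝ, ∀ (h : ℕ → ℝ) (n0 : ℕ), Tendsto h atTop atTop →
    (∀ n ≥ n0, 1 ≤ h n ∧ h n ≤ h (n + 1) ∧ ∃ Q : ℤ[X], Q ≠ 0 ∧ Q.natDegree ≤ m ∧
      (∀ i, |(Q.coeff i : ℝ)| ≤ exp (h n)) ∧ |aeval y Q| ≤ exp (-A * h (n + 1))) →
    IsAlgebraic ℤ y := by
  set A : ℝ := 2 ^ m * (m + 1) with hA
  set T : ℝ := (m + 1) * ((1 + |y|) ^ m * 2 ^ m) with hT
  set B : ℝ := (2 * m).factorial * (T * A) ^ (2 * m) with hB
  have hm : (0 : ℝ) ≤ m := Nat.cast_nonneg m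
  have hA1 : 1 ≤ A := one_le_mul_of_one_le_of_one_le (one_le_pow₀ one_le_two) (by linarith)
  have hB0 : 0 < B := by positivity
  set K : ℝ := 2 * m + B with hK
  have hK0 : 0 < K := by positivity
  refine ⟨K * m + 1, fun h n0 ht hn => ?_⟩
  by_contra hy
  have h1 : ∀ n : ℕ, ∃ R : ℤ[X], n0 ≤ n → Irreducible R ∧ R.natDegree ≠ 0 ∧ R.natDegree ≤ m ∧
      (∀ i, |(R.coeff i : ℝ)| ≤ A * exp (h n)) ∧ |aeval y R| < exp (-K * h (n + 1)) := by
    intro n
    by_cases hn0 : n0 ≤ n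
    swap
    · exact ⟨0, fun h => absurd h hn0⟩
    obtain ⟨a1, a2, Q, q0, q1, q2, q3⟩ := hn n hn0
    have e1 : exp (-K * h (n + 1)) ≤ 1 := exp_le_one_iff.2 (by nlinarith)
    obtain ⟨R, r1, r2, r3, r4⟩ := exists_small_factor y (exp_pos _) e1 Q q0 (q3.trans_lt
      (lt_of_lt_of_le (by rw [← exp_nat_mul, exp_lt_exp]; nlinarith)
        (pow_le_pow_of_le_one (exp_pos _).le e1 q1)))
    exact ⟨R, fun _ => ⟨r1, r3, (natDegree_le_of_dvd r2 q0).trans q1, height_of_dvd q0 r2 q1 q2,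
      r4⟩⟩
  choose R hR using h1
  have h2 : ∀ n, n0 ≤ n → |aeval y (R n)| = |aeval y (R n0)| := by
    intro n hn'
    induction n, hn' using Nat.le_induction with
    | base => rfl
    | succ n hn' ih =>
      obtain ⟨a1, a2, a3, a4, a5⟩ := hR n hn'
      obtain ⟨b1, b2, b3, b4, b5⟩ := hR (n + 1) (by omega)
      obtain ⟨-, c2, -⟩ := hn n hn'
      obtain ⟨c1, c3, -⟩ := hn (n + 1) (by omega)
      rw [← ih]
      refine abs_aeval_eq y b1 a1 b2 a2 b3 a3 (H := A * exp (h (n + 1)))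
        (ε := exp (-K * h (n + 1))) (one_le_mul_of_one_le_of_one_le hA1
          (one_le_exp (by linarith))) b4 (fun i => (a4 i).trans (by gcongr))
        (b5.le.trans (exp_le_exp.2 (by nlinarith))) a5.le ?_
      have e : ((2 * m).factorial : ℝ) * ((T * (A * exp (h (n + 1)))) ^ (2 * m) *
          exp (-K * h (n + 1))) = B * exp (-B * h (n + 1)) := by
        have e1 : exp (h (n + 1)) ^ (2 * m) * exp (-K * h (n + 1)) = exp (-B * h (n + 1)) := by
          rw [← exp_nat_mul, ← exp_add, hK]; push_cast; ring_nf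
        rw [← e1, hB]
        simp only [mul_pow]
        ring
      rw [e]
      have h3 := add_one_le_exp B
      have h4 : exp (-B * h (n + 1)) ≤ exp (-B) := exp_le_exp.2 (by nlinarith)
      have h5 : exp B * exp (-B) = 1 := by rw [← exp_add]; simp
      nlinarith [exp_pos (-B)]
  have h3 : 0 < |aeval y (R n0)| := abs_pos.2 fun h0 => hy ⟨_, (hR _ le_rfl).1.ne_zero, h0⟩
  have h4 : Tendsto (fun n : ℕ => exp (-K * h (n + 1))) atTop (nhds 0) :=
    tendsto_exp_atBot.comp ((ht.comp (tendsto_add_atTop_nat 1)).const_mul_atTop_of_neg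
      (by linarith))
  obtain ⟨n, h5, h6⟩ := ((h4.eventually_lt_const h3).and (eventually_ge_atTop n0)).exists
  exact absurd ((h2 n h6).symm.trans_lt (hR n h6).2.2.2.2) (not_lt.2 h5.le)

lemma diagonal {T : Type} [Countable T] [Nonempty T] (n0 : T → ℕ → ℕ) : ∃ ω : ℕ → ℕ,
    Tendsto ω atTop atTop ∧ Monotone ω ∧ (∀ n, ω (n + 1) ≤ ω n + 1) ∧
      ∀ τ, ∀ᶠ n in atTop, n0 τ (ω n) ≤ n := by
  classical
  obtain ⟨t, ht⟩ := exists_surjective_nat T
  let N : ℕ → ℕ := fun j => ∑ i ∈ Finset.range (j + 1), (∑ l ∈ Finset.range (i + 1), n0 (t l) i + 1)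
  have Nm : StrictMono N := strictMono_nat_of_lt_succ fun j => by
    simp only [N, Finset.sum_range_succ _ (j + 1)]; omega
  have w1 : ∀ n j, N j ≤ n → j ≤ Nat.findGreatest (fun j => N j ≤ n) n := fun n j g =>
    Nat.le_findGreatest ((Nm.id_le j).trans g) g
  have w2 : Tendsto (fun n => Nat.findGreatest (fun j => N j ≤ n) n) atTop atTop :=
    tendsto_atTop.2 fun j => (eventually_ge_atTop (N j)).mono fun n => w1 n j
  refine ⟨_, w2, fun n n' h => Nat.findGreatest_mono (fun j hj => hj.trans h) h, fun n => ?_,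
    fun τ => ?_⟩
  · rcases h : Nat.findGreatest (fun j => N j ≤ n + 1) (n + 1) with _ | i
    · omega
    · have h1 := Nat.findGreatest_of_ne_zero h (Nat.succ_ne_zero i)
      have := Nm (Nat.lt_add_one i)
      exact Nat.succ_le_succ (w1 n i (by omega))
  · obtain ⟨l, rfl⟩ := ht τ
    filter_upwards [w2.eventually_ge_atTop l, eventually_ge_atTop (N 0)] with n h1 h2
    have h3 := Nat.findGreatest_spec (P := fun j => N j ≤ n) (Nat.zero_le n) h2
    generalize Nat.findGreatest (fun j => N j ≤ n) n = j at h1 h3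
    have h4 := Finset.single_le_sum (f := fun l => n0 (t l) j) (s := Finset.range (j + 1))
      (fun _ _ => Nat.zero_le _) (Finset.mem_range.mpr (Nat.lt_succ_of_le h1))
    have h5 : _ ≤ N j := Finset.single_le_sum (s := Finset.range (j + 1))
      (f := fun i => ∑ l ∈ Finset.range (i + 1), n0 (t l) i + 1) (fun _ _ => Nat.zero_le _)
      (Finset.mem_range.mpr j.lt_succ_self)
    omega

end Pool.Agent.Lib.MP_c9a594_an.PW
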