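import Pool.Agent.Lib.MP_c9a594_an.PW.Lin
import Pool.Agent.Lib.MP_c9a594_an.AR.Subst

/-! A small polynomial in numbers with pairwise independent bases. -/

open Filter Topology Real Finset Polynomial Pool.Agent.Subspace

namespace Pool.Agent.Lib.MP_c9a594_an.PW

open AI AR

variable {S : Finset ℕ} (hS : ∀ p ∈ S, p.Prime) {U : Ultrafilter ℕ} {q : ℕ → ℝ} {ι : Type}

include hS

/-- One of the bases is exposed by a level function. -/
lemma exists_level (b : ι → ℕ) (hb : ∀ i, 2 ≤ b i) (hbS : ∀ i p, p.Prime → p ∣ b i → p ∈ S)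
    (hind : ∀ i j, i ≠ j → ∀ k l : ℕ, 0 < k → 0 < l → b i ^ k ≠ b j ^ l) (s : Finset ι)
    (hs : s.Nonempty) : ∃ i0 ∈ s, ∃ (a : Option S → ℝ) (C1 : ℝ), 0 ≤ C1 ∧
      (∀ ρ : ℝ, (fun w => -ρ * log (plAbs S hS w (b i0))) ∈ lev0 a) ∧
      ∀ j ∈ s, j ≠ i0 → ∀ ρ : ℝ, 0 ≤ ρ → (fun w => -ρ * log (plAbs S hS w (b j))) ∈ cone a C1 := by
  classical
  have hl : ∀ i, 0 < log (b i : ℝ) := fun i => log_pos (by exact_mod_cast hb i)
  have hb0 : ∀ i, b i ≠ 0 := fun i => by have := hb i; omega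
  let v : ι → Option S → ℝ := fun i w => log (plAbs S hS w (b i)) / log (b i)
  have hv : ∀ i w, log (plAbs S hS w (b i)) = log (b i) * v i w := fun i w =>
    (mul_div_cancel₀ _ (hl i).ne').symm
  have hv0 : ∀ i, v i none = 1 := fun i => by simp [v, plAbs_none, (hl i).ne']
  have hv1 : ∀ i w, |v i w| ≤ 1 := fun i w => by
    rw [abs_div, abs_of_pos (hl i), div_le_one (hl i)]
    simpa using abs_log_plAbs_le (hS := hS) w (z := b i) (by exact_mod_cast hb0 i)
  obtain ⟨i0, hi0, hmax⟩ := exists_max_image s (fun i => ∑ w, v i w ^ 2) hs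
  let η : ι → ℝ := fun j => ∑ w, v i0 w ^ 2 - ∑ w, v i0 w * v j w
  have hη : ∀ j ∈ s, j ≠ i0 → 0 < η j := fun j hj hne => by
    obtain ⟨p, hp, hpb⟩ := Nat.exists_prime_and_dvd (show b j ≠ 1 by have := hb j; omega)
    have h1 : v j (some ⟨p, hbS j p hp hpb⟩) ≠ v i0 (some ⟨p, hbS j p hp hpb⟩) := fun h => by
      have h2 := hp.factorization_pos_of_dvd (hb0 j) hpb
      have h3 : 0 < log (p : ℝ) := log_pos (by exact_mod_cast hp.one_lt)
      simp only [v, log_plAbs_nat (hb0 _)] at h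
      rw [div_eq_div_iff (hl j).ne' (hl i0).ne'] at h
      have h4 : ((b i0).factorization p : ℝ) * log (b j) = (b j).factorization p * log (b i0) :=
        mul_left_cancel₀ h3.ne' (by linarith)
      refine hind j i0 hne ((b i0).factorization p) ((b j).factorization p) ?_ h2 ?_
      · refine Nat.pos_of_ne_zero fun h5 => ?_
        rw [h5, Nat.cast_zero, zero_mul] at h4
        exact (mul_pos (Nat.cast_pos.mpr h2) (hl i0)).ne h4
      · rw [← log_pow, ← log_pow] at h4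
        exact_mod_cast log_injOn_pos
          (Set.mem_Ioi.mpr (pow_pos (Nat.cast_pos.mpr (Nat.pos_of_ne_zero (hb0 j))) _))
          (Set.mem_Ioi.mpr (pow_pos (Nat.cast_pos.mpr (Nat.pos_of_ne_zero (hb0 i0))) _)) h4
    have h2 : 0 < ∑ w, (v j w - v i0 w) ^ 2 := sum_pos' (fun _ _ => sq_nonneg _)
      ⟨_, mem_univ _, sq_pos_of_ne_zero (sub_ne_zero.mpr h1)⟩
    have h3 : ∑ w, (v j w - v i0 w) ^ 2 =
        ∑ w, v j w ^ 2 + ∑ w, v i0 w ^ 2 - 2 * ∑ w, v i0 w * v j w := by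
      rw [mul_sum, ← sum_add_distrib, ← sum_sub_distrib]
      exact sum_congr rfl fun _ _ => by ring
    have h4 := hmax j hj
    simp only [η]
    linarith
  obtain ⟨σ, hσ⟩ : ∃ σ, σ = (1 + ∑ j ∈ s, |η j|)⁻¹ := ⟨_, rfl⟩
  have hσ0 : 0 < σ := by rw [hσ]; positivity
  have hlev : ∀ j (ρ : ℝ), ∑ w, σ * (v i0 w - if w = none then ∑ w, v i0 w ^ 2 else 0) *
      (-ρ * log (plAbs S hS w (b j))) = ρ * log (b j) * (σ * η j) := fun j ρ => by
    have : ∀ w, σ * (v i0 w - if w = none then ∑ w, v i0 w ^ 2 else 0) *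
        (-ρ * log (plAbs S hS w (b j))) = ρ * log (b j) * (σ * ((if w = none then
          (∑ w, v i0 w ^ 2) * v j w else 0) - v i0 w * v j w)) := fun w => by
      rw [hv]; split_ifs <;> ring
    simp only [this, ← mul_sum, sum_sub_distrib, sum_ite_eq', mem_univ, if_true, hv0, mul_one, η]
  refine ⟨i0, hi0, fun w => σ * (v i0 w - if w = none then ∑ w, v i0 w ^ 2 else 0),
    ∑ j ∈ s, |(σ * η j)⁻¹|, by positivity, fun ρ => (hlev i0 ρ).trans (by simp [η, sq]),
    fun j hj hne ρ hρ => ⟨fun w => ?_, ?_⟩⟩ <;> rw [hlev]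
  · have h1 : (σ * η j)⁻¹ ≤ ∑ j ∈ s, |(σ * η j)⁻¹| := (le_abs_self _).trans
      (single_le_sum (f := fun j => |(σ * η j)⁻¹|) (fun _ _ => abs_nonneg _) hj)
    have h2 := mul_pos hσ0 (hη j hj hne)
    have h3 := mul_nonneg hρ (hl j).le
    refine le_trans ?_ (mul_le_mul_of_nonneg_right h1 (by positivity))
    beta_reduce
    rw [mul_left_comm, inv_mul_cancel₀ h2.ne', hv, neg_mul, abs_neg, ← mul_assoc, abs_mul,
      abs_of_nonneg h3]
    exact mul_le_mul_of_nonneg_left (hv1 j w) h3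
  · have h1 : σ * η j ≤ 1 := by
      rw [hσ, inv_mul_le_one₀ (by positivity)]
      linarith [le_abs_self (η j),
        single_le_sum (f := fun j => |η j|) (fun _ _ => abs_nonneg _) hj]
    have h3 := mul_nonneg hρ (hl j).le
    simp only [hv j none, hv0]
    nlinarith

variable {J : Type} [Fintype J] {hq : Tendsto q U atTop}

lemma word_mem (Cn : AddSubmonoid (Option S → ℝ)) (W : J → UP U) (j : J) :
    W j ∈ (cls hS hq Cn W).F 1 0 := by
  classical
  refine Submodule.subset_span ⟨1, ⟨⟨0, zero_mem _, gmr_zero.symm⟩, Set.mem_of_eq_of_mem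
    (funext fun w => (ctxU hS hq (om_ne hS) (om_mem hS)).ord_one w) Cn.zero_mem⟩, Pi.single j 1,
    fun i => ?_, ?_⟩
  · rw [Pi.single_apply]; split_ifs <;> omega
  · rw [prod_eq_single j (fun i _ hi => by simp [hi]) (by simp)]; simp

lemma unpack {a : ℕ} (ha : a ≠ 0) (haS : ∀ p, p.Prime → p ∣ a → p ∈ S) {W : J → ℕ → ℤ} {x : UP U}
    (h : Rep U q a W x) : ∃ (g : J → UP U) (j0 : J), (∀ᶠ k in U, W j0 k ≠ 0) ∧
      x = (∑ j, (germ U fun k => W j k) * g j) / (germ U fun k => W j0 k) ∧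
      ∀ Cn : AddSubmonoid (Option S → ℝ), (∀ ρ : ℝ, 0 ≤ ρ →
        (fun w => -ρ * log (plAbs S hS w a)) ∈ Cn) →
        ∀ j, g j ∈ (cls hS hq Cn fun j => germ U fun k => W j k).F 0 0 := by
  classical
  obtain ⟨T, _, s, e, j0, ex, B, h0, hB, rfl⟩ := h
  refine ⟨fun j => ∑ t, if e t = j then (s t : ℚ) • germ U fun k => ((a : ℚ) ^ ex t k)⁻¹ else 0,
    j0, h0, ?_, fun Cn hC j => AddSubgroup.sum_mem _ fun t _ => ?_⟩
  · simp only [mul_sum]
    rw [sum_comm]
    simp only [mul_ite, mul_zero, sum_ite_eq, mem_univ, if_true, germ_smul, ← map_mul, germ_sum]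
    refine congrArg (fun f => germ U f / germ U fun k => W j0 k)
      (funext fun k => sum_congr rfl fun t _ => ?_)
    rw [Pi.mul_apply]
    ring
  · split_ifs
    swap
    · exact zero_mem _
    obtain ⟨ρ, -, h1⟩ := exists_lim (U := U) (x := fun k => (ex t k : ℝ) / q k) (A := B) (by
      filter_upwards [hB t, hq.eventually_gt_atTop 0] with k h1 h2
      rwa [abs_of_nonneg (by positivity), div_le_iff₀ h2])
    have h2 : ∏ p : S, ((p : ℕ) : ℚ) ^ a.factorization p = a := by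
      rw [prod_coe_sort S fun p => (p : ℚ) ^ a.factorization p]
      conv_rhs => rw [← Nat.prod_factorization_pow_eq_self ha]
      rw [Finsupp.prod_of_support_subset _ (s := S) (fun p hp => haS p
        (Nat.prime_of_mem_primeFactors hp) (Nat.dvd_of_mem_primeFactors hp)) _ (by simp)]
      push_cast
      rfl
    refine Submodule.smul_mem _ _ (Submodule.subset_span ⟨germ U fun k => ((a : ℚ) ^ ex t k)⁻¹,
      ⟨⟨fun k p =>
      -(ex t k * a.factorization p : ℕ), ⟨fun p => -(ρ * a.factorization p), fun p => ?_⟩, ?_⟩,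
      Set.mem_of_eq_of_mem (funext fun w => ordU_eq ?_) (hC ρ (ge_of_tendsto h1
        ((hq.eventually_gt_atTop 0).mono fun k hk => by positivity)))⟩, 0, by simp, by simp⟩)
    · refine (h1.mul_const _).neg.congr fun k => ?_
      push_cast
      ring
    · refine congrArg _ (funext fun k => ?_)
      simp only [zpow_neg, zpow_natCast, prod_inv_distrib, pow_mul', prod_pow, h2]
    · refine (h1.neg.mul_const _).congr fun k => ?_
      rw [rate, map_inv₀, map_pow, log_inv, log_pow]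
      ring

omit hS in
theorem key [Fintype ι] [DecidableEq ι] (b : ι → ℕ) (hb : ∀ i, 2 ≤ b i)
    (hind : ∀ i j, i ≠ j → ∀ k l : ℕ, 0 < k → 0 < l → b i ^ k ≠ b j ^ l) (s : Finset ι)
    (hs : s.Nonempty) : ∃ i0 ∈ s, ∀ (J : Type) [Fintype J] (c0 : ℝ) (e m : ℕ), ∃ c : ℝ,
    ∀ (U : Ultrafilter ℕ) (q : ℕ → ℝ) (hq : Tendsto q U atTop) (W : J → ℕ → ℤ),
      (∀ j, ∀ᶠ k in U, |(W j k : ℝ)| ≤ exp (c0 * q k)) → ∀ x : ι → UP U,
      (∀ i, Rep U q (b i) W (x i)) → ∀ (P : Fin (e + 1) → MvPolynomial ι ℤ) (K : ℝ),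
      (∀ β, ∀ μ ∈ (P β).support, (∀ i, μ i ≤ m) ∧ ∀ i ∉ s.erase i0, μ i = 0) →
      ∑ β, evZ x (P β) * x i0 ^ (β : ℕ) ∈ small hq (-K) →
      (∀ β, evZ x (P β) ∈ small hq (-1)) ∨ ∃ r : Fin (e + 1) → UP U, r ≠ 0 ∧
        (∀ β, r β ∈ (zs hq).F 0 c) ∧ ∑ β, r β * x i0 ^ (β : ℕ) ∈ small hq (c - K) := by
  have hb0 : ∀ i, b i ≠ 0 := fun i => by have := hb i; omega
  have hS : ∀ p ∈ (∏ i, b i).primeFactors, p.Prime := fun p => Nat.prime_of_mem_primeFactors
  have hbS : ∀ i p, p.Prime → p ∣ b i → p ∈ (∏ i, b i).primeFactors := fun i p hp h =>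
    Nat.mem_primeFactors.mpr ⟨hp, h.trans (dvd_prod_of_mem _ (mem_univ i)),
      prod_ne_zero_iff.mpr fun i _ => hb0 i⟩
  obtain ⟨i0, hi0, a, C1, hC1, ha0, ha⟩ := exists_level hS b hb hbS hind s hs
  refine ⟨i0, hi0, fun J _ c0 e m => ?_⟩
  classical
  obtain ⟨m', hm'⟩ : ∃ m', m' = Fintype.card ι * m + e := ⟨_, rfl⟩
  obtain ⟨κ, hκ, hT⟩ := trunc_ultra hS (J → Fin (m' + 1)) (Fintype.card J * m' * |c0|) a hC1
  obtain ⟨h, hlin⟩ := lin (Fin e → Option J) (Fin (e + 1)) hκ (c0 := e * |c0|) (by positivity)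
  refine ⟨h + m' * |c0|, fun U q hq W hW x hx P K hP hK => ?_⟩
  choose g j0 h0 hx hg using fun i => unpack hS (hq := hq) (hb0 i) (hbS i) (hx i)
  set Wb : J → UP U := fun j => germ U fun k => W j k
  have hW' : ∀ j, ∀ᶠ k in U, |(W j k : ℝ)| ≤ exp (|c0| * q k) := fun j => by
    filter_upwards [hW j, hq.eventually_ge_atTop 0] with k h1 h2
    exact h1.trans (exp_le_exp.mpr (mul_le_mul_of_nonneg_right (le_abs_self _) h2))
  have hWz : ∀ j, Wb j ∈ (zs hq).F 0 |c0| := fun j => ⟨⟨_, rfl⟩, word_small hq (hW' j)⟩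
  have hδ : ∀ i, Wb (j0 i) ≠ 0 := fun i => germ_ne (h0 i)
  let G : (Fin e → Option J) → UP U := fun ν => ∏ k, (ν k).elim 1 (g i0)
  let L : Fin (e + 1) → (Fin e → Option J) → UP U := fun β ν =>
    ∏ k : Fin e, if (k : ℕ) < β then (ν k).elim 0 Wb else (ν k).elim (Wb (j0 i0)) 0
  have hL : ∀ (Φ : Fil (UP U)) n r, (∀ j, Wb j ∈ Φ.F n r) →
      ∀ β ν, L β ν ∈ Φ.F (e * n) (e * r) := fun Φ n r h β ν => by
    simpa using Φ.prod univ (m := n) (r := fun _ => r) (f := fun k : Fin e =>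
      if (k : ℕ) < β then (ν k).elim 0 Wb else (ν k).elim (Wb (j0 i0)) 0) fun k _ => by
        split_ifs <;> cases ν k
        exacts [zero_mem _, h _, h _, zero_mem _]
  have hGL : ∀ β, ∑ ν, G ν * L β ν = Wb (j0 i0) ^ e * x i0 ^ (β : ℕ) := fun β => by
    have h1 : ∀ k : Fin e, ∑ o : Option J, o.elim 1 (g i0) * (if (k : ℕ) < β then o.elim 0 Wb
        else o.elim (Wb (j0 i0)) 0) = Wb (j0 i0) * if (k : ℕ) < β then x i0 else 1 := fun k => by
      split_ifs
      · rw [hx i0, mul_div_cancel₀ _ (hδ i0)]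
        simp [mul_comm, Wb]
      · simp
    simp only [G, L, ← prod_mul_distrib]
    rw [← Fintype.prod_sum fun (k : Fin e) (o : Option J) => o.elim 1 (g i0) *
      (if (k : ℕ) < β then o.elim 0 Wb else o.elim (Wb (j0 i0)) 0)]
    simp only [h1, prod_mul_distrib, prod_const, card_univ, Fintype.card_fin, prod_ite, one_pow,
      mul_one, Fin.card_filter_val_lt, min_eq_right (Nat.lt_succ_iff.mp β.2)]
  let φ : Fin (e + 1) → UP U := fun β => (∏ i, Wb (j0 i) ^ m) * evZ x (P β)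
  have hφ : ∀ β, φ β ∈ (cls hS hq (cone a C1) Wb).F (Fintype.card ι * m) 0 := fun β => by
    have := mvFil_homog (cls hS hq (cone a C1) Wb) (s := (s.erase i0 : Finset ι)) (x := x)
      (X := fun i => if i ∈ s.erase i0 then ∑ j, Wb j * g i j else 0) hδ
      (fun i hi => by rw [if_pos (mem_coe.mp hi)]; exact hx i) (m := 1) (m0 := 0) (c := m) (r := 0)
      (r0 := 0) (fun i => by
        split_ifs with hi
        · exact AddSubgroup.sum_mem _ fun j _ => by
            simpa using Fil.mul _ (word_mem hS _ Wb j)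
              (hg i _ (ha i (mem_erase.mp hi).2 (mem_erase.mp hi).1) j)
        · exact zero_mem _) (fun i => word_mem hS _ Wb _)
      (p := (P β).map (Int.castRingHom _)) fun μ hμ =>
        have h1 := hP β μ (MvPolynomial.support_map_subset _ _ hμ)
        ⟨h1.1, h1.2, by rw [MvPolynomial.coeff_map]; exact Fil.int _ _⟩
    rw [MvPolynomial.eval_map] at this
    simpa [φ, evZ] using this
  have hΔ : ∀ n : ℕ, ∏ i, Wb (j0 i) ^ n ∈ small hq (Fintype.card ι * n * |c0|) := fun n => by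
    simpa [mul_assoc, mem_smK] using (smK hq).prod univ (m := n * 0) (r := fun _ => n * |c0|)
      fun i _ => (smK hq).pow (hWz (j0 i)).2 n
  have hinv : ∀ i n, (Wb (j0 i) ^ n)⁻¹ ∈ (smK hq).F 0 0 := fun i n => by
    simpa using (smK hq).pow (inv_small (hq := hq) (h0 i)) n
  rcases hlin U q hq L G φ (K - m' * |c0|) (by simpa using hL (zs hq) 0 _ hWz)
    (hT U q hq (fun μ k => ∏ j, W j k ^ (μ j : ℕ)) (fun μ => by
      filter_upwards [eventually_all.mpr hW', hq.eventually_ge_atTop 0] with k h1 h2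
      rw [Int.cast_prod, abs_prod]
      refine (prod_le_prod (fun _ _ => abs_nonneg _)
        (g := fun _ => exp (m' * (|c0| * q k))) fun j _ => ?_).trans_eq ?_
      · rw [Int.cast_pow, abs_pow, exp_nat_mul]
        exact (pow_le_pow_left₀ (abs_nonneg _) (h1 j) _).trans
          (pow_le_pow_right₀ (one_le_exp (by positivity)) (Nat.lt_succ_iff.mp (μ j).2))
      · rw [prod_const, card_univ, ← exp_nat_mul]
        ring_nf) _ G (fun ν => ∑ β, φ β * L β ν) _
      (fun ν => cls_le0 hS (hq := hq) (W := Wb) (r := 0) (by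
        simpa using (cls hS hq (lev0 a) Wb).prod univ (m := 0) (r := fun _ => 0)
          (f := fun k => (ν k).elim 1 (g i0)) fun k _ => by
            cases ν k
            exacts [Fil.one _, hg i0 _ (fun ρ _ => ha0 ρ) _]) _)
      (fun ν => cls_le hS (hq := hq) (r := 0) (AddSubgroup.sum_mem _ fun β _ => by
        simpa [hm'] using Fil.mul _ (hφ β) (hL _ 1 0 (word_mem hS _ Wb) β ν))) (by
      have e1 : ∑ ν, G ν * ∑ β, φ β * L β ν = (∏ i, Wb (j0 i) ^ m) * (Wb (j0 i0) ^ e *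
          ∑ β, evZ x (P β) * x i0 ^ (β : ℕ)) := by
        simp only [mul_sum]
        rw [sum_comm]
        refine sum_congr rfl fun β _ => ?_
        simp only [mul_left_comm (G _), ← mul_sum, hGL, φ]
        ring
      rw [e1]
      refine sm_mul (hΔ m) (sm_mul (mem_smK.mp (by
        simpa using (smK hq).pow (m := 0) (hWz (j0 i0)).2 e)) hK le_rfl) (le_of_eq ?_)
      rw [hm']
      push_cast
      ring)) with h1 | ⟨r, r0, r1, r2⟩
  · refine Or.inl fun β => ?_
    have := sm_mul (hq := hq) ((smK hq).prod univ (r := fun _ => 0) fun i _ => hinv i m) (h1 β)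
      (s := -1) (by simp)
    rwa [prod_inv_distrib, inv_mul_cancel_left₀ (prod_ne_zero_iff.mpr fun i _ =>
      pow_ne_zero _ (hδ i))] at this
  · refine Or.inr ⟨r, r0, fun l => Fil.mono _ le_rfl (le_add_of_nonneg_right (by positivity))
      (r1 l), ?_⟩
    simp only [hGL, mul_left_comm (r _), ← mul_sum] at r2
    have := sm_mul (hinv i0 e) r2 (s := h + m' * |c0| - K) (by linarith)
    rwa [inv_mul_cancel_left₀ (pow_ne_zero _ (hδ i0))] at this

end Pool.Agent.Lib.MP_c9a594_an.PW
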