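import Pool.Agent.Lib.MP_c9a594_an.PW.Key

/-! A small polynomial in rational functions of numbers with pairwise independent bases. -/

open Filter Topology Real Finset Polynomial Pool.Agent.Subspace

namespace Pool.Agent.Lib.MP_c9a594_an.PW

open AI AR

variable {ι : Type}

lemma cls_split {S : Finset ℕ} (hS : ∀ p ∈ S, p.Prime) {U : Ultrafilter ℕ} {q : ℕ → ℝ} {J : Type}
    [Fintype J] [DecidableEq J] {hq : Tendsto q U atTop} {Cn : AddSubmonoid (Option S → ℝ)}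
    {W : J → UP U} {m : ℕ} {x : UP U} (hx : x ∈ (cls hS hq Cn W).F m 0) :
    ∃ g : (J → Fin (m + 1)) → UP U, x = ∑ μ, g μ * ∏ j, W j ^ (μ j : ℕ) ∧
      ∀ μ, g μ ∈ (cls hS hq Cn W).F 0 0 := by
  induction hx using Submodule.span_induction with
  | mem x h =>
    obtain ⟨y, h1, μ, h2, rfl⟩ := h
    refine ⟨Pi.single (fun j => ⟨μ j, Nat.lt_succ_of_le (h2 j)⟩) y, by simp [Pi.single_apply],
      fun ν => ?_⟩
    rw [Pi.single_apply]
    split_ifs
    exacts [Submodule.subset_span ⟨y, h1, 0, by simp, by simp⟩, zero_mem _]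
  | zero => exact ⟨0, by simp, fun _ => zero_mem _⟩
  | add x y _ _ h h' =>
    obtain ⟨g, rfl, h⟩ := h
    obtain ⟨g', rfl, h'⟩ := h'
    exact ⟨g + g', by simp [add_mul, sum_add_distrib], fun μ => add_mem (h μ) (h' μ)⟩
  | smul a x _ h =>
    obtain ⟨g, rfl, h⟩ := h
    exact ⟨a • g, by simp [Finset.smul_sum], fun μ => Submodule.smul_mem _ a (h μ)⟩

lemma mon_mem {S : Finset ℕ} (hS : ∀ p ∈ S, p.Prime) {U : Ultrafilter ℕ} {q : ℕ → ℝ} {J : Type}
    [Fintype J] {hq : Tendsto q U atTop} (Cn : AddSubmonoid (Option S → ℝ)) (W : J → UP U) {m : ℕ}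
    {μ : J → ℕ} (h : ∀ j, μ j ≤ m) : ∏ j, W j ^ μ j ∈ (cls hS hq Cn W).F m 0 :=
  Submodule.subset_span ⟨1, ⟨⟨0, zero_mem _, gmr_zero.symm⟩, Set.mem_of_eq_of_mem
    (funext fun w => (ctxU hS hq (om_ne hS) (om_mem hS)).ord_one w) Cn.zero_mem⟩, μ, h,
    (one_mul _).symm⟩

theorem keyF [Fintype ι] [DecidableEq ι] (b : ι → ℕ) (hb : ∀ i, 2 ≤ b i)
    (hind : ∀ i j, i ≠ j → ∀ k l : ℕ, 0 < k → 0 < l → b i ^ k ≠ b j ^ l) (s : Finset ι)
    (hs : s.Nonempty) : ∃ i0 ∈ s, ∀ (σ : Type) [Fintype σ] (pr : σ → ι) (J : Type) [Fintype J]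
    (c0 : ℝ) (e m : ℕ), ∃ c : ℝ,
    ∀ (U : Ultrafilter ℕ) (q : ℕ → ℝ) (hq : Tendsto q U atTop) (W : J → ℕ → ℤ),
      (∀ j, ∀ᶠ k in U, |(W j k : ℝ)| ≤ exp (c0 * q k)) → ∀ x : σ → UP U,
      (∀ i, Rep U q (b (pr i)) W (x i)) → ∀ (P : Fin (e + 1) → MvPolynomial σ ℤ)
      (u v : MvPolynomial σ ℤ) (K : ℝ),
      (∀ β, (P β).totalDegree ≤ m ∧ ∀ i ∈ (P β).vars, pr i ∈ s.erase i0) →
      (u.totalDegree ≤ m ∧ ∀ i ∈ u.vars, pr i = i0) → (v.totalDegree ≤ m ∧ ∀ i ∈ v.vars, pr i = i0) →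
      ∑ β, evZ x (P β) * (evZ x u ^ (β : ℕ) * evZ x v ^ (e - β)) ∈ small hq (-K) →
      (∀ β, evZ x (P β) ∈ small hq (-1)) ∨ ∃ r : Fin (e + 1) → UP U, r ≠ 0 ∧
        (∀ β, r β ∈ (zs hq).F 0 c) ∧
        ∑ β, r β * (evZ x u ^ (β : ℕ) * evZ x v ^ (e - β)) ∈ small hq (c - K) := by
  have hb0 : ∀ i, b i ≠ 0 := fun i => by have := hb i; omega
  have hS : ∀ p ∈ (∏ i, b i).primeFactors, p.Prime := fun p => Nat.prime_of_mem_primeFactors
  have hbS : ∀ i p, p.Prime → p ∣ b i → p ∈ (∏ i, b i).primeFactors := fun i p hp h =>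
    Nat.mem_primeFactors.mpr ⟨hp, h.trans (dvd_prod_of_mem _ (mem_univ i)),
      prod_ne_zero_iff.mpr fun i _ => hb0 i⟩
  obtain ⟨i0, hi0, a, C1, hC1, ha0, ha⟩ := exists_level hS b hb hbS hind s hs
  refine ⟨i0, hi0, fun σ _ pr J _ c0 e m => ?_⟩
  classical
  obtain ⟨m1, hm1⟩ : ∃ m1, m1 = Fintype.card σ * m := ⟨_, rfl⟩
  obtain ⟨m', hm'⟩ : ∃ m', m' = m1 + e * m1 := ⟨_, rfl⟩
  obtain ⟨κ, hκ, hT⟩ := trunc_ultra hS (J → Fin (m' + 1)) (Fintype.card J * m' * |c0|) a hC1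
  obtain ⟨h, hlin⟩ := lin (Fin e → (J → Fin (m1 + 1)) ⊕ (J → Fin (m1 + 1))) (Fin (e + 1)) hκ
    (c0 := e * (Fintype.card J * (m1 * |c0|))) (by positivity)
  refine ⟨h + m' * |c0|, fun U q hq W hW x hx P u v K hP hu hv hK => ?_⟩
  choose g j0 h0 hx hg using fun i => unpack hS (hq := hq) (hb0 _) (hbS _) (hx i)
  set Wb : J → UP U := fun j => germ U fun k => W j k
  have hW' : ∀ j, ∀ᶠ k in U, |(W j k : ℝ)| ≤ exp (|c0| * q k) := fun j => by
    filter_upwards [hW j, hq.eventually_ge_atTop 0] with k h1 h2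
    exact h1.trans (exp_le_exp.mpr (mul_le_mul_of_nonneg_right (le_abs_self _) h2))
  have hWz : ∀ j, Wb j ∈ (zs hq).F 0 |c0| := fun j => ⟨⟨_, rfl⟩, word_small hq (hW' j)⟩
  have hδ : ∀ i, Wb (j0 i) ≠ 0 := fun i => germ_ne (h0 i)
  obtain ⟨Δ, hΔ⟩ : ∃ Δ, Δ = ∏ i, Wb (j0 i) ^ m := ⟨_, rfl⟩
  have hΔ0 : Δ ≠ 0 := hΔ ▸ prod_ne_zero_iff.mpr fun i _ => pow_ne_zero _ (hδ i)
  have hhom : ∀ (Cn : AddSubmonoid _) (p : MvPolynomial σ ℤ), p.totalDegree ≤ m →
      (∀ i ∈ p.vars, ∀ ρ : ℝ, 0 ≤ ρ → (fun w => -ρ * log (plAbs _ hS w (b (pr i)))) ∈ Cn) →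
      Δ * evZ x p ∈ (cls hS hq Cn Wb).F m1 0 := fun Cn p h1 h2 => by
    have := mvFil_homog (cls hS hq Cn Wb) (s := (p.vars : Finset σ)) (x := x)
      (X := fun i => if i ∈ p.vars then ∑ j, Wb j * g i j else 0) hδ
      (fun i hi => by rw [if_pos (mem_coe.mp hi)]; exact hx i) (m := 1) (m0 := 0) (c := m) (r := 0)
      (r0 := 0) (fun i => by
        split_ifs with hi
        · exact AddSubgroup.sum_mem _ fun j _ => by
            simpa using Fil.mul _ (word_mem hS _ Wb j) (hg i _ (h2 i hi) j)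
        · exact zero_mem _) (fun i => word_mem hS _ Wb _)
      (p := p.map (Int.castRingHom _)) fun μ hμ =>
        have h3 := MvPolynomial.support_map_subset _ _ hμ
        ⟨fun i => ((MvPolynomial.monomial_le_degreeOf i h3).trans
          (MvPolynomial.degreeOf_le_totalDegree _ _)).trans h1,
          fun i hi => MvPolynomial.mem_support_notMem_vars_zero h3 hi,
          by rw [MvPolynomial.coeff_map]; exact Fil.int _ _⟩
    rw [MvPolynomial.eval_map] at this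
    simpa [hΔ, hm1, evZ] using this
  obtain ⟨gu, hu1, hu2⟩ := cls_split hS (hhom (lev0 a) u hu.1 fun i hi ρ _ => hu.2 i hi ▸ ha0 ρ)
  obtain ⟨gv, hv1, hv2⟩ := cls_split hS (hhom (lev0 a) v hv.1 fun i hi ρ _ => hv.2 i hi ▸ ha0 ρ)
  let Wm : (J → Fin (m1 + 1)) → UP U := fun μ => ∏ j, Wb j ^ (μ j : ℕ)
  let G : (Fin e → (J → Fin (m1 + 1)) ⊕ (J → Fin (m1 + 1))) → UP U := fun ν =>
    ∏ k, (ν k).elim gu gv
  let L : Fin (e + 1) → (Fin e → (J → Fin (m1 + 1)) ⊕ (J → Fin (m1 + 1))) → UP U := fun β ν =>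
    ∏ k : Fin e, if (k : ℕ) < β then (ν k).elim Wm 0 else (ν k).elim 0 Wm
  have hL : ∀ (Φ : Fil (UP U)) n r, (∀ j, Wm j ∈ Φ.F n r) →
      ∀ β ν, L β ν ∈ Φ.F (e * n) (e * r) := fun Φ n r h β ν => by
    simpa using Φ.prod univ (m := n) (r := fun _ => r) (f := fun k : Fin e =>
      if (k : ℕ) < β then (ν k).elim Wm 0 else (ν k).elim 0 Wm) fun k _ => by
        split_ifs <;> cases ν k
        exacts [h _, zero_mem _, zero_mem _, h _]
  have hGL : ∀ β, ∑ ν, G ν * L β ν = Δ ^ e * (evZ x u ^ (β : ℕ) * evZ x v ^ (e - β)) := fun β => by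
    have h1 : ∀ k : Fin e, ∑ o : (J → Fin (m1 + 1)) ⊕ (J → Fin (m1 + 1)), o.elim gu gv *
        (if (k : ℕ) < β then o.elim Wm 0 else o.elim 0 Wm) =
        Δ * if (k : ℕ) < β then evZ x u else evZ x v := fun k => by
      split_ifs <;> simp [hu1, hv1, Wm]
    have h2 := Finset.card_filter_add_card_filter_not (s := (univ : Finset (Fin e)))
      fun k => (k : ℕ) < β
    simp only [G, L, ← prod_mul_distrib]
    rw [← Fintype.prod_sum fun (k : Fin e) (o : (J → Fin (m1 + 1)) ⊕ (J → Fin (m1 + 1))) =>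
      o.elim gu gv * (if (k : ℕ) < β then o.elim Wm 0 else o.elim 0 Wm)]
    simp only [h1, prod_mul_distrib, prod_const, card_univ, Fintype.card_fin, prod_ite,
      Fin.card_filter_val_lt, min_eq_right (Nat.lt_succ_iff.mp β.2)] at h2 ⊢
    rw [Nat.eq_sub_of_add_eq' h2]
  have hΔs : Δ ∈ (smK hq).F 0 (m1 * |c0|) := by
    simpa [mul_assoc, hΔ, hm1] using (smK hq).prod univ (m := m * 0) (r := fun _ => m * |c0|)
      fun i _ => (smK hq).pow (hWz (j0 i)).2 m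
  have hinv : Δ⁻¹ ∈ (smK hq).F 0 0 := by
    simpa [hΔ] using (smK hq).prod univ (m := m * 0) (r := fun _ => m * 0)
      fun i _ => (smK hq).pow (inv_small (hq := hq) (h0 i)) m
  rcases hlin U q hq L G (fun β => Δ * evZ x (P β)) (K - m' * |c0|) (by
      simpa using hL (zs hq) 0 _ fun μ => by
        simpa using (zs hq).prod univ (m := 0) (r := fun _ => m1 * |c0|)
          (f := fun j => Wb j ^ (μ j : ℕ)) fun j _ => Fil.mono _ (by simp)
            (mul_le_mul_of_nonneg_right (by exact_mod_cast Nat.lt_succ_iff.mp (μ j).2)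
              (abs_nonneg _)) ((zs hq).pow (hWz j) _))
    (hT U q hq (fun μ k => ∏ j, W j k ^ (μ j : ℕ)) (fun μ => by
      filter_upwards [eventually_all.mpr hW', hq.eventually_ge_atTop 0] with k h1 h2
      rw [Int.cast_prod, abs_prod]
      refine (prod_le_prod (fun _ _ => abs_nonneg _)
        (g := fun _ => exp (m' * (|c0| * q k))) fun j _ => ?_).trans_eq ?_
      · rw [Int.cast_pow, abs_pow, exp_nat_mul]
        exact (pow_le_pow_left₀ (abs_nonneg _) (h1 j) _).trans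
          (pow_le_pow_right₀ (one_le_exp (by positivity)) (Nat.lt_succ_iff.mp (μ j).2))
      · rw [prod_const, card_univ, ← exp_nat_mul]
        ring_nf) _ G (fun ν => ∑ β, Δ * evZ x (P β) * L β ν) _
      (fun ν => cls_le0 hS (hq := hq) (W := Wb) (r := 0) (by
        simpa using (cls hS hq (lev0 a) Wb).prod univ (m := 0) (r := fun _ => 0)
          (f := fun k => (ν k).elim gu gv) fun k _ => by
            cases ν k
            exacts [hu2 _, hv2 _]) _)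
      (fun ν => cls_le hS (hq := hq) (r := 0) (AddSubgroup.sum_mem _ fun β _ => by
        simpa [hm'] using Fil.mul _ (hhom (cone a C1) _ (hP β).1 fun i hi =>
          ha _ (mem_erase.mp ((hP β).2 i hi)).2 (mem_erase.mp ((hP β).2 i hi)).1)
          (hL _ m1 0 (fun μ => mon_mem hS _ Wb fun j => Nat.lt_succ_iff.mp (μ j).2) β ν))) (by
      have e1 : ∑ ν, G ν * ∑ β, Δ * evZ x (P β) * L β ν = Δ * (Δ ^ e *
          ∑ β, evZ x (P β) * (evZ x u ^ (β : ℕ) * evZ x v ^ (e - β))) := by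
        simp only [mul_sum]
        rw [sum_comm]
        refine sum_congr rfl fun β _ => ?_
        simp only [mul_left_comm (G _), ← mul_sum, hGL]
        ring
      rw [e1]
      refine sm_mul hΔs (sm_mul (mem_smK.mp (by simpa using (smK hq).pow hΔs e)) hK le_rfl)
        (le_of_eq ?_)
      rw [hm']
      push_cast
      ring)) with h1 | ⟨r, r0, r1, r2⟩
  · refine Or.inl fun β => ?_
    have := sm_mul (hq := hq) hinv (h1 β) (s := -1) (by simp)
    rwa [inv_mul_cancel_left₀ hΔ0] at this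
  · refine Or.inr ⟨r, r0, fun l => Fil.mono _ le_rfl (le_add_of_nonneg_right (by positivity))
      (r1 l), ?_⟩
    simp only [hGL, mul_left_comm (r _) (Δ ^ e), ← mul_sum] at r2
    have := sm_mul (hq := hq) ((smK hq).pow hinv e) r2 (s := h + m' * |c0| - K) (by linarith)
    rwa [inv_pow, inv_mul_cancel_left₀ (pow_ne_zero _ hΔ0)] at this

end Pool.Agent.Lib.MP_c9a594_an.PW
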