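import Pool.Agent.Lib.MP_c9a594_an.PW.Ultra
import Pool.Agent.Lib.MP_c9a594_an.AR.Claim

/-! Linear algebra over a tower of scales. -/

open Filter Topology Real Finset Matrix

namespace Pool.Agent.Lib.MP_c9a594_an.PW

open AI AR

variable {U : Ultrafilter ℕ} {q : ℕ → ℝ}

lemma eq_zero_of_dot {N : Type} [Fintype N] {v : N → UP U} (h : v ⬝ᵥ v = 0) : v = 0 := by
  choose f hf using fun ν => germ_surj (v ν)
  simp only [dotProduct, ← hf, ← map_mul, germ_sum, germ_eq_zero] at h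
  funext ν
  rw [← hf, Pi.zero_apply, germ_eq_zero]
  exact h.mono fun k hk => mul_self_eq_zero.mp
    ((sum_eq_zero_iff_of_nonneg fun ν _ => mul_self_nonneg (f ν k)).mp hk ν (mem_univ _))

theorem lin_aux (N B : Type) [Fintype N] [Fintype B] {κ c0 : ℝ} (hκ : 0 ≤ κ) (hc0 : 0 ≤ c0)
    (j : ℕ) : ∃ h : ℝ, c0 ≤ h ∧ ∀ (U : Ultrafilter ℕ) (q : ℕ → ℝ) (hq : Tendsto q U atTop)
    (L : B → N → UP U) (G : N → UP U) (φ : B → UP U) (K : ℝ), (∀ β ν, L β ν ∈ (zs hq).F 0 c0) →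
    (∀ A, 0 ≤ A → ∃ (T : N → UP U) (u : UP U), (∀ ν, T ν ∈ (zs hq).F 0 (κ * (1 + A))) ∧
      (∀ ν, ∑ β, φ β * L β ν - u * T ν ∈ small hq (κ - A)) ∧
      ∑ ν, G ν * T ν ∈ small hq (κ * (1 + A) - K)) →
    ((∀ β, φ β ∈ small hq (-1)) ∨ ∃ r : B → UP U, r ≠ 0 ∧ (∀ β, r β ∈ (zs hq).F 0 h) ∧
      ∑ β, r β * ∑ ν, G ν * L β ν ∈ small hq (h - K)) ∨
    ∃ T : Fin j → N → UP U, LinearIndependent (UP U) T ∧ (∀ i ν, T i ν ∈ (zs hq).F 0 h) ∧
      ∀ i, ∑ ν, G ν * T i ν ∈ small hq (h - K) := by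
  classical
  induction j with
  | zero => exact ⟨c0, le_rfl, fun U q hq L G φ K _ _ => Or.inr ⟨Fin.elim0,
      linearIndependent_empty_type, fun i => i.elim0, fun i => i.elim0⟩⟩
  | succ j ih =>
  obtain ⟨h, hh, ih⟩ := ih
  have h0 : 0 ≤ h := hc0.trans hh
  obtain ⟨n, hn⟩ : ∃ n : ℝ, n = Fintype.card (B ⊕ Fin j) * (h + h) := ⟨_, rfl⟩
  have hn0 : 0 ≤ n := by rw [hn]; positivity
  have hk : 0 ≤ κ * (1 + (κ + 1 + h + n)) := by positivity
  refine ⟨n + h + κ * (1 + (κ + 1 + h + n)), by linarith, fun U q hq L G φ K hL hT => ?_⟩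
  rcases ih U q hq L G φ K hL hT with (h1 | ⟨r, a1, a2, a3⟩) | ⟨T, a1, a2, a3⟩
  · exact Or.inl (Or.inl h1)
  · exact Or.inl (Or.inr ⟨r, a1, fun β => Fil.mono _ le_rfl (by linarith) (a2 β),
      small_mono (by linarith) a3⟩)
  let M : Matrix (B ⊕ Fin j) N (UP U) := of (Sum.elim L T)
  have hM : ∀ i ν, M i ν ∈ (zs hq).F 0 h := by
    rintro (β | i) ν
    exacts [Fil.mono _ le_rfl hh (hL β ν), a2 i ν]
  have hΓ : ∀ i l, (M * Mᵀ) i l ∈ (zs hq).F 0 (h + h) := fun i l =>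
    AddSubgroup.sum_mem _ fun ν _ => (zs hq).mul (m := 0) (m' := 0) (hM i ν) (hM l ν)
  have hvm : ∀ (v : B ⊕ Fin j → UP U) ν,
      (v ᵥ* M) ν = ∑ β, v (.inl β) * L β ν + ∑ i, v (.inr i) * T i ν := fun v ν => by
    simp [vecMul, dotProduct, M]
  by_cases hd : (M * Mᵀ).det = 0
  · obtain ⟨v, v0, v1, v2⟩ := exists_ker (zs hq) (by positivity) hΓ hd
    rw [← hn] at v2
    have v3 : v ᵥ* M = 0 := eq_zero_of_dot (by
      rw [← mulVec_transpose, dotProduct_mulVec, mulVec_transpose, vecMul_vecMul, v1,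
        zero_dotProduct])
    refine Or.inl (Or.inr ⟨fun β => v (.inl β), fun h1 => v0 (funext ?_),
      fun β => Fil.mono _ (by simp) (by linarith) (v2 _), ?_⟩)
    · have h2 := Fintype.linearIndependent_iff.mp a1 (fun i => v (.inr i)) (funext fun ν => by
        have := congrFun v3 ν
        rw [hvm] at this
        simpa [show ∀ β, v (.inl β) = 0 from congrFun h1] using this)
      rintro (β | i)
      exacts [congrFun h1 β, h2 i]
    · have e : ∑ β, v (.inl β) * ∑ ν, G ν * L β ν = -∑ i, v (.inr i) * ∑ ν, G ν * T i ν := by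
        rw [eq_neg_iff_add_eq_zero]
        simp only [mul_sum]
        rw [sum_comm, sum_comm (s := (univ : Finset (Fin j))), ← sum_add_distrib]
        refine sum_eq_zero fun ν _ => ?_
        have := congrArg (G ν * ·) ((hvm v ν).symm.trans (congrFun v3 ν))
        simpa only [mul_add, mul_sum, mul_left_comm (G ν), Pi.zero_apply, mul_zero] using this
      rw [e]
      exact neg_mem (Submodule.sum_mem _ fun i _ => sm_mul (v2 _).2 (a3 i) (by linarith))
  obtain ⟨T', u, b1, b2, b3⟩ := hT (κ + 1 + h + n) (by positivity)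
  by_cases hs : T' ∈ Submodule.span (UP U) (Set.range T)
  · obtain ⟨c, hc⟩ := (Submodule.mem_span_range_iff_exists_fun _).mp hs
    let y : B ⊕ Fin j → UP U := Sum.elim φ fun i => -(u * c i)
    have y1 : ∀ ν, (y ᵥ* M) ν ∈ small hq (-1 - h - n) := fun ν => by
      convert b2 ν using 1
      · congr 1
        ring
      · rw [hvm, ← hc]
        simp [y, mul_sum, mul_assoc, sub_eq_add_neg]
    have y2 : ∀ l, (y ᵥ* (M * Mᵀ)) l ∈ small hq (-1 - n) := fun l => by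
      rw [← vecMul_vecMul]
      exact Submodule.sum_mem _ fun ν _ => sm_mul (y1 ν) (hM l ν).2 (by linarith)
    have y3 : ∀ i l, (M * Mᵀ).adjugate i l ∈ small hq n := fun i l => by
      have := (smK hq).det (m := 0) (α := fun _ => h + h) (γ := fun _ => 0)
        (M := (M * Mᵀ).updateRow l (Pi.single i 1)) fun k l => by
          rw [updateRow_apply, add_zero, Pi.single_apply]
          split_ifs
          exacts [(smK hq).mono le_rfl (by positivity) (smK hq).one, zero_mem _, (hΓ k l).2]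
      rwa [sum_const_zero, add_zero, sum_const, card_univ, nsmul_eq_mul, ← hn,
        ← adjugate_apply] at this
    obtain ⟨f, hf⟩ := ((zs hq).det (m := 0) (α := fun _ => h + h) (γ := fun _ => 0)
      (M := M * Mᵀ) fun k l => by simpa using hΓ k l).1
    refine Or.inl (Or.inl fun β => ?_)
    have y4 : ((y ᵥ* (M * Mᵀ)) ᵥ* (M * Mᵀ).adjugate) (.inl β) ∈ small hq (-1) :=
      Submodule.sum_mem _ fun l _ => sm_mul (y2 l) (y3 l _) (by linarith)
    rw [vecMul_vecMul, mul_adjugate, vecMul_smul, vecMul_one, Pi.smul_apply, smul_eq_mul] at y4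
    have := sm_mul (inv_int (hq := hq) (hf ▸ hd)) y4 (zero_add _).le
    rwa [← hf, inv_mul_cancel_left₀ hd] at this
  · refine Or.inr ⟨Fin.cons T' T, linearIndependent_finCons.mpr ⟨a1, hs⟩, fun i => ?_, fun i => ?_⟩
      <;> refine Fin.cases ?_ (fun i => ?_) i
    exacts [fun ν => Fil.mono _ le_rfl (by linarith) (b1 ν),
      fun ν => Fil.mono _ le_rfl (by linarith) (a2 i ν), small_mono (by linarith) b3,
      small_mono (by linarith) (a3 i)]

theorem lin (N B : Type) [Fintype N] [Fintype B] {κ c0 : ℝ} (hκ : 0 ≤ κ) (hc0 : 0 ≤ c0) :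
    ∃ h : ℝ, ∀ (U : Ultrafilter ℕ) (q : ℕ → ℝ) (hq : Tendsto q U atTop)
    (L : B → N → UP U) (G : N → UP U) (φ : B → UP U) (K : ℝ), (∀ β ν, L β ν ∈ (zs hq).F 0 c0) →
    (∀ A, 0 ≤ A → ∃ (T : N → UP U) (u : UP U), (∀ ν, T ν ∈ (zs hq).F 0 (κ * (1 + A))) ∧
      (∀ ν, ∑ β, φ β * L β ν - u * T ν ∈ small hq (κ - A)) ∧
      ∑ ν, G ν * T ν ∈ small hq (κ * (1 + A) - K)) →
    (∀ β, φ β ∈ small hq (-1)) ∨ ∃ r : B → UP U, r ≠ 0 ∧ (∀ β, r β ∈ (zs hq).F 0 h) ∧
      ∑ β, r β * ∑ ν, G ν * L β ν ∈ small hq (h - K) := by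
  obtain ⟨h, -, H⟩ := lin_aux N B hκ hc0 (Fintype.card N + 1)
  refine ⟨h, fun U q hq L G φ K hL hT => (H U q hq L G φ K hL hT).resolve_right ?_⟩
  rintro ⟨T, h1, -⟩
  simpa using h1.fintype_card_le_finrank

end Pool.Agent.Lib.MP_c9a594_an.PW
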