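import Pool.Agent.Lib.MP_c9a594_an.PW.Key
import Pool.Agent.Lib.MP_c9a594_an.PW.Crit

/-! Algebraic independence of numbers of low complexity in pairwise independent bases. -/

open Filter Topology Real Finset Polynomial

namespace Pool.Agent.Lib.MP_c9a594_an.PW

open AI AR

variable {U : Ultrafilter ℕ} {q : ℕ → ℝ} {ι : Type} {hq : Tendsto q U atTop}

lemma near_div' {x : ℕ → ℝ} {K : ℝ} (hK : 0 ≤ K) {d : ℕ → ℤ} {f : ℕ → ℚ} (hd : ∀ k, d k ≠ 0)
    (hx : ∀ k, |x k| ≤ 1) (h : ∀ᶠ k in U, |d k * x k - f k| ≤ exp (-K * q k)) :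
    (cR (f / fun k => (d k : ℚ)), x) ∈ near hq (-K) := by
  have h0 : x ∈ (smR hq).F 0 0 := smR_of_le (Eventually.of_forall (by simpa using hx))
  have h1 : cR (f / fun k => (d k : ℚ)) - x ∈ (smR hq).F 0 (-K) := by
    refine smR_of_le (h.mono fun k h2 => ?_)
    have h3 : (1 : ℝ) ≤ |(d k : ℝ)| := by exact_mod_cast Int.one_le_abs (hd k)
    have h4 : (d k : ℝ) ≠ 0 := by exact_mod_cast hd k
    have e : (cR (f / fun k => (d k : ℚ)) - x : ℕ → ℝ) k = -(d k * x k - f k) / d k := by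
      simp [cR]; field_simp
    rw [e, abs_div, abs_neg]
    exact (div_le_self (abs_nonneg _) h3).trans h2
  exact ⟨by simpa using add_mem ((smR hq).mono le_rfl (neg_nonpos.mpr hK) h1) h0, h0, h1⟩

variable [Fintype ι] [DecidableEq ι]

theorem uniform (b : ι → ℕ) (hb : ∀ i, 2 ≤ b i)
    (hind : ∀ i j, i ≠ j → ∀ k l : ℕ, 0 < k → 0 < l → b i ^ k ≠ b j ^ l) (s : Finset ι)
    (hs : s.Nonempty) : ∃ i0 ∈ s, ∀ (e : ℕ) (P : Fin (e + 1) → MvPolynomial ι ℤ),
    (∀ β, ∀ μ ∈ (P β).support, ∀ i ∉ s.erase i0, μ i = 0) → ∀ C : ℝ, ∃ c : ℝ, ∀ K : ℝ, ∃ n0 : ℕ,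
    ∀ n ≥ n0, ∀ x : ι → ℝ, (∀ i, (cx (b i) (x i) n : ℝ) ≤ C * n) →
      evZ (fun i => Int.fract (x i)) (∑ β, P β * MvPolynomial.X i0 ^ (β : ℕ)) = 0 →
      (∀ β, |evZ (fun i => Int.fract (x i)) (P β)| ≤ exp (-(1 / 2) * n)) ∨
      ∃ Q : ℤ[X], Q ≠ 0 ∧ Q.natDegree ≤ e ∧ (∀ i, |(Q.coeff i : ℝ)| ≤ exp (c * n)) ∧
        |aeval (Int.fract (x i0)) Q| ≤ exp (-K * n) := by
  obtain ⟨i0, hi0, hkey⟩ := key b hb hind s hs
  refine ⟨i0, hi0, fun e' P hP C => ?_⟩
  choose D c hw using fun i => words (b i) (hb i) C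
  have hc1 : ∀ i, c i ≤ ∑ i, |c i| := fun i => (le_abs_self _).trans
    (single_le_sum (f := fun i => |c i|) (fun _ _ => abs_nonneg _) (mem_univ i))
  obtain ⟨m, hm⟩ := hkey (Σ i, Option (Fin (D i))) (∑ i, |c i|) e' (∑ β, (P β).totalDegree)
  refine ⟨m + 1, fun K => ?_⟩
  set K2 := |K + (m + 1)| + 1 with hK2
  choose M n0 B hw using fun i => hw i K2
  by_contra hbad
  simp only [not_exists, not_forall, not_or] at hbad
  choose n hn x hx hF hno1 hno2 using fun k => hbad (k + ∑ i, n0 i)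
  choose d V s e0 e h1 h2 h3 h4 h5 h6 using fun i k => hw i (n k) ((single_le_sum
    (fun _ _ => Nat.zero_le _) (mem_univ i)).trans (le_of_add_le_right (hn k))) (x k i) (hx k i)
  let U := Ultrafilter.of (atTop : Filter ℕ)
  have hq : Tendsto (fun k => (n k : ℝ)) U atTop := (tendsto_natCast_atTop_atTop.comp
    (tendsto_atTop_mono (fun k => le_of_add_le_left (hn k)) tendsto_id)).mono_left
      (Ultrafilter.of_le _)
  choose s0 hs0 using fun i => exists_const U (s i)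
    (Set.Finite.pi' fun _ => Set.finite_Icc (-1) 1) fun k t => abs_le.mp (h4 i k t)
  choose e1 he1 using fun i => exists_const U (e i) Set.finite_univ fun _ => trivial
  let W : (Σ i, Option (Fin (D i))) → ℕ → ℤ := fun j k => j.2.elim (d j.1 k) (V j.1 k)
  let xs : ι → ℕ → ℚ := fun i =>
    (fun k => ∑ t, (s0 i t * W ⟨i, some (e1 i t)⟩ k : ℚ) / b i ^ e0 i k t) /
      fun k => (W ⟨i, none⟩ k : ℚ)
  let y : ι → ℕ → ℝ := fun i k => Int.fract (x k i)
  have hnear : ∀ i, (cR (xs i), y i) ∈ near hq (-K2) := fun i =>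
    near_div' (by positivity) (h1 i) (fun k => by
      rw [abs_of_nonneg (Int.fract_nonneg _)]; exact (Int.fract_lt_one _).le) (by
      filter_upwards [hs0 i, he1 i] with k a1 a2
      simpa [W, ← a1, ← a2] using h6 i k)
  have hy : ∀ F k, evZ y F k = evZ (fun i => Int.fract (x k i)) F := fun F k =>
    hom_evZ (Pi.evalRingHom (fun _ : ℕ => ℝ) k) y F
  have hev : ∀ F r, evZ (fun i => germ U (xs i)) F ∈ small hq r ↔
      evZ (fun i => cR (xs i)) F ∈ (smR hq).F 0 r := fun F r => by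
    rw [← hom_evZ, germ_small, hom_evZ]
  rcases hm U _ hq W (by
      rintro ⟨i, _ | j⟩ <;> refine Eventually.of_forall fun k => ?_
      exacts [(h2 i k).trans (exp_le_exp.mpr (mul_le_mul_of_nonneg_right (hc1 i) (Nat.cast_nonneg _))),
        (h3 i k j).trans (exp_le_exp.mpr (mul_le_mul_of_nonneg_right (hc1 i) (Nat.cast_nonneg _)))])
    (fun i => germ U (xs i)) (fun i => ⟨Fin (M i), inferInstance, s0 i, fun t => ⟨i, some (e1 i t)⟩,
      ⟨i, none⟩, fun t k => e0 i k t, B i, Eventually.of_forall (h1 i),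
      fun t => Eventually.of_forall fun k => h5 i k t, rfl⟩) P K2
    (fun β μ hμ => ⟨fun i => ((MvPolynomial.monomial_le_degreeOf i hμ).trans
      (MvPolynomial.degreeOf_le_totalDegree _ _)).trans (single_le_sum
        (f := fun β => (P β).totalDegree) (fun _ _ => Nat.zero_le _) (mem_univ β)), hP β μ hμ⟩) (by
      have a1 := (near_evZ hnear (∑ β, P β * MvPolynomial.X i0 ^ (β : ℕ))).2.2
      rw [show evZ y _ = 0 from funext fun k => (hy _ k).trans (hF k), sub_zero, ← hev] at a1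
      simpa [evZ] using a1) with a1 | ⟨r, r0, r1, r2⟩
  · obtain ⟨k, hk⟩ := (eventually_all.mpr fun β => (sub_mem ((hev _ _).mp (a1 β)) ((smR hq).mono
      le_rfl (by linarith [abs_nonneg (K + (m + 1))]) (near_evZ hnear (P β)).2.2)) (1 / 2)
        one_half_pos).exists
    obtain ⟨β, hβ⟩ := hno1 k
    refine hβ ?_
    have := hk β
    rw [sub_sub_cancel] at this
    rw [← hy]
    convert this using 3
    norm_num
  · choose f hf using fun l => (r1 l).1
    obtain ⟨l0, hl0⟩ := Function.ne_iff.mp r0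
    have a1 : ∀ l, zR (f l) ∈ (smR hq).F 0 m := fun l => germ_small.mp (hf l ▸ (r1 l).2)
    have a2 : ∑ l, zR (f l) * y i0 ^ (l : ℕ) ∈ (smR hq).F 0 (m - K2) := by
      simp only [hf, ← map_pow, ← map_mul, ← map_sum] at r2
      have a3 := sub_mem (germ_small.mp r2) (AddSubgroup.sum_mem _ fun l (_ : l ∈ univ) =>
        (smR hq).mul (a1 l) (pow_mem (hnear i0) l).2.2)
      simp only [map_sum, map_mul, map_pow, Prod.pow_fst, Prod.pow_snd, mul_sub,
        sum_sub_distrib] at a3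
      exact (sub_sub_cancel _ _).subst (motive := (· ∈ _)) a3
    obtain ⟨k, b1, b2, b3, b4⟩ := ((Ultrafilter.eventually_not.mpr fun h =>
      hl0 ((hf l0).trans (germ_eq_zero.mpr h))).and ((eventually_all.mpr fun l =>
        a1 l 1 one_pos).and ((a2 1 one_pos).and (hq.eventually_ge_atTop 0)))).exists
    refine hno2 k (pol fun l => f l k) ⟨fun h => b1 (by simp [eq_zero_of_sum h l0]),
      natDegree_pol _, fun i => ?_, le_trans (le_of_eq ?_) (b3.trans (exp_le_exp.mpr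
        (mul_le_mul_of_nonneg_right (by linarith [le_abs_self (K + (m + 1))]) b4)))⟩
    · simp only [pol, finsetSum_coeff, coeff_C_mul_X_pow]
      by_cases hi : i < e' + 1
      · rw [sum_eq_single ⟨i, hi⟩ (fun l _ hl => if_neg fun h => hl (Fin.ext h.symm)) (by simp)]
        simpa [zR] using b2 ⟨i, hi⟩
      · rw [sum_eq_zero fun l _ => if_neg (by have := l.2; omega)]
        simp [(exp_pos _).le]
    · simp [pol, zR, y]

theorem step (b : ι → ℕ) (s : Finset ι) (F : MvPolynomial ι ℤ) : ∃ n0 : ℕ → ℕ, (∀ i, 2 ≤ b i) →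
    (∀ i j, i ≠ j → ∀ k l : ℕ, 0 < k → 0 < l → b i ^ k ≠ b j ^ l) → s.Nonempty →
    (∀ μ ∈ F.support, ∀ i ∉ s, μ i = 0) → ∀ ω : ℕ → ℕ, Tendsto ω atTop atTop → Monotone ω →
    (∀ n, ω (n + 1) ≤ ω n + 1) → (∀ᶠ n in atTop, n0 (ω n) ≤ n) → ∀ x : ι → ℝ,
    (∀ i, ∀ᶠ n : ℕ in atTop, (cx (b i) (x i) n : ℝ) ≤ n * ω n) →
    (∀ i, Transcendental ℤ (Int.fract (x i))) → evZ (fun i => Int.fract (x i)) F = 0 →
    ∃ i0 ∈ s, ∀ β, evZ (fun i => Int.fract (x i)) ((tp i0 F).coeff β) = 0 := by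
  by_cases H : (∀ i, 2 ≤ b i) ∧ (∀ i j, i ≠ j → ∀ k l : ℕ, 0 < k → 0 < l → b i ^ k ≠ b j ^ l) ∧
    s.Nonempty ∧ ∀ μ ∈ F.support, ∀ i ∉ s, μ i = 0
  swap
  · exact ⟨0, fun h1 h2 h3 h4 => absurd ⟨h1, h2, h3, h4⟩ H⟩
  obtain ⟨i0, hi0, h⟩ := uniform b H.1 H.2.1 s H.2.2.1
  choose c h using fun j : ℕ => h (tp i0 F).natDegree (fun β => (tp i0 F).coeff β) (fun β μ hμ i hi => by
    obtain ⟨h1, h2⟩ := mem_support_tp hμ
    by_cases h3 : i = i0
    · rwa [h3]
    · exact Nat.eq_zero_of_add_eq_zero_right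
        (H.2.2.2 _ h2 i fun h4 => hi (mem_erase.mpr ⟨h3, h4⟩))) j
  let k : ℕ → ℝ := fun j => 1 + ∑ i ∈ range (j + 1), |c i|
  have km : Monotone k := fun i j hij => add_le_add le_rfl (sum_le_sum_of_subset_of_nonneg
    (range_subset_range.2 (by omega)) fun _ _ _ => abs_nonneg _)
  have k0 : ∀ j, 1 ≤ k j := fun j => le_add_of_nonneg_right (by positivity)
  have k1 : ∀ j, c j ≤ k j := fun j => (le_abs_self _).trans ((single_le_sum
    (f := fun i => |c i|) (fun _ _ => abs_nonneg _) (by simp)).trans (le_add_of_nonneg_left zero_le_one))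
  choose n0 h using fun j : ℕ => h j (2 * j * k (j + 1))
  refine ⟨n0, fun _ _ _ _ ω w1 w2 w3 w4 x hx ht hF => ⟨i0, hi0, fun β => ?_⟩⟩
  by_contra hβ
  have hβ' : β < (tp i0 F).natDegree + 1 := Nat.lt_succ_of_le (le_natDegree_of_ne_zero fun h0 =>
    hβ (by rw [h0, map_zero]))
  have hF' : evZ (fun i => Int.fract (x i)) (∑ β : Fin ((tp i0 F).natDegree + 1),
      (tp i0 F).coeff β * MvPolynomial.X i0 ^ (β : ℕ)) = 0 := by
    have := eval_tp i0 (Int.castRingHom ℝ) (fun i => Int.fract (x i)) (Int.fract (x i0)) F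
    rw [Function.update_eq_self, eval_map, eval₂_eq_sum_range,
      ← Fin.sum_univ_eq_sum_range fun l => _ * _ ^ l] at this
    simpa [evZ] using this.trans hF
  obtain ⟨A, hA⟩ := gelfond' (Int.fract (x i0)) (tp i0 F).natDegree
  obtain ⟨n1, hn1⟩ := eventually_atTop.mp (w4.and ((eventually_all.mpr hx).and
    (((tendsto_natCast_atTop_atTop.comp w1).eventually_ge_atTop A).and ((eventually_ge_atTop 1).and
      ((tendsto_exp_atBot.comp ((tendsto_natCast_atTop_atTop (R := ℝ)).const_mul_atTop_of_neg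
        (show (-(1 / 2) : ℝ) < 0 by norm_num))).eventually_lt_const (abs_pos.mpr hβ))))))
  refine ht i0 (hA (fun n => k (ω n) * n) n1 (tendsto_atTop_mono (fun n =>
    le_mul_of_one_le_left (Nat.cast_nonneg n) (k0 _)) tendsto_natCast_atTop_atTop) fun n hn => ?_)
  obtain ⟨a1, a2, a3, a4, a5⟩ := hn1 n hn
  have b1 : (1 : ℝ) ≤ n := by exact_mod_cast a4
  have b2 := km (w2 (Nat.le_succ n))
  have b3 := km (w3 n)
  have b4 := k0 (ω n)
  refine ⟨by nlinarith, by push_cast; nlinarith, ?_⟩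
  obtain ⟨Q, q0, q1, q2, q3⟩ := (h (ω n) n a1 x (fun i => by rw [mul_comm]; exact a2 i)
    hF').resolve_left fun h5 => (h5 ⟨β, hβ'⟩).not_gt a5
  refine ⟨Q, q0, q1, fun i => (q2 i).trans (exp_le_exp.mpr (by gcongr; exact k1 _)),
    q3.trans (exp_le_exp.mpr ?_)⟩
  have b5 : A * (k (ω (n + 1)) * (n + 1)) ≤ ω n * (k (ω n + 1) * (2 * n)) :=
    (mul_le_mul_of_nonneg_right a3 (by have := b4.trans b2; positivity)).trans
      (mul_le_mul_of_nonneg_left (mul_le_mul b3 (by linarith) (by positivity)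
        (by linarith [k0 (ω n + 1)])) (Nat.cast_nonneg _))
  push_cast
  linarith

theorem main : ∃ ω : ℕ → ℕ, Tendsto ω atTop atTop ∧ ∀ (r : ℕ) (b : Fin r → ℕ), (∀ i, 2 ≤ b i) →
    (∀ i j, i ≠ j → ∀ k l : ℕ, 0 < k → 0 < l → b i ^ k ≠ b j ^ l) → ∀ x : Fin r → ℝ,
    (∀ i, Irrational (x i)) → (∀ i, ∀ᶠ n : ℕ in atTop, (cx (b i) (x i) n : ℝ) ≤ n * ω n) →
    AlgebraicIndependent ℚ x := by
  choose n1 h1 using fun τ : Σ r, (Fin r → ℕ) × Finset (Fin r) × MvPolynomial (Fin r) ℤ =>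
    step τ.2.1 τ.2.2.1 τ.2.2.2
  have : Countable {y : ℝ // IsAlgebraic ℤ y} := (Algebraic.countable ℤ ℝ).to_subtype
  have h2 : ∀ (τ : ℕ × {y : ℝ // IsAlgebraic ℤ y}) (j : ℕ), ∃ n0 : ℕ, 2 ≤ τ.1 → Irrational τ.2 →
      ∀ n ≥ n0, ¬ (cx τ.1 τ.2 n : ℝ) ≤ j * n := fun τ j => by
    by_cases H : 2 ≤ τ.1 ∧ Irrational τ.2
    · obtain ⟨n0, h⟩ := eventually_atTop.mp (not_frequently.mp fun h =>
        transcendental_of_often τ.1 H.1 _ H.2 j h τ.2.2)
      exact ⟨n0, fun _ _ => h⟩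
    · exact ⟨0, fun h h' => absurd ⟨h, h'⟩ H⟩
  choose n2 h2 using h2
  have : ∀ r, Countable (MvPolynomial (Fin r) ℤ) := fun r =>
    (AddMonoidAlgebra.coeff_injective (M := Fin r →₀ ℕ) (R := ℤ)).countable
  obtain ⟨ω, w1, w2, w3, w4⟩ := diagonal (Sum.elim n1 n2)
  refine ⟨ω, w1, fun r b hb hind x hx h => ?_⟩
  have ht : ∀ i, Transcendental ℤ (Int.fract (x i)) := fun i ha => by
    have ha' : IsAlgebraic ℤ (x i) := by
      simpa using (isAlgebraic_intCast (R := ℤ) (A := ℝ) ⌊x i⌋).add ha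
    obtain ⟨n, a1, a2⟩ := ((w4 (.inr (b i, ⟨_, ha'⟩))).and (h i)).exists
    exact h2 (b i, ⟨_, ha'⟩) _ (hb i) (hx i) n a1 (by rwa [mul_comm])
  have H : ∀ (s : Finset (Fin r)) (F : MvPolynomial (Fin r) ℤ), (∀ μ ∈ F.support, ∀ i ∉ s, μ i = 0) →
      evZ (fun i => Int.fract (x i)) F = 0 → F = 0 := fun s => by
    induction s using Finset.strongInduction with
    | H s ih =>
    intro F hF h0
    rcases s.eq_empty_or_nonempty with rfl | hs
    · have : F = MvPolynomial.C (F.coeff 0) := MvPolynomial.totalDegree_eq_zero_iff_eq_C.mp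
        ((MvPolynomial.totalDegree_eq_zero_iff _ _).mpr fun μ hμ i => hF μ hμ i (by simp))
      rw [this] at h0 ⊢
      rw [show F.coeff 0 = 0 by simpa using h0, map_zero]
    obtain ⟨i0, hi0, h3⟩ := h1 ⟨r, b, s, F⟩ hb hind hs hF ω w1 w2 w3 (w4 (.inl _)) x h ht h0
    ext μ
    have h4 := coeff_tp i0 F (μ i0) (μ.erase i0)
    rw [ih _ (erase_ssubset hi0) _ (fun ν hν i hi => by
      obtain ⟨a1, a2⟩ := mem_support_tp hν
      by_cases a3 : i = i0
      · rwa [a3]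
      · exact Nat.eq_zero_of_add_eq_zero_right (hF _ a2 i fun a4 => hi (mem_erase.mpr ⟨a3, a4⟩)))
      (h3 _), if_pos (by simp), Finsupp.erase_add_single] at h4
    exact h4.symm
  have : Algebra.IsAlgebraic ℤ ℚ := IsLocalization.isAlgebraic ℚ (nonZeroDivisors ℤ)
  refine AlgebraicIndependent.extendScalars (R := ℤ) ℚ (algebraicIndependent_iff.mpr fun p hp => ?_)
  have hX : ∀ {R : Type} [CommRing R] (z : Fin r → R) (i), evZ z (MvPolynomial.X i) = z i :=
    fun z i => MvPolynomial.eval₂Hom_X' _ _ _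
  have h3 := H univ (evZ (fun i => MvPolynomial.X i + (⌊x i⌋ : MvPolynomial (Fin r) ℤ)) p)
    (by simp) (by
      simp only [hom_evZ, map_add, map_intCast, hX, Int.fract_add_floor]
      exact hp)
  have h4 := congrArg (evZ fun i => MvPolynomial.X i - (⌊x i⌋ : MvPolynomial (Fin r) ℤ)) h3
  simp only [hom_evZ, map_add, map_intCast, map_zero, hX, sub_add_cancel] at h4
  have h5 : evZ MvPolynomial.X = RingHom.id (MvPolynomial (Fin r) ℤ) :=
    MvPolynomial.ringHom_ext (fun r => by simp) fun i => hX _ _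
  exact (RingHom.congr_fun h5 p).symm.trans h4

end Pool.Agent.Lib.MP_c9a594_an.PW
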