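import Pool.Agent.Lib.MP_c9a594_an.PW.KeyF
import Pool.Agent.Lib.MP_c9a594_an.PW.Main

/-! Transcendental elements of the fields generated by numbers of low complexity. -/

open Filter Topology Real Finset Polynomial

namespace Pool.Agent.Lib.MP_c9a594_an.PW

open AI AR

variable {ι : Type} [Fintype ι] [DecidableEq ι]

theorem uniformF (b : ι → ℕ) (hb : ∀ i, 2 ≤ b i)
    (hind : ∀ i j, i ≠ j → ∀ k l : ℕ, 0 < k → 0 < l → b i ^ k ≠ b j ^ l) (s : Finset ι)
    (hs : s.Nonempty) : ∃ i0 ∈ s, ∀ (σ : Type) [Fintype σ] (pr : σ → ι) (e : ℕ)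
    (P : Fin (e + 1) → MvPolynomial σ ℤ) (u v : MvPolynomial σ ℤ),
    (∀ β, ∀ i ∈ (P β).vars, pr i ∈ s.erase i0) → (∀ i ∈ u.vars, pr i = i0) →
    (∀ i ∈ v.vars, pr i = i0) → ∀ C : ℝ, ∃ c : ℝ, ∀ K : ℝ, ∃ n0 : ℕ,
    ∀ n ≥ n0, ∀ x : σ → ℝ, (∀ i, (cx (b (pr i)) (x i) n : ℝ) ≤ C * n) →
      evZ (fun i => Int.fract (x i)) (∑ β, P β * (u ^ (β : ℕ) * v ^ (e - β))) = 0 →
      (∀ β, |evZ (fun i => Int.fract (x i)) (P β)| ≤ exp (-(1 / 2) * n)) ∨
      ∃ r : Fin (e + 1) → ℤ, r ≠ 0 ∧ (∀ i, |(r i : ℝ)| ≤ exp (c * n)) ∧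
        |∑ β, r β * evZ (fun i => Int.fract (x i)) (u ^ (β : ℕ) * v ^ (e - β))| ≤ exp (-K * n) := by
  classical
  obtain ⟨i0, hi0, hkey⟩ := keyF b hb hind s hs
  refine ⟨i0, hi0, fun σ _ pr e' P u v hP hu hv C => ?_⟩
  choose D c hw using fun i => words (b (pr i)) (hb _) C
  have hc1 : ∀ i, c i ≤ ∑ i, |c i| := fun i => (le_abs_self _).trans
    (single_le_sum (f := fun i => |c i|) (fun _ _ => abs_nonneg _) (mem_univ i))
  obtain ⟨m, hm⟩ := hkey σ pr (Σ i, Option (Fin (D i))) (∑ i, |c i|) e'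
    (∑ β, (P β).totalDegree + u.totalDegree + v.totalDegree)
  refine ⟨m + 1, fun K => ?_⟩
  set K2 := |K + (m + 1)| + 1 with hK2
  choose M n0 B hw using fun i => hw i K2
  by_contra hbad
  simp only [not_exists, not_forall, not_or] at hbad
  choose n hn x hx hF hno1 hno2 using fun k => hbad (k + ∑ i, n0 i)
  choose d V s e0 e h1 h2 h3 h4 h5 h6 using fun i k => hw i (n k) ((single_le_sum
    (fun _ _ => Nat.zero_le _) (mem_univ i)).trans (le_of_add_le_right (hn k))) (x k i) (hx k i)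
  let U := Ultrafilter.of (atTop : Filter ℕ)
  have hq : Tendsto (fun k => (n k : ℝ)) U atTop := (tendsto_natCast_atTop_atTop.comp
    (tendsto_atTop_mono (fun k => le_of_add_le_left (hn k)) tendsto_id)).mono_left
      (Ultrafilter.of_le _)
  choose s0 hs0 using fun i => exists_const U (s i)
    (Set.Finite.pi' fun _ => Set.finite_Icc (-1) 1) fun k t => abs_le.mp (h4 i k t)
  choose e1 he1 using fun i => exists_const U (e i) Set.finite_univ fun _ => trivial
  let W : (Σ i, Option (Fin (D i))) → ℕ → ℤ := fun j k => j.2.elim (d j.1 k) (V j.1 k)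
  let xs : σ → ℕ → ℚ := fun i =>
    (fun k => ∑ t, (s0 i t * W ⟨i, some (e1 i t)⟩ k : ℚ) / b (pr i) ^ e0 i k t) /
      fun k => (W ⟨i, none⟩ k : ℚ)
  let y : σ → ℕ → ℝ := fun i k => Int.fract (x k i)
  have hnear : ∀ i, (cR (xs i), y i) ∈ near hq (-K2) := fun i =>
    near_div' (by positivity) (h1 i) (fun k => by
      rw [abs_of_nonneg (Int.fract_nonneg _)]; exact (Int.fract_lt_one _).le) (by
      filter_upwards [hs0 i, he1 i] with k a1 a2
      simpa [W, ← a1, ← a2] using h6 i k)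
  have hy : ∀ F k, evZ y F k = evZ (fun i => Int.fract (x k i)) F := fun F k =>
    hom_evZ (Pi.evalRingHom (fun _ : ℕ => ℝ) k) y F
  have hev : ∀ F r, evZ (fun i => germ U (xs i)) F ∈ small hq r ↔
      evZ (fun i => cR (xs i)) F ∈ (smR hq).F 0 r := fun F r => by
    rw [← hom_evZ, germ_small, hom_evZ]
  rcases hm U _ hq W (by
      rintro ⟨i, _ | j⟩ <;> refine Eventually.of_forall fun k => ?_
      exacts [(h2 i k).trans (exp_le_exp.mpr (mul_le_mul_of_nonneg_right (hc1 i) (Nat.cast_nonneg _))),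
        (h3 i k j).trans (exp_le_exp.mpr (mul_le_mul_of_nonneg_right (hc1 i) (Nat.cast_nonneg _)))])
    (fun i => germ U (xs i)) (fun i => ⟨Fin (M i), inferInstance, s0 i, fun t => ⟨i, some (e1 i t)⟩,
      ⟨i, none⟩, fun t k => e0 i k t, B i, Eventually.of_forall (h1 i),
      fun t => Eventually.of_forall fun k => h5 i k t, rfl⟩) P u v K2
    (fun β => ⟨(single_le_sum (f := fun β => (P β).totalDegree) (fun _ _ => Nat.zero_le _)
      (mem_univ β)).trans (by omega), hP β⟩) ⟨by omega, hu⟩ ⟨by omega, hv⟩ (by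
      have a1 := (near_evZ hnear (∑ β, P β * (u ^ (β : ℕ) * v ^ (e' - β)))).2.2
      rw [show evZ y _ = 0 from funext fun k => (hy _ k).trans (hF k), sub_zero, ← hev] at a1
      simpa using a1) with a1 | ⟨r, r0, r1, r2⟩
  · obtain ⟨k, hk⟩ := (eventually_all.mpr fun β => (sub_mem ((hev _ _).mp (a1 β)) ((smR hq).mono
      le_rfl (by linarith [abs_nonneg (K + (m + 1))]) (near_evZ hnear (P β)).2.2)) (1 / 2)
        one_half_pos).exists
    obtain ⟨β, hβ⟩ := hno1 k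
    refine hβ ?_
    have := hk β
    rw [sub_sub_cancel] at this
    rw [← hy]
    convert this using 3
    norm_num
  · choose f hf using fun l => (r1 l).1
    obtain ⟨l0, hl0⟩ := Function.ne_iff.mp r0
    have a1 : ∀ l, zR (f l) ∈ (smR hq).F 0 m := fun l => germ_small.mp (hf l ▸ (r1 l).2)
    have a2 : ∑ l, zR (f l) * evZ y (u ^ (l : ℕ) * v ^ (e' - l)) ∈ (smR hq).F 0 (m - K2) := by
      simp only [hf, ← map_pow, ← map_mul, ← hom_evZ, ← map_sum] at r2
      have a3 := sub_mem (germ_small.mp r2) (AddSubgroup.sum_mem _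
        fun (l : Fin (e' + 1)) (_ : l ∈ univ) =>
          (smR hq).mul (a1 l) (near_evZ hnear (u ^ (l : ℕ) * v ^ (e' - l))).2.2)
      simp only [map_sum, map_mul cR, hom_evZ, mul_sub, sum_sub_distrib] at a3
      exact (sub_sub_cancel _ _).subst (motive := (· ∈ _)) a3
    obtain ⟨k, b1, b2, b3, b4⟩ := ((Ultrafilter.eventually_not.mpr fun h =>
      hl0 ((hf l0).trans (germ_eq_zero.mpr h))).and ((eventually_all.mpr fun l =>
        a1 l 1 one_pos).and ((a2 1 one_pos).and (hq.eventually_ge_atTop 0)))).exists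
    refine hno2 k (fun l => f l k) ⟨fun h => b1 (by simp [congrFun h l0]),
      fun i => by simpa [zR] using b2 i, le_trans (le_of_eq ?_) (b3.trans (exp_le_exp.mpr
        (mul_le_mul_of_nonneg_right (by linarith [le_abs_self (K + (m + 1))]) b4)))⟩
    simp only [Finset.sum_apply, Pi.mul_apply, hy]
    rfl

variable {σ : Type}

/-- A polynomial evaluated at fractions, with the denominators cleared. -/
noncomputable def hom (t : Finset ι) (d : ℕ) (u v : ι → MvPolynomial σ ℤ) (G : MvPolynomial ι ℤ) :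
    MvPolynomial σ ℤ :=
  ∑ μ ∈ G.support, ((G.coeff μ : ℤ) : MvPolynomial σ ℤ) * ∏ i ∈ t, u i ^ μ i * v i ^ (d - μ i)

omit [DecidableEq ι] in
lemma evZ_hom {t : Finset ι} {d : ℕ} {u v : ι → MvPolynomial σ ℤ} {G : MvPolynomial ι ℤ}
    (h : ∀ μ ∈ G.support, (∀ i, μ i ≤ d) ∧ ∀ i ∉ t, μ i = 0) {y : σ → ℝ}
    (hv : ∀ i, evZ y (v i) ≠ 0) : evZ y (hom t d u v G) =
      (∏ i ∈ t, evZ y (v i) ^ d) * evZ (fun i => evZ y (u i) / evZ y (v i)) G := by
  rw [hom, map_sum, evZ, evZ, MvPolynomial.coe_eval₂Hom, MvPolynomial.coe_eval₂Hom,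
    MvPolynomial.eval₂_eq' _ _ G, mul_sum]
  refine sum_congr rfl fun μ hμ => ?_
  rw [← prod_subset (subset_univ t) fun i _ hi => by rw [(h μ hμ).2 i hi, pow_zero],
    mul_left_comm, ← prod_mul_distrib]
  change evZ y _ = _
  simp only [map_mul, map_prod, map_pow, map_intCast, eq_intCast]
  exact congrArg _ (prod_congr rfl fun i _ => (pow_mul_div_pow (hv i) _ ((h μ hμ).1 i)).symm)

theorem stepF [Fintype σ] (pr : σ → ι) (b : ι → ℕ) (s : Finset ι) (F : MvPolynomial ι ℤ)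
    (u v : ι → MvPolynomial σ ℤ) : ∃ n0 : ℕ → ℕ, (∀ i, 2 ≤ b i) →
    (∀ i j, i ≠ j → ∀ k l : ℕ, 0 < k → 0 < l → b i ^ k ≠ b j ^ l) → s.Nonempty →
    (∀ μ ∈ F.support, ∀ i ∉ s, μ i = 0) → (∀ i, ∀ j ∈ (u i).vars, pr j = i) →
    (∀ i, ∀ j ∈ (v i).vars, pr j = i) → ∀ ω : ℕ → ℕ, Tendsto ω atTop atTop → Monotone ω →
    (∀ n, ω (n + 1) ≤ ω n + 1) → (∀ᶠ n in atTop, n0 (ω n) ≤ n) → ∀ z : σ → ℝ,
    (∀ i, ∀ᶠ n : ℕ in atTop, (cx (b (pr i)) (z i) n : ℝ) ≤ n * ω n) → ∀ x : ι → ℝ,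
    (∀ i, evZ (fun j => Int.fract (z j)) (v i) ≠ 0) →
    (x = fun i => evZ (fun j => Int.fract (z j)) (u i) / evZ (fun j => Int.fract (z j)) (v i)) →
    (∀ i, Transcendental ℤ (x i)) → evZ x F = 0 →
    ∃ i0 ∈ s, ∀ β, evZ x ((tp i0 F).coeff β) = 0 := by
  classical
  by_cases H : (∀ i, 2 ≤ b i) ∧ (∀ i j, i ≠ j → ∀ k l : ℕ, 0 < k → 0 < l → b i ^ k ≠ b j ^ l) ∧
    s.Nonempty ∧ (∀ i, ∀ j ∈ (u i).vars, pr j = i) ∧ ∀ i, ∀ j ∈ (v i).vars, pr j = i
  swap
  · exact ⟨0, fun h1 h2 h3 _ h4 h5 => absurd ⟨h1, h2, h3, h4, h5⟩ H⟩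
  obtain ⟨i0, hi0, h⟩ := uniformF b H.1 H.2.1 s H.2.2.1
  set e := (tp i0 F).natDegree
  choose c h using fun j : ℕ => h σ pr e
    (fun β => hom (s.erase i0) F.totalDegree u v ((tp i0 F).coeff β)) (u i0) (v i0) (fun β => by
      have : hom (s.erase i0) F.totalDegree u v ((tp i0 F).coeff β) ∈
          MvPolynomial.supported ℤ {j | pr j ∈ s.erase i0} :=
        Subalgebra.sum_mem _ fun μ _ => mul_mem (intCast_mem _ _) (Subalgebra.prod_mem _
          fun i hi => mul_mem (pow_mem (MvPolynomial.mem_supported.mpr fun j hj =>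
            Set.mem_ofPred_eq ▸ H.2.2.2.1 i j hj ▸ hi) _) (pow_mem (MvPolynomial.mem_supported.mpr
              fun j hj => Set.mem_ofPred_eq ▸ H.2.2.2.2 i j hj ▸ hi) _))
      exact fun j hj => MvPolynomial.mem_supported.mp this hj) (H.2.2.2.1 i0) (H.2.2.2.2 i0) j
  let k : ℕ → ℝ := fun j => 1 + ∑ i ∈ range (j + 1), |c i|
  have km : Monotone k := fun i j hij => add_le_add le_rfl (sum_le_sum_of_subset_of_nonneg
    (range_subset_range.2 (by omega)) fun _ _ _ => abs_nonneg _)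
  have k0 : ∀ j, 1 ≤ k j := fun j => le_add_of_nonneg_right (by positivity)
  have k1 : ∀ j, c j ≤ k j := fun j => (le_abs_self _).trans ((single_le_sum
    (f := fun i => |c i|) (fun _ _ => abs_nonneg _) (by simp)).trans (le_add_of_nonneg_left zero_le_one))
  choose n0 h using fun j : ℕ => h j (2 * j * k (j + 1) + 1)
  refine ⟨n0, fun _ _ _ hs _ _ ω w1 w2 w3 w4 z hz x hv hx ht hF => ⟨i0, hi0, fun β => ?_⟩⟩
  set y : σ → ℝ := fun j => Int.fract (z j)
  by_contra hβ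
  have hβ' : β < e + 1 := Nat.lt_succ_of_le (le_natDegree_of_ne_zero fun h0 =>
    hβ (by rw [h0, map_zero]))
  have hev : ∀ l, evZ y (hom (s.erase i0) F.totalDegree u v ((tp i0 F).coeff l)) =
      (∏ i ∈ s.erase i0, evZ y (v i) ^ F.totalDegree) * evZ x ((tp i0 F).coeff l) := fun l => by
    rw [hx]
    refine evZ_hom (fun μ hμ => ?_) hv
    obtain ⟨h1, h2⟩ := mem_support_tp hμ
    refine ⟨fun i => le_of_add_le_left (((MvPolynomial.monomial_le_degreeOf i h2).trans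
      (MvPolynomial.degreeOf_le_totalDegree _ _))), fun i hi => ?_⟩
    by_cases h3 : i = i0
    · rwa [h3]
    · exact Nat.eq_zero_of_add_eq_zero_right (hs _ h2 i fun h4 => hi (mem_erase.mpr ⟨h3, h4⟩))
  have huv : ∀ l : Fin (e + 1), evZ y (u i0 ^ (l : ℕ) * v i0 ^ (e - l)) =
      evZ y (v i0) ^ e * x i0 ^ (l : ℕ) := fun l => by
    rw [hx, pow_mul_div_pow (hv i0) _ (Nat.lt_succ_iff.mp l.2), map_mul, map_pow, map_pow]
  have hF' : evZ y (∑ β : Fin (e + 1), hom (s.erase i0) F.totalDegree u v ((tp i0 F).coeff β) *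
      (u i0 ^ (β : ℕ) * v i0 ^ (e - β))) = 0 := by
    have := eval_tp i0 (Int.castRingHom ℝ) x (x i0) F
    rw [Function.update_eq_self, eval_map, eval₂_eq_sum_range,
      ← Fin.sum_univ_eq_sum_range fun l => _ * _ ^ l] at this
    rw [map_sum, sum_congr rfl fun l _ => by rw [map_mul, hev, huv, mul_mul_mul_comm], ← mul_sum]
    exact mul_eq_zero_of_right _ (this.trans hF)
  obtain ⟨A, hA⟩ := gelfond' (x i0) e
  have hp := abs_pos.mpr (pow_ne_zero e (hv i0))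
  have hE := fun (c : ℝ) (hc : c < 0) (t : ℝ) (ht : 0 < t) => (tendsto_exp_atBot.comp
    ((tendsto_natCast_atTop_atTop (R := ℝ)).const_mul_atTop_of_neg hc)).eventually_lt_const ht
  obtain ⟨n1, hn1⟩ := eventually_atTop.mp (w4.and ((eventually_all.mpr hz).and
    (((tendsto_natCast_atTop_atTop.comp w1).eventually_ge_atTop A).and ((eventually_ge_atTop 1).and
      ((hE (-(1 / 2)) (by norm_num) _ (abs_pos.mpr (hev β ▸ mul_ne_zero (prod_ne_zero_iff.mpr
        fun i _ => pow_ne_zero _ (hv i)) hβ))).and (hE (-1) (by norm_num) _ hp))))))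
  refine ht i0 (hA (fun n => k (ω n) * n) n1 (tendsto_atTop_mono (fun n =>
    le_mul_of_one_le_left (Nat.cast_nonneg n) (k0 _)) tendsto_natCast_atTop_atTop) fun n hn => ?_)
  obtain ⟨a1, a2, a3, a4, a5, a6⟩ := hn1 n hn
  have b1 : (1 : ℝ) ≤ n := by exact_mod_cast a4
  have b2 := km (w2 (Nat.le_succ n))
  have b3 := km (w3 n)
  have b4 := k0 (ω n)
  refine ⟨by nlinarith, by push_cast; nlinarith, ?_⟩
  obtain ⟨r, q0, q2, q3⟩ := (h (ω n) n a1 z (fun i => by rw [mul_comm]; exact a2 i)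
    hF').resolve_left fun h5 => (h5 ⟨β, hβ'⟩).not_gt a5
  refine ⟨pol r, fun h0 => q0 (funext (eq_zero_of_sum h0)), natDegree_pol _, fun i => ?_, ?_⟩
  · simp only [pol, finsetSum_coeff, coeff_C_mul_X_pow]
    by_cases hi : i < e + 1
    · rw [sum_eq_single ⟨i, hi⟩ (fun l _ hl => if_neg fun h => hl (Fin.ext h.symm)) (by simp)]
      simpa using (q2 ⟨i, hi⟩).trans (exp_le_exp.mpr (mul_le_mul_of_nonneg_right (k1 _) (by linarith)))
    · rw [sum_eq_zero fun l _ => if_neg (by have := l.2; omega)]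
      simp [(exp_pos _).le]
  have b5 : A * (k (ω (n + 1)) * (n + 1)) ≤ ω n * (k (ω n + 1) * (2 * n)) :=
    (mul_le_mul_of_nonneg_right a3 (by have := b4.trans b2; positivity)).trans
      (mul_le_mul_of_nonneg_left (mul_le_mul b3 (by linarith) (by positivity)
        (by linarith [k0 (ω n + 1)])) (Nat.cast_nonneg _))
  have b6 : |evZ y (v i0) ^ e| * |aeval (x i0) (pol r)| ≤
      exp (-1 * n) * exp (-A * (k (ω (n + 1)) * (n + 1 : ℕ))) := by
    rw [← abs_mul, ← exp_add]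
    refine le_trans (le_of_eq ?_) (q3.trans (exp_le_exp.mpr (by push_cast; linarith)))
    rw [sum_congr rfl fun l _ => by rw [huv, mul_left_comm], ← mul_sum]
    simp [pol]
  exact le_of_mul_le_mul_left (b6.trans (mul_le_mul_of_nonneg_right a6.le (exp_pos _).le)) hp

lemma exists_frac {T : Set ℝ} {x : ℝ} (hx : x ∈ Subfield.closure T) : ∃ (m : ℕ) (z : Fin m → ℝ)
    (u v : MvPolynomial (Fin m) ℤ), (∀ j, z j ∈ T) ∧
      x = evZ (fun j => Int.fract (z j)) u / evZ (fun j => Int.fract (z j)) v := by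
  have h1 : ∀ y ∈ Subring.closure T, ∃ p : MvPolynomial T ℤ,
      evZ (fun j : T => Int.fract j.1) p = y := fun y hy =>
    (Subring.closure_le (t := (evZ fun j : T => Int.fract j.1).range)).mpr (fun y hy =>
      ⟨MvPolynomial.X ⟨y, hy⟩ + (⌊y⌋ : MvPolynomial T ℤ), by
        rw [map_add, map_intCast]; simp [evZ]⟩) hy
  obtain ⟨y, hy, y', hy', rfl⟩ := Subfield.mem_closure_iff.mp hx
  obtain ⟨p, rfl⟩ := h1 y hy
  obtain ⟨p', rfl⟩ := h1 y' hy'
  obtain ⟨t, u, v, rfl, rfl⟩ := MvPolynomial.exists_finset_rename₂ p p'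
  refine ⟨_, fun j => (t.equivFin.symm j).1.1, u.rename t.equivFin, v.rename t.equivFin,
    fun j => (t.equivFin.symm j).1.2, ?_⟩
  simp [evZ, MvPolynomial.eval₂_rename, Function.comp_def]

theorem mainF : ∃ ω : ℕ → ℕ, Tendsto ω atTop atTop ∧ ∀ (r : ℕ) (b : Fin r → ℕ), (∀ i, 2 ≤ b i) →
    (∀ i j, i ≠ j → ∀ k l : ℕ, 0 < k → 0 < l → b i ^ k ≠ b j ^ l) → ∀ x : Fin r → ℝ,
    (∀ i, Transcendental ℚ (x i)) →
    (∀ i, x i ∈ Subfield.closure {y | ∀ᶠ n : ℕ in atTop, cx (b i) y n ≤ n * ω n}) →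
    AlgebraicIndependent ℚ x := by
  choose n1 h1 using fun τ : Σ (r : ℕ) (m : Fin r → ℕ), (Fin r → ℕ) × Finset (Fin r) ×
      MvPolynomial (Fin r) ℤ × (Fin r → MvPolynomial (Σ i, Fin (m i)) ℤ) ×
      (Fin r → MvPolynomial (Σ i, Fin (m i)) ℤ) =>
    stepF Sigma.fst τ.2.2.1 τ.2.2.2.1 τ.2.2.2.2.1 τ.2.2.2.2.2.1 τ.2.2.2.2.2.2
  have : ∀ (σ : Type) [Countable σ], Countable (MvPolynomial σ ℤ) := fun σ _ =>
    (AddMonoidAlgebra.coeff_injective (M := σ →₀ ℕ) (R := ℤ)).countable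
  obtain ⟨ω, w1, w2, w3, w4⟩ := diagonal n1
  refine ⟨ω, w1, fun r b hb hind x hx h => ?_⟩
  have : Algebra.IsAlgebraic ℤ ℚ := IsLocalization.isAlgebraic ℚ (nonZeroDivisors ℤ)
  have ht : ∀ i, Transcendental ℤ (x i) := fun i ha =>
    hx i (ha.extendScalars (algebraMap ℤ ℚ).injective_int)
  choose m z u v hz hxe using fun i => exists_frac (h i)
  have hr : ∀ i (p : MvPolynomial (Fin (m i)) ℤ), evZ (fun j : Σ i, Fin (m i) => Int.fract (z j.1 j.2))
      (p.rename (Sigma.mk i)) = evZ (fun j => Int.fract (z i j)) p := fun i p => by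
    simp [evZ, MvPolynomial.eval₂_rename, Function.comp_def]
  have hvs : ∀ i (p : MvPolynomial (Fin (m i)) ℤ), ∀ j ∈ (p.rename
      (Sigma.mk i : _ → Σ i, Fin (m i))).vars, j.1 = i := fun i p j hj => by
    obtain ⟨l, -, rfl⟩ := MvPolynomial.mem_vars_rename _ _ hj
    rfl
  have H : ∀ (s : Finset (Fin r)) (F : MvPolynomial (Fin r) ℤ), (∀ μ ∈ F.support, ∀ i ∉ s, μ i = 0) →
      evZ x F = 0 → F = 0 := fun s => by
    induction s using Finset.strongInduction with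
    | H s ih =>
    intro F hF h0
    rcases s.eq_empty_or_nonempty with rfl | hs
    · have : F = MvPolynomial.C (F.coeff 0) := MvPolynomial.totalDegree_eq_zero_iff_eq_C.mp
        ((MvPolynomial.totalDegree_eq_zero_iff _ _).mpr fun μ hμ i => hF μ hμ i (by simp))
      rw [this] at h0 ⊢
      rw [show F.coeff 0 = 0 by simpa using h0, map_zero]
    obtain ⟨i0, hi0, h3⟩ := h1 ⟨r, m, b, s, F, fun i => (u i).rename (Sigma.mk i),
      fun i => (v i).rename (Sigma.mk i)⟩ hb hind hs hF (fun i => hvs i _) (fun i => hvs i _)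
      ω w1 w2 w3 (w4 _) (fun j => z j.1 j.2)
      (fun j => (hz j.1 j.2).mono fun n hn => by exact_mod_cast hn) x
      (fun i h4 => ht i (by rw [hxe i, ← hr i (v i), h4, div_zero]; exact isAlgebraic_zero))
      (funext fun i => by simpa only [hr] using hxe i) ht h0
    ext μ
    have h4 := coeff_tp i0 F (μ i0) (μ.erase i0)
    rw [ih _ (erase_ssubset hi0) _ (fun ν hν i hi => by
      obtain ⟨a1, a2⟩ := mem_support_tp hν
      by_cases a3 : i = i0
      · rwa [a3]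
      · exact Nat.eq_zero_of_add_eq_zero_right (hF _ a2 i fun a4 => hi (mem_erase.mpr ⟨a3, a4⟩)))
      (h3 _), if_pos (by simp), Finsupp.erase_add_single] at h4
    exact h4.symm
  exact AlgebraicIndependent.extendScalars (R := ℤ) ℚ
    (algebraicIndependent_iff.mpr fun p hp => H univ p (by simp) hp)

end Pool.Agent.Lib.MP_c9a594_an.PW
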