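import Pool.Agent.Lib.MP_c9a594_an.Abs

/-! Cutting a small sum of units times words at a level. -/

open MvPolynomial Finset

namespace Pool.Agent.Lib.MP_c9a594_an

variable {K Pl : Type} [Field K] [CharZero K] [Fintype Pl] {r : ℕ}

/-- The words in terms of a basis over the units, with coefficients of bounded spread. -/
theorem Ctx.cramer (X : Ctx K Pl) {g : Fin r → K} (hg : ∀ i, g i ∈ X.O)
    (hg0 : ∀ i, ∑ v, X.ord v (g i) = 0)
    (hinj : ∀ F : MvPolynomial (Fin r) ℚ, aeval g F = 0 → F = 0)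
    {J : Type} [Fintype J] (V : J → K) {c : ℝ} (hc : 0 ≤ c)
    (hV : ∀ j, V j = 0 ∨ V j ∈ X.O ∧ ∀ v, |X.ord v (V j)| ≤ c) :
    ∃ (L : Type) (_ : Fintype L) (Z : L → K) (Δ : MvPolynomial (Fin r) ℚ)
      (N : J → L → MvPolynomial (Fin r) ℚ) (ρ : Fin r →₀ ℕ), Fintype.card L ≤ Fintype.card J ∧
      (∀ Ψ : L → MvPolynomial (Fin r) ℚ, ∑ j, aeval g (Ψ j) * Z j = 0 → ∀ j, Ψ j = 0) ∧
      (∀ l, Z l ∈ X.O ∧ ∀ v, |X.ord v (Z l)| ≤ c) ∧ Δ ≠ 0 ∧
      X.Near g ρ (Fintype.card J * ((2 + (Fintype.card J + 2) * Fintype.card Pl) * c)) Δ ∧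
      (∀ i l, X.Near g ρ (Fintype.card J * ((2 + (Fintype.card J + 2) * Fintype.card Pl) * c))
        (N i l)) ∧ ∀ i, aeval g Δ * V i = ∑ l, aeval g (N i l) * Z l := by
  classical
  obtain ⟨s, hE, hrel⟩ : ∃ s : Set J, (∀ Ψ : s → MvPolynomial (Fin r) ℚ,
      ∑ j, aeval g (Ψ j) * V j = 0 → ∀ j, Ψ j = 0) ∧ ∀ i, ∃ Ψ : Option s → MvPolynomial (Fin r) ℚ,
      Ψ none ≠ 0 ∧ ∑ j, aeval g (Ψ j) * (j.elim (V i) fun l => V l) = 0 := by
    let : Algebra (MvPolynomial (Fin r) ℚ) K := (aeval g).toRingHom.toAlgebra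
    obtain ⟨s, h1, h2⟩ := exists_maximal_linearIndepOn (MvPolynomial (Fin r) ℚ) V
    refine ⟨s, Fintype.linearIndependent_iff.mp h1, fun i => ?_⟩
    obtain ⟨a, ha, h3⟩ : ∃ a : MvPolynomial (Fin r) ℚ, a ≠ 0 ∧
        a • V i ∈ Submodule.span (MvPolynomial (Fin r) ℚ) (V '' s) := by
      by_cases hi : i ∈ s
      · exact ⟨1, one_ne_zero, by rw [one_smul]; exact Submodule.subset_span ⟨i, hi, rfl⟩⟩
      · exact h2 i hi
    rw [Set.image_eq_range, Submodule.mem_span_range_iff_exists_fun] at h3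
    obtain ⟨f, hf⟩ := h3
    refine ⟨fun j => j.elim (-a) f, neg_ne_zero.mpr ha, ?_⟩
    rw [Fintype.sum_option]
    change aeval g (-a) * V i + ∑ j : s, f j • V j = 0
    rw [hf, map_neg, neg_mul]
    exact neg_add_cancel _
  have hEne : ∀ j : s, V j ≠ 0 := fun j hj => by
    have := hE (Pi.single j 1) (by
      rw [sum_eq_single j (fun b _ hb => by simp [hb]) (by simp), hj, mul_zero]) j
    simp at this
  have hn : Fintype.card s ≤ Fintype.card J := Fintype.card_subtype_le _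
  have hsp : ∀ i, ∃ (Φ : Option s → MvPolynomial (Fin r) ℚ) (ρ : Fin r →₀ ℕ), Φ none ≠ 0 ∧
      ∑ j, aeval g (Φ j) * (j.elim (V i) fun l => V l) = 0 ∧
      ∀ j, X.Near g ρ ((2 + (Fintype.card J + 2) * Fintype.card Pl) * c) (Φ j) := by
    intro i
    obtain ⟨Ψ, h0, hΨ⟩ := hrel i
    exact X.spread hg hg0 hinj hc hn (by rintro (_ | j); exacts [hV _, hV _]) hEne hE h0 hΨ
  choose Φ ρ hΦ0 hΦ hnear using hsp
  let N : J → s → MvPolynomial (Fin r) ℚ := fun i l =>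
    ∏ j, if j = i then -Φ j (some l) else Φ j none
  refine ⟨s, inferInstance, fun l => V l, ∏ j, Φ j none, N, ∑ j, ρ j, hn, hE,
    fun j => (hV j).resolve_left (hEne j), prod_ne_zero_iff.mpr fun j _ => hΦ0 j,
    X.near_prod univ fun j => hnear j none, fun i l => X.near_prod univ fun j => ?_, fun i => ?_⟩
  · split_ifs
    · exact fun a ha => hnear j _ a (by simpa using ha)
    · exact hnear j _
  · have h1 := hΦ i
    rw [Fintype.sum_option] at h1
    have h2 : ∀ l, N i l = -Φ i (some l) * ∏ j ∈ univ.erase i, Φ j none := fun l => by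
      simp only [N]
      rw [← mul_prod_erase _ _ (mem_univ i), if_pos rfl]
      exact congrArg _ (prod_congr rfl fun j hj => if_neg (mem_erase.mp hj).1)
    rw [← mul_prod_erase _ _ (mem_univ i)]
    simp only [h2, map_mul, map_neg, mul_right_comm _ (aeval g (∏ j ∈ univ.erase i, Φ j none)),
      ← sum_mul, neg_mul, sum_neg_distrib]
    simp only [Option.elim] at h1
    rw [eq_neg_of_add_eq_zero_left h1, neg_mul]

lemma exists_cut (P : (Fin r →₀ ℕ) → Prop) (F : MvPolynomial (Fin r) ℚ) :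
    ∃ F0 F1 : MvPolynomial (Fin r) ℚ, F = F0 + F1 ∧ (∀ e ∈ F0.support, e ∈ F.support ∧ P e) ∧
      ∀ e ∈ F1.support, e ∈ F.support ∧ ¬ P e := by
  classical
  refine ⟨∑ a ∈ F.support.filter P, monomial a (coeff a F),
    ∑ a ∈ F.support.filter (¬ P ·), monomial a (coeff a F), ?_, fun e he => ?_, fun e he => ?_⟩
  · rw [sum_filter_add_sum_filter_not]; exact F.as_sum
  all_goals
    obtain ⟨a, ha, h⟩ := mem_biUnion.mp (support_sum he)
    obtain rfl : e = a := by simpa using support_monomial_subset h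
    exact mem_filter.mp ha

/-- The cut of a small sum is small. -/
theorem Ctx.trunc (X : Ctx K Pl) (v0 : Pl) {g : Fin r → K} (hg : ∀ i, g i ∈ X.O)
    (hg' : ∀ i, (g i)⁻¹ ∈ X.O) (hg0 : ∀ i, ∑ v, X.ord v (g i) = 0)
    (hinj : ∀ F : MvPolynomial (Fin r) ℚ, aeval g F = 0 → F = 0)
    {J N : Type} [Fintype J] [Fintype N] (V : J → K) {c : ℝ} (hc : 0 ≤ c)
    (hV : ∀ j, V j = 0 ∨ V j ∈ X.O ∧ ∀ v, |X.ord v (V j)| ≤ c) (a : Pl → ℝ) (u : Fin r →₀ ℕ)
    (G C : N → K) (G' : N → MvPolynomial (Fin r) ℚ) (C' : N → J → MvPolynomial (Fin r) ℚ)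
    (hG' : ∀ ν, mon g u * G ν = aeval g (G' ν))
    (hC' : ∀ ν, mon g u * C ν = ∑ j, aeval g (C' ν j) * V j) {Kc C1 : ℝ} (hC1 : 0 ≤ C1) {d : ℚ}
    (hd : d ≠ 0) (hΛ : d • ∑ ν, G ν * C ν = 0 ∨
      d • ∑ ν, G ν * C ν ∈ X.O ∧ X.ord v0 (d • ∑ ν, G ν * C ν) ≤ -Kc)
    (hG : ∀ ν, ∀ e ∈ (G' ν).support, ∑ w, a w * (X.wt g w e - X.wt g w u) = 0)
    (hC : ∀ ν j, ∀ e ∈ (C' ν j).support,
      (∀ w, |X.wt g w e - X.wt g w u| ≤ C1 * ∑ w, a w * (X.wt g w e - X.wt g w u)) ∧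
      X.wt g v0 e - X.wt g v0 u ≤ -∑ w, a w * (X.wt g w e - X.wt g w u)) (A : ℝ) {κ : ℝ}
    (hκ : κ = kap (Fintype.card J) (Fintype.card Pl) c 0) :
    ∃ (Q : K) (T : N → K), Q ≠ 0 ∧ Q ∈ Submodule.span ℚ {z | z ∈ X.O ∧ ∀ w, |X.ord w z| ≤ κ} ∧
      (∀ ν, T ν ∈ Submodule.span ℚ {z | z ∈ X.O ∧
        ∀ w, |X.ord w z| ≤ κ + C1 * (A + (∑ w, |a w|) * κ)}) ∧
      (∀ ν, Q * C ν - T ν ∈ Submodule.span ℚ {z | z ∈ X.O ∧
        X.ord v0 z ≤ κ + (∑ w, |a w|) * κ - A}) ∧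
      ∑ ν, G ν * T ν ∈ Submodule.span ℚ {z | z ∈ X.O ∧ X.ord v0 z ≤ κ - Kc} := by
  classical
  have hne : ∀ i, g i ≠ 0 := fun i h => X_ne_zero (R := ℚ) i (hinj _ (by rw [aeval_X, h]))
  have hmon : ∀ a, mon g a ≠ 0 := fun a => prod_ne_zero_iff.mpr fun i _ => pow_ne_zero _ (hne i)
  have hadd : ∀ a b, mon g (a + b) = mon g a * mon g b := fun a b => by
    simp [mon, pow_add, prod_mul_distrib]
  obtain ⟨L, _, Z, Δ, M, ρ, hn, hE, hZ, hΔ0, hΔn, hM, hΔV⟩ := X.cramer hg hg0 hinj V hc hV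
  set n := Fintype.card J
  set p := Fintype.card Pl
  set c1 : ℝ := n * ((2 + (n + 2) * p) * c)
  have hkap : κ = (1 + 2 * 0) * c1 + c + n * (p * c) := hκ
  have hp2 : 0 ≤ n * (p * c) := by positivity
  have hp3 : 0 ≤ c1 := by positivity
  let lev : (Fin r →₀ ℕ) → ℝ := fun e => ∑ w, a w * X.wt g w e
  have hlev : ∀ e e', lev (e + e') = lev e + lev e' := fun e e' => by
    simp [lev, mul_add, sum_add_distrib]
  have hsub : ∀ e e', ∑ w, a w * (X.wt g w e - X.wt g w e') = lev e - lev e' := fun e e' => by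
    simp [lev, mul_sub]
  simp only [hsub] at hG hC
  let θ : N → L → MvPolynomial (Fin r) ℚ := fun ν l => ∑ j, C' ν j * M j l
  have hθ : ∀ ν, aeval g Δ * (mon g u * C ν) = ∑ l, aeval g (θ ν l) * Z l := fun ν => by
    simp only [hC', θ, map_sum, map_mul, mul_sum, sum_mul]
    rw [sum_comm]
    exact sum_congr rfl fun j _ => by
      rw [mul_left_comm, hΔV, mul_sum]; exact sum_congr rfl fun l _ => (mul_assoc _ _ _).symm
  have hsupp : ∀ ν l, ∀ e ∈ (θ ν l).support, ∃ e1, (∀ w, |X.wt g w e1 - X.wt g w u| ≤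
      C1 * (lev e1 - lev u)) ∧ X.wt g v0 e1 - X.wt g v0 u ≤ -(lev e1 - lev u) ∧
      (∀ w, |X.wt g w e - X.wt g w e1 - X.wt g w ρ| ≤ c1) ∧
      |lev e - lev e1 - lev ρ| ≤ (∑ w, |a w|) * κ := fun ν l e he => by
    obtain ⟨j, -, hj⟩ := mem_biUnion.mp (support_sum he)
    obtain ⟨e1, h1, e2, h2, rfl⟩ := mem_add.mp (support_mul _ _ hj)
    refine ⟨e1, (hC ν j e1 h1).1, (hC ν j e1 h1).2, fun w => by
      rw [map_add, add_sub_cancel_left]; exact hM j l e2 h2 w, ?_⟩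
    rw [hlev, add_sub_cancel_left, ← hsub, sum_mul]
    refine (abs_sum_le_sum_abs _ _).trans (sum_le_sum fun w _ => ?_)
    rw [abs_mul]
    exact mul_le_mul_of_nonneg_left ((hM j l e2 h2 w).trans (by linarith)) (abs_nonneg _)
  choose θ0 θ1 h01 h0 h1 using fun ν l => exists_cut (fun e => lev e ≤ lev u + lev ρ + A) (θ ν l)
  refine ⟨aeval g Δ * 1 * (mon g ρ)⁻¹, fun ν => ∑ l, aeval g (θ0 ν l) * Z l * (mon g (u + ρ))⁻¹,
    mul_ne_zero (mul_ne_zero (fun h => hΔ0 (hinj _ h)) one_ne_zero) (inv_ne_zero (hmon _)),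
    mem_span_of_support fun e he => ?_,
    fun ν => Submodule.sum_mem _ fun l _ => mem_span_of_support fun e he => ?_, fun ν => ?_, ?_⟩
  · obtain ⟨h1, h2⟩ := X.ord_frac hg hg' hne X.O.one_mem e ρ
    refine ⟨h1, fun w => ?_⟩
    rw [h2, X.ord_one, zero_add]
    exact (hΔn e he w).trans (by linarith)
  · obtain ⟨h2, h3⟩ := X.ord_frac hg hg' hne (hZ l).1 e (u + ρ)
    obtain ⟨e1, a1, -, a3, a4⟩ := hsupp ν l e (h0 ν l e he).1
    refine ⟨h2, fun w => ?_⟩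
    have a5 := abs_le.mp ((a1 w).trans (mul_le_mul_of_nonneg_left
      (show _ ≤ A + (∑ w, |a w|) * κ by linarith [abs_le.mp a4, (h0 ν l e he).2]) hC1))
    have a6 := abs_le.mp (a3 w)
    have a7 := abs_le.mp ((hZ l).2 w)
    rw [h3, map_add, abs_le]
    constructor <;> linarith
  · have e1 : aeval g Δ * 1 * (mon g ρ)⁻¹ * C ν - ∑ l, aeval g (θ0 ν l) * Z l * (mon g (u + ρ))⁻¹ =
        ∑ l, aeval g (θ1 ν l) * Z l * (mon g (u + ρ))⁻¹ := by
      have := hθ ν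
      simp only [h01 ν, map_add, add_mul, sum_add_distrib] at this
      rw [← sum_mul, ← sum_mul, eq_sub_of_add_eq' this.symm, hadd]
      field_simp [hmon]
    rw [e1]
    refine Submodule.sum_mem _ fun l _ => mem_span_of_support fun e he => ?_
    obtain ⟨h2, h3⟩ := X.ord_frac hg hg' hne (hZ l).1 e (u + ρ)
    obtain ⟨e1, -, a2, a3, a4⟩ := hsupp ν l e (h1 ν l e he).1
    refine ⟨h2, ?_⟩
    rw [h3, map_add]
    linarith [abs_le.mp a4, not_le.mp (h1 ν l e he).2, abs_le.mp (a3 v0), abs_le.mp ((hZ l).2 v0)]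
  · have e1 : ∑ ν, G ν * ∑ l, aeval g (θ0 ν l) * Z l * (mon g (u + ρ))⁻¹ =
        ∑ l, aeval g (∑ ν, G' ν * θ0 ν l) * Z l * (mon g (u + (u + ρ)))⁻¹ := by
      simp only [map_sum, map_mul, sum_mul, mul_sum, ← hG']
      rw [sum_comm]
      refine sum_congr rfl fun l _ => sum_congr rfl fun ν _ => ?_
      rw [hadd u (u + ρ)]
      field_simp [hmon]
    rw [e1]
    refine Submodule.sum_mem _ fun l _ => mem_span_of_support fun e he => ?_
    obtain ⟨h2, h3⟩ := X.ord_frac hg hg' hne (hZ l).1 e (u + (u + ρ))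
    refine ⟨h2, ?_⟩
    have he' : e ∈ (∑ ν, G' ν * θ ν l).support := by
      have hlv : ∀ {t : N → MvPolynomial (Fin r) ℚ}, e ∈ (∑ ν, G' ν * t ν).support →
          ∃ ν, ∃ e2 ∈ (t ν).support, lev e = lev u + lev e2 := fun h => by
        obtain ⟨ν, -, hν⟩ := mem_biUnion.mp (support_sum h)
        obtain ⟨e1, a1, e2, a2, rfl⟩ := mem_add.mp (support_mul _ _ hν)
        exact ⟨ν, e2, a2, by rw [hlev]; linarith [hG ν e1 a1]⟩
      have hB : e ∉ (∑ ν, G' ν * θ1 ν l).support := fun hb => by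
        obtain ⟨ν, e2, a1, a2⟩ := hlv he
        obtain ⟨ν', e2', a1', a2'⟩ := hlv hb
        exact (h1 ν' l e2' a1').2 (by linarith [(h0 ν l e2 a1).2])
      simp only [h01 _ l, mul_add, sum_add_distrib]
      rw [mem_support_iff, coeff_add, notMem_support_iff.mp hB, add_zero]
      exact mem_support_iff.mp he
    have h4 : aeval g (monomial (u + u) (-d⁻¹) * Δ) * (d • ∑ ν, G ν * C ν) +
        ∑ l, aeval g (∑ ν, G' ν * θ ν l) * Z l = 0 := by
      simp only [map_sum, map_mul, sum_mul, ← hG', mul_assoc]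
      rw [sum_comm]
      simp only [← mul_sum, ← hθ]
      rw [aeval_monomial_eq, mul_smul_comm, mul_smul_comm, smul_mul_assoc, smul_smul, mul_neg,
        mul_inv_cancel₀ hd, neg_one_smul, hadd, mul_sum, mul_sum, mul_sum, ← sum_neg_distrib,
        ← sum_add_distrib]
      exact sum_eq_zero fun ν _ => by ring
    rcases hΛ with h5 | ⟨h5, h6⟩
    · rw [h5, mul_zero, zero_add] at h4
      rw [hE _ h4 l] at he'
      simp at he'
    obtain ⟨e0, he0, h7⟩ := X.disjoint hg hg0 hinj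
      (E := fun j => j.elim (d • ∑ ν, G ν * C ν) Z) (by rintro (_ | j); exacts [h5, (hZ j).1]) hE
      (Ψ := fun j => j.elim (monomial (u + u) (-d⁻¹) * Δ) fun l => ∑ ν, G' ν * θ ν l)
      (mul_ne_zero (by simp [hd]) hΔ0) (by rw [Fintype.sum_option]; exact h4) v0 (l := l) he'
    have h8 := abs_le.mp (((X.near_monomial (u + u) (-d⁻¹)).mul hΔn) e0 he0 v0)
    have h9 : ∑ j, ∑ v, X.ord v (Z j) ≤ n * (p * c) := by
      have := sum_le_sum (s := univ) fun (j : L) _ =>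
        sum_le_sum (s := univ) fun v _ => (abs_le.mp ((hZ j).2 v)).2
      simp only [sum_const, card_univ, nsmul_eq_mul] at this
      refine this.trans (mul_le_mul_of_nonneg_right ?_ (by positivity))
      exact_mod_cast hn
    simp only [Option.elim] at h7
    simp only [map_add] at h8 h3
    rw [h3]
    linarith

end Pool.Agent.Lib.MP_c9a594_an
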