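import Pool.Agent.Lib.MP_c9a594_an.PW.Trunc
import Pool.Agent.Lib.MP_c9a594_an.AR.Units
import Pool.Agent.Lib.MP_c9a594_an.AR.Defs

/-! The cut along an ultrafilter. -/

open Filter Topology Real Finset Pool.Agent.Subspace MvPolynomial

namespace Pool.Agent.Lib.MP_c9a594_an.PW

open AI AR

variable {S : Finset ℕ} (hS : ∀ p ∈ S, p.Prime) {U : Ultrafilter ℕ} {q : ℕ → ℝ}

include hS

lemma pr_ne (p : S) : (p : ℕ) ≠ 0 := (hS p p.2).ne_zero

lemma om_ne : ∏ p : S, (p : ℕ) ≠ 0 := prod_ne_zero_iff.mpr fun p _ => pr_ne hS p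

lemma om_mem (p : ℕ) (hp : p.Prime) (h : p ∣ ∏ p : S, (p : ℕ)) : p ∈ S := by
  obtain ⟨l, -, hl⟩ := (hp.prime.dvd_finsetProd_iff _).mp h
  exact (Nat.prime_dvd_prime_iff_eq hp (hS l l.2)).mp hl ▸ l.2

lemma pr_ind (e : S → ℤ) (h : ∏ p : S, ((p : ℕ) : ℚ) ^ e p = 1) : e = 0 := by
  funext l
  have h1 := congrArg (fun z => log (plAbs S hS (some l) z)) h
  simp only [map_prod, map_one, log_one] at h1
  rw [log_prod fun i _ => (plAbs S hS _).ne_zero
    (zpow_ne_zero _ (by exact_mod_cast pr_ne hS i)), sum_eq_single l (fun p _ hp => by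
      rw [map_zpow₀, log_zpow, log_plAbs_nat (pr_ne hS p), (hS p p.2).factorization,
        Finsupp.single_eq_of_ne (fun h => hp (Subtype.ext h).symm)]
      simp) (by simp), map_zpow₀, log_zpow, log_plAbs_nat (pr_ne hS l),
    (hS l l.2).factorization_self] at h1
  simpa [(log_pos_of_mem hS l).ne'] using h1

variable (U q) in
/-- Units whose orders lie in a given set. -/
def un (Cn : Set (Option S → ℝ)) : Set (UP U) :=
  {z | (∃ γ ∈ tameR U q, z = gmr U (fun p : S => (p : ℕ)) γ) ∧ (fun w => ordU U hS q w z) ∈ Cn}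

variable (U q) in
/-- Sums of units times words. -/
noncomputable def uwS (Cn : Set (Option S → ℝ)) {J : Type} (V : J → UP U) : Submodule ℚ (UP U) :=
  Submodule.span ℚ {z | ∃ y ∈ un hS U q Cn, ∃ j, z = y * V j}

lemma present (hq : Tendsto q U atTop) {I J : Type} [Fintype I] [Fintype J]
    (Cn : I → Set (Option S → ℝ)) (V : I → J → UP U) (x : I → UP U)
    (hx : ∀ i, x i ∈ uwS hS U q (Cn i) (V i)) :
    ∃ (r : ℕ) (g : Fin r → ℕ → S → ℤ) (u : Fin r →₀ ℕ) (P : I → J → MvPolynomial (Fin r) ℚ),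
      (∀ i, g i ∈ tameR U q) ∧ (∀ n : Fin r → ℤ, ∑ i, n i • g i ∈ stdR U → ∀ i, n i = 0) ∧
      (∀ i, mon (fun l => gmr U (fun p : S => (p : ℕ)) (g l)) u * x i =
        ∑ j, aeval (fun l => gmr U (fun p : S => (p : ℕ)) (g l)) (P i j) * V i j) ∧
      ∀ i j, ∀ e ∈ (P i j).support, (fun w =>
        (ctxU hS hq (om_ne hS) (om_mem hS)).wt (fun l => gmr U (fun p : S => (p : ℕ)) (g l)) w e -
        (ctxU hS hq (om_ne hS) (om_mem hS)).wt (fun l => gmr U (fun p : S => (p : ℕ)) (g l)) w u)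
        ∈ Cn i := by
  classical
  have hb := pr_ne hS
  choose n s z hz using fun i => Submodule.mem_span_set'.mp (hx i)
  choose y h1 e h4 using fun i t => (z i t).2
  choose γ hγ h2 using fun i t => (h1 i t).1
  obtain ⟨r, g, u, u0, c0, hg, hgi, hu⟩ :=
    exists_monomialsR hb (fun t : Σ i, Fin (n i) => γ t.1 t.2) fun t => hγ _ _
  refine ⟨r, g, u0, fun i j => ∑ t, if e i t = j then
    monomial (u ⟨i, t⟩) (s i t * ∏ p : S, ((p : ℕ) : ℚ) ^ c0 ⟨i, t⟩ p) else 0, hg, hgi,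
    fun i => ?_, fun i j a ha => ?_⟩
  · simp only [map_sum, sum_mul]
    rw [sum_comm, ← hz, mul_sum]
    refine sum_congr rfl fun t _ => ?_
    rw [sum_eq_single (e i t) (fun j _ hj => by simp [hj.symm]) (by simp), if_pos rfl,
      aeval_monomial_eq, h4, h2, mul_smul_comm, ← mul_assoc, hu ⟨i, t⟩, mul_assoc, gmr_const,
      smul_smul, smul_mul_assoc]
  · obtain ⟨t, -, ht⟩ := mem_biUnion.mp (support_sum ha)
    split_ifs at ht
    swap
    · simp at ht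
    obtain rfl : a = u ⟨i, t⟩ := by simpa using support_monomial_subset ht
    set X := ctxU hS hq (om_ne hS) (om_mem hS)
    have hXo : X.ord = ordU U hS q := rfl
    have hgO : ∀ j, gmr U (fun p : S => (p : ℕ)) (g j) ∈ X.O := fun j => gmr_mem hq hb (hg j)
    convert (h1 i t).2 using 2 with w
    have h5 := congrArg (X.ord w) (hu ⟨i, t⟩)
    rw [X.ord_mul w _ (X.mon_mem hgO _) _ (gmr_mem hq hb (hγ _ _)),
      X.ord_mul w _ (gmr_mem hq hb ⟨_, Rt.const hq _⟩) _ (X.mon_mem hgO _), X.ord_mon hgO,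
      X.ord_mon hgO, hXo, ordU_gmr hb (Rt.const hq _)] at h5
    simp only [Pi.zero_apply, zero_mul, sum_const_zero] at h5
    rw [h2]
    linarith

omit hS in
/-- Elements with a nonzero multiple that is zero or tame. -/
def orA (hq : Tendsto q U atTop) {ω : ℕ} (hω : ω ≠ 0) : Subalgebra ℚ (UP U) where
  carrier := {z | ∃ d : ℤ, d ≠ 0 ∧ ((d : ℚ) • z = 0 ∨ (d : ℚ) • z ∈ tameO U q ω)}
  add_mem' := by
    rintro x y ⟨d, hd, h⟩ ⟨d', hd', h'⟩
    refine ⟨d * d', mul_ne_zero hd hd', ?_⟩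
    rw [smul_add, Int.cast_mul, mul_smul _ _ y, mul_comm, mul_smul]
    exact add_mem_or hq hω (zsmul_mem_or hq _ h) (zsmul_mem_or hq _ h')
  mul_mem' := by
    rintro x y ⟨d, hd, h⟩ ⟨d', hd', h'⟩
    refine ⟨d * d', mul_ne_zero hd hd', ?_⟩
    rw [Int.cast_mul, ← smul_mul_smul_comm]
    exact mul_mem_or h h'
  algebraMap_mem' r := ⟨r.den, by simp, by
    rw [Algebra.algebraMap_eq_smul_one, smul_smul, Int.cast_natCast, mul_comm, Rat.mul_den_eq_num]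
    exact zsmul_mem_or hq _ (Or.inr (one_mem _))⟩

lemma uwS_mem (hq : Tendsto q U atTop) {Cn : Set (Option S → ℝ)} {J : Type} {V : J → UP U}
    (hV : ∀ j, V j = 0 ∨ V j ∈ tameO U q (∏ p : S, (p : ℕ))) {x : UP U}
    (hx : x ∈ uwS hS U q Cn V) : x ∈ orA hq (om_ne hS) := by
  refine (Submodule.span_le (p := Subalgebra.toSubmodule (orA hq (om_ne hS)))).mpr ?_ hx
  rintro _ ⟨_, ⟨⟨γ, hγ, rfl⟩, -⟩, j, rfl⟩
  exact ⟨1, one_ne_zero, by
    simpa using mul_mem_or (Or.inr (gmr_mem hq (pr_ne hS) hγ)) (hV j)⟩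

lemma integ (hq : Tendsto q U atTop) {R : ℝ} (hR : 0 ≤ R) : ∃ W : UP U, W ≠ 0 ∧
    W ∈ small hq ((2 * R + 2) * log (∏ p : S, (p : ℕ) : ℕ)) ∧
    ∀ z ∈ Submodule.span ℚ {z | z ∈ tameO U q (∏ p : S, (p : ℕ)) ∧ ∀ w, |ordU U hS q w z| ≤ R},
      W * z ∈ Submodule.span ℚ {z : UP U | ∃ f : ℕ → ℤ, z = germ U fun k => f k} := by
  have hb := pr_ne hS
  have hω := om_ne hS
  set M0 := ⌈2 * R⌉₊ + 1
  have h1 : (M0 : ℝ) ≤ 2 * R + 2 := by
    have := Nat.ceil_lt_add_one (show 0 ≤ 2 * R by positivity)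
    simp only [M0]; push_cast; linarith
  have h2 : R < M0 * log 2 := by
    have := Nat.le_ceil (2 * R)
    have := log_two_gt_d9
    simp only [M0]; push_cast; nlinarith
  have hlim : Rt U q (fun k (_ : S) => (M0 * ⌈q k⌉₊ : ℤ)) fun _ => M0 := fun _ => by
    have h5 : Tendsto (fun k => (⌈q k⌉₊ : ℝ) / q k) U (𝓝 1) :=
      (tendsto_nat_ceil_div_atTop (R := ℝ)).comp hq
    simpa [mul_div_assoc] using h5.const_mul (M0 : ℝ)
  have hWO := gmr_mem hq hb ⟨_, hlim⟩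
  have hWo : ∀ v, ordU U hS q v (gmr U (fun p : S => (p : ℕ)) fun k _ => M0 * ⌈q k⌉₊) =
      M0 * log (plAbs S hS v (∏ p : S, (p : ℕ) : ℕ)) := fun v => by
    rw [ordU_gmr hb hlim, ← mul_sum, Nat.cast_prod,
      map_prod, log_prod fun i _ => (plAbs S hS v).ne_zero (by exact_mod_cast hb i)]
  refine ⟨_, gmr_ne_zero hb _, mem_small (hS := hS) hq hω hWO ?_,
    fun z hz => mul_mem_of_span (fun z hz => Submodule.subset_span ?_) hz⟩
  · rw [hWo, plAbs_none]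
    simp only [Rat.cast_natCast, Nat.abs_cast]
    exact mul_le_mul_of_nonneg_right h1 (log_natCast_nonneg _)
  · refine exists_int (hS := hS) hq hω (om_mem hS) (mul_mem hWO hz.1) fun p => ?_
    rw [show ordU U hS q (some p) (_ * z) = _ from
      (ctxU hS hq hω (om_mem hS)).ord_mul _ _ hWO _ hz.1]
    change ordU U hS q _ _ + ordU U hS q _ _ < 0
    rw [hWo, log_plAbs_nat hω]
    have h1 : (1 : ℝ) ≤ (∏ p : S, (p : ℕ)).factorization p := by
      exact_mod_cast (hS p p.2).factorization_pos_of_dvd hω (dvd_prod_of_mem _ (mem_univ p))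
    have h2 : log 2 ≤ log ((p : ℕ) : ℝ) := log_le_log two_pos (by exact_mod_cast (hS p p.2).two_le)
    have h3 := mul_le_mul h1 h2 (log_pos one_lt_two).le (zero_le_one.trans h1)
    have h4 := mul_le_mul_of_nonneg_left h3 (Nat.cast_nonneg (α := ℝ) M0)
    linarith [abs_le.mp (hz.2 (some p))]

omit hS in
lemma inv_int {hq : Tendsto q U atTop} {f : ℕ → ℤ} (h : (germ U fun k => f k) ≠ 0) :
    (germ U fun k => f k)⁻¹ ∈ small hq 0 :=
  inv_small (hq := hq) ((Ultrafilter.eventually_not.mpr fun h1 => h (germ_eq_zero.mpr h1)).mono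
    fun k hk h1 => hk (by simp [h1]))

omit hS in
lemma sm_mul {hq : Tendsto q U atTop} {x y : UP U} {r r' s : ℝ} (hx : x ∈ small hq r)
    (hy : y ∈ small hq r') (h : r + r' ≤ s) : x * y ∈ small hq s :=
  (smK hq).mono (m := 0) (m' := 0) le_rfl h ((smK hq).mul (m := 0) (m' := 0) hx hy)

omit hS in
/-- Order vectors of level zero. -/
def lev0 (a : Option S → ℝ) : AddSubmonoid (Option S → ℝ) where
  carrier := {o | ∑ w, a w * o w = 0}
  zero_mem' := by simp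
  add_mem' h h' := by
    simp only [Set.mem_ofPred_eq, Pi.add_apply, mul_add, sum_add_distrib] at *; linarith

omit hS in
/-- Order vectors controlled by their level. -/
def cone (a : Option S → ℝ) (C1 : ℝ) : AddSubmonoid (Option S → ℝ) where
  carrier := {o | (∀ w, |o w| ≤ C1 * ∑ w, a w * o w) ∧ o none ≤ -∑ w, a w * o w}
  zero_mem' := by simp
  add_mem' h h' := by
    simp only [Set.mem_ofPred_eq, Pi.add_apply, mul_add, sum_add_distrib] at *
    exact ⟨fun w => (abs_add_le _ _).trans (add_le_add (h.1 w) (h'.1 w)), by linarith [h.2, h'.2]⟩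

theorem trunc_ultra (J : Type) [Fintype J] (c : ℝ) (a : Option S → ℝ) {C1 : ℝ} (hC1 : 0 ≤ C1) :
    ∃ κ : ℝ, 0 ≤ κ ∧ ∀ (U : Ultrafilter ℕ) (q : ℕ → ℝ) (hq : Tendsto q U atTop) (V : J → ℕ → ℤ),
      (∀ j, ∀ᶠ k in U, |(V j k : ℝ)| ≤ exp (c * q k)) → ∀ (N : Type) [Fintype N]
      (G C : N → UP U) (K : ℝ), (∀ ν, G ν ∈ uwS hS U q (lev0 a) fun _ : J => 1) →
      (∀ ν, C ν ∈ uwS hS U q (cone a C1) fun j => germ U fun k => V j k) →
      ∑ ν, G ν * C ν ∈ small hq (-K) → ∀ A, 0 ≤ A → ∃ (T : N → UP U) (u : UP U),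
        (∀ ν, T ν ∈ (zs hq).F 0 (κ * (1 + A))) ∧ (∀ ν, C ν - u * T ν ∈ small hq (κ - A)) ∧
        ∑ ν, G ν * T ν ∈ small hq (κ * (1 + A) - K) := by
  have hb := pr_ne hS
  have hω := om_ne hS
  obtain ⟨κ0, hκ⟩ : ∃ κ0, κ0 = kap (Fintype.card J) (Fintype.card (Option S)) |c| 0 := ⟨_, rfl⟩
  have hκ0 : 0 ≤ κ0 := by simp only [hκ, kap]; positivity
  obtain ⟨L, hL⟩ : ∃ L, L = log (∏ p : S, (p : ℕ) : ℕ) := ⟨_, rfl⟩
  have hL0 : 0 ≤ L := hL ▸ log_natCast_nonneg _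
  obtain ⟨α, hα⟩ : ∃ α, α = (∑ w, |a w|) * κ0 := ⟨_, rfl⟩
  have hα0 : 0 ≤ α := by rw [hα]; positivity
  refine ⟨(κ0 + C1 * α + C1) * (1 + 2 * L) + 2 * L + κ0 + (2 * κ0 + 2) * L + α, by positivity,
    fun U q hq V hV N _ G C K hG hC hΛ A hA => ?_⟩
  let Vb : J → UP U := fun j => germ U fun k => V j k
  obtain ⟨r, g, u, P, hg, hgi, hP, hPs⟩ := present hS hq (I := N ⊕ N)
    (Sum.elim (fun _ => lev0 a) fun _ => cone a C1) (Sum.elim (fun _ _ => 1) fun _ => Vb)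
    (Sum.elim G C) (by rintro (ν | ν); exacts [hG ν, hC ν])
  set X := ctxU hS hq hω (om_mem hS)
  have hVb : ∀ j, Vb j = 0 ∨ Vb j ∈ X.O ∧ ∀ v, |X.ord v (Vb j)| ≤ |c| := fun j =>
    (int_mem_or hq (hV j)).imp_right fun h =>
      ⟨int_mem hq h, fun v => (abs_ordU_int hq h v).trans (le_abs_self c)⟩
  obtain ⟨d, hd, hor⟩ : ∑ ν, G ν * C ν ∈ orA hq hω := Subalgebra.sum_mem _ fun ν _ =>
    mul_mem (uwS_mem hS hq (fun _ => Or.inr (one_mem _)) (hG ν))
      (uwS_mem hS hq (fun j => (hVb j).imp_right And.left) (hC ν))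
  obtain ⟨Q, T, hQ0, hQ, hT, hQT, hGT⟩ := X.trunc none (fun j => gmr_mem hq hb (hg j))
    (fun j => gmr_neg (b := fun p : S => (p : ℕ)) (g j) ▸ gmr_mem hq hb (Submodule.neg_mem _ (hg j)))
    (fun j => sum_ordU_gmr hb (om_mem hS) (hg j)) (aeval_gmr_injective hb (pr_ind hS) hgi) Vb
    (abs_nonneg c) hVb a u G C (fun ν => ∑ j, P (.inl ν) j) (fun ν => P (.inr ν))
    (fun ν => by simpa using hP (.inl ν)) (fun ν => hP (.inr ν)) (Kc := K) hC1
    (d := d) (by exact_mod_cast hd) (hor.imp_right fun h => ⟨h, by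
      have h5 := Submodule.smul_mem _ (d : ℚ) hΛ
      obtain ⟨f, hf⟩ := germ_surj ((d : ℚ) • ∑ ν, G ν * C ν)
      rw [← hf] at h h5 ⊢
      exact le_of_forall_pos_le_add fun ε hε => ordU_le hq hω h none (h5 f rfl ε hε)⟩)
    (fun ν e he => by
      obtain ⟨j, -, hj⟩ := mem_biUnion.mp (support_sum he)
      exact hPs (.inl ν) j e hj) (fun ν j e he => hPs (.inr ν) j e he) A hκ
  rw [← hα] at hT hQT
  have hsm : ∀ {ρ : ℝ} {Z : Set (UP U)}, (∀ z ∈ Z, z ∈ X.O ∧ X.ord none z ≤ ρ) →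
      ∀ {z}, z ∈ Submodule.span ℚ Z → z ∈ small hq ρ := fun h z hz =>
    Submodule.span_le.mpr (fun z hz => mem_small (hS := hS) hq hω (h z hz).1 (h z hz).2) hz
  obtain ⟨W1, hW1, a1, a2⟩ := integ hS hq hκ0
  obtain ⟨W2, hW2, b1, b2⟩ := integ hS hq (R := κ0 + C1 * (A + α)) (by positivity)
  rw [← hL] at a1 b1
  obtain ⟨d1, f1, hd1, hf1⟩ := exists_int_of_span (a2 Q hQ)
  obtain ⟨d2, f2, hd2, hf2⟩ := exists_int_family fun ν => b2 _ (hT ν)
  have hd1' : (d1 : ℚ) ≠ 0 := by exact_mod_cast hd1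
  have hQi : Q⁻¹ ∈ small hq ((2 * κ0 + 2) * L) := by
    have := Submodule.smul_mem _ (d1 : ℚ) (sm_mul a1 (inv_int (hq := hq) (f := f1)
      (hf1 ▸ smul_ne_zero hd1' (mul_ne_zero hW1 hQ0))) (add_zero _).le)
    rwa [← hf1, smul_inv₀, mul_smul_comm, smul_inv_smul₀ hd1', mul_inv,
      mul_inv_cancel_left₀ hW1] at this
  have h1 := mul_nonneg hC1 hA
  have h2 := mul_nonneg hC1 hα0
  have h3 : (2 * (κ0 + C1 * (A + α)) + 2) * L + (κ0 + C1 * (A + α)) ≤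
      ((κ0 + C1 * α + C1) * (1 + 2 * L) + 2 * L + κ0 + (2 * κ0 + 2) * L + α) * (1 + A) := by
    have : 0 ≤ ((κ0 + C1 * α) * (1 + 2 * L) + 2 * L + κ0 + (2 * κ0 + 2) * L + α) * A +
      (C1 * (1 + 2 * L) + κ0 + (2 * κ0 + 2) * L + α) := by positivity
    linarith
  refine ⟨fun ν => d2 • (W2 * T ν), d2⁻¹ • (W2 * Q)⁻¹, fun ν => ⟨⟨_, hf2 ν⟩,
    Submodule.smul_mem _ _ (sm_mul b1 (hsm (fun z hz => ⟨hz.1, (abs_le.mp (hz.2 none)).2⟩) (hT ν))
      h3)⟩, fun ν => ?_, ?_⟩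
  · have := sm_mul hQi (hsm (fun z hz => hz) (hQT ν)) (s := (κ0 + C1 * α + C1) * (1 + 2 * L) +
      2 * L + κ0 + (2 * κ0 + 2) * L + α - A) (by
        have : 0 ≤ (κ0 + C1 * α + C1) * (1 + 2 * L) := by positivity
        linarith)
    convert this using 1
    rw [smul_mul_smul_comm, inv_mul_cancel₀ hd2, one_smul]
    field_simp
  · have := Submodule.smul_mem _ d2 (sm_mul b1 (hsm (fun z hz => hz) hGT) (s := ((κ0 + C1 * α + C1) *
      (1 + 2 * L) + 2 * L + κ0 + (2 * κ0 + 2) * L + α) * (1 + A) - K) (by nlinarith))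
    convert this using 1
    rw [mul_sum, Finset.smul_sum]
    exact sum_congr rfl fun ν _ => by rw [mul_smul_comm, mul_left_comm]

variable {J : Type} [Fintype J]

/-- Units with orders in a given monoid times monomials in the words. -/
noncomputable def cls (hq : Tendsto q U atTop) (Cn : AddSubmonoid (Option S → ℝ)) (W : J → UP U) :
    Fil (UP U) where
  F m _ := (Submodule.span ℚ {z | ∃ y ∈ un hS U q Cn, ∃ μ : J → ℕ, (∀ j, μ j ≤ m) ∧
    z = y * ∏ j, W j ^ μ j}).toAddSubgroup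
  one := Submodule.subset_span ⟨1, ⟨⟨0, zero_mem _, gmr_zero.symm⟩, Set.mem_of_eq_of_mem
    (funext fun w => (ctxU hS hq (om_ne hS) (om_mem hS)).ord_one w) Cn.zero_mem⟩, 0, by simp,
    by simp⟩
  mul := by
    intro m m' r r' x y hx hy
    have := Submodule.mul_mem_mul hx hy
    rw [Submodule.span_mul_span] at this
    refine Submodule.span_mono ?_ this
    rintro _ ⟨_, ⟨_, ⟨⟨γ, h1, rfl⟩, h2⟩, μ, h3, rfl⟩, _, ⟨_, ⟨⟨γ', h1', rfl⟩, h2'⟩, μ', h3', rfl⟩,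
      rfl⟩
    refine ⟨_, ⟨⟨γ + γ', add_mem h1 h1', (gmr_add (pr_ne hS) _ _).symm⟩, ?_⟩, μ + μ',
      fun j => add_le_add (h3 j) (h3' j), ?_⟩
    · exact Set.mem_of_eq_of_mem (funext fun w => (ctxU hS hq (om_ne hS) (om_mem hS)).ord_mul w _
        (gmr_mem hq (pr_ne hS) h1) _ (gmr_mem hq (pr_ne hS) h1')) (Cn.add_mem h2 h2')
    · simp only [Pi.add_apply, pow_add, prod_mul_distrib]
      ring
  mono := by
    intro m m' r r' x h h' hx
    refine Submodule.span_mono ?_ hx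
    rintro _ ⟨y, h1, μ, h2, rfl⟩
    exact ⟨y, h1, μ, fun j => (h2 j).trans h, rfl⟩

lemma cls_le {hq : Tendsto q U atTop} {Cn : AddSubmonoid (Option S → ℝ)} {W : J → ℕ → ℤ} {m : ℕ}
    {r : ℝ} {x : UP U} (hx : x ∈ (cls hS hq Cn fun j => germ U fun k => W j k).F m r) :
    x ∈ uwS hS U q Cn
      fun μ : J → Fin (m + 1) => germ U fun k => (∏ j, W j k ^ (μ j : ℕ) : ℤ) := by
  refine Submodule.span_mono ?_ hx
  rintro _ ⟨y, h1, μ, h2, rfl⟩
  refine ⟨y, h1, fun j => ⟨μ j, Nat.lt_succ_of_le (h2 j)⟩, ?_⟩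
  simp only [← map_pow, ← map_prod]
  congr 2
  ext k
  simp

lemma cls_le0 {hq : Tendsto q U atTop} {Cn : AddSubmonoid (Option S → ℝ)} {W : J → UP U}
    {r : ℝ} {x : UP U} (hx : x ∈ (cls hS hq Cn W).F 0 r) (J' : Type) [Inhabited J'] :
    x ∈ uwS hS U q Cn fun _ : J' => 1 := by
  refine Submodule.span_mono ?_ hx
  rintro _ ⟨y, h1, μ, h2, rfl⟩
  exact ⟨y, h1, default, by simp [Nat.le_zero.mp (h2 _)]⟩

end Pool.Agent.Lib.MP_c9a594_an.PW
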